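import Pool.Agent.SYU.BlkN

/-!
# SYU-BlkF: a letter that swaps almost all 2-blocks

Project SYU (MP_a3a126_co), paper proof in /team-store/a3a126b_87.md, section D5.
-/

set_option autoImplicit false

open Finset

namespace Pool.Agent.SYT

variable {V : Type} [Fintype V] [DecidableEq V] (S : Sys V)

omit [Fintype V] in
private theorem bf_two {C : Finset V} (hC : C.card = 2) {a b c : V} (ha : a ∈ C) (hb : b ∈ C)
    (hc : c ∈ C) (hab : a ≠ b) (hcb : c ≠ b) : a = c := by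
  obtain ⟨u, v, -, rfl⟩ := card_eq_two.1 hC
  rw [mem_insert, mem_singleton] at ha hb hc
  rcases ha with rfl | rfl <;> rcases hb with rfl | rfl <;> rcases hc with rfl | rfl <;>
    first | rfl | exact absurd rfl hab | exact absurd rfl hcb

private theorem bf_fix {Γ : Subgroup (Equiv.Perm V)} {x : V} (hx : (cls Γ x).card = 2)
    {γ : Equiv.Perm V} (hγ : γ ∈ Γ) (h : γ x = x) {z : V} (hz : z ∈ cls Γ x) : γ z = z := by
  by_contra hc
  have hzx : x ≠ z := by
    rintro rfl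
    exact hc h
  have h1 : γ z ∈ cls Γ x := (apply_mem (cls_mem_comps x) hγ).2 hz
  have h2 : γ z = x := bf_two hx h1 hz (self_mem_cls x) hc hzx
  rw [← h] at h2
  exact hzx (by rw [← h]; exact (γ.injective h2).symm ▸ h)

private theorem bf_mv {Γ : Subgroup (Equiv.Perm V)} {x : V} (hx : (cls Γ x).card = 2)
    {γ : Equiv.Perm V} (hγ : γ ∈ Γ) (h : γ x ≠ x) {z : V} (hz : z ∈ cls Γ x) : γ z ≠ z := by
  intro hc
  have h1 : (cls Γ z).card = 2 := by
    rw [cls_eq hz]
    exact hx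
  have h2 : x ∈ cls Γ z := by
    rw [cls_eq hz]
    exact self_mem_cls x
  exact h (bf_fix h1 hγ hc h2)

/-- `γ` fixes the first component and swaps the second one -/
private theorem bf_tr {Γ : Subgroup (Equiv.Perm V)} {x y : V} (hx : (cls Γ x).card = 2)
    (hy : (cls Γ y).card = 2) {γ : Equiv.Perm V} (hγ : γ ∈ Γ) (h1 : γ x = x) (h2 : γ y ≠ y)
    {a a' b b' : V} (ha : a ∈ cls Γ x) (ha' : a' ∈ cls Γ x) (hb : b ∈ cls Γ y)
    (hb' : b' ∈ cls Γ y) : ∃ δ ∈ Γ, δ a = a' ∧ δ b = b' := by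
  have h3 : a' ∈ cls Γ a := by
    rw [cls_eq ha]
    exact ha'
  obtain ⟨δ, hδ, hδa⟩ := mem_cls.1 h3
  have h4 : δ b ∈ cls Γ y := (apply_mem (cls_mem_comps y) hδ).2 hb
  by_cases h5 : δ b = b'
  · exact ⟨δ, hδ, hδa, h5⟩
  · refine ⟨γ * δ, mul_mem hγ hδ, ?_, ?_⟩
    · rw [Equiv.Perm.mul_apply, hδa]
      exact bf_fix hx hγ h1 ha'
    · rw [Equiv.Perm.mul_apply]
      exact bf_two hy ((apply_mem (cls_mem_comps y) hγ).2 h4) h4 hb' (bf_mv hy hγ h2 h4)
        (fun h => h5 h.symm)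

theorem swap_two {P1 : Set (Equiv.Perm V)} (h1 : P1 ⊆ S.P) {x y : V}
    (hx : (cls (Subgroup.closure P1) x).card = 2) (hy : (cls (Subgroup.closure P1) y).card = 2)
    (hxy : cls (Subgroup.closure P1) x ≠ cls (Subgroup.closure P1) y)
    (h2 : 2 ≤ ((S.ND P1).filter fun q => q.1 ∈ cls (Subgroup.closure P1) x ∧
      q.2 ∈ cls (Subgroup.closure P1) y).card)
    {γ : Equiv.Perm V} (hγ : γ ∈ Subgroup.closure P1) : γ x = x ↔ γ y = y := by
  obtain ⟨p, hp, q, hq, hpq⟩ := one_lt_card.1 h2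
  rw [mem_filter] at hp hq
  have hbad : ¬ ∃ δ ∈ Subgroup.closure P1, δ p.1 = q.1 ∧ δ p.2 = q.2 := by
    rintro ⟨δ, hδ, e1, e2⟩
    have e3 : mv δ p = q := Prod.ext e1 e2
    rcases nd_same S h1 hp.1 hδ (by rw [e3]; exact hq.1) with h | h
    · rw [e3] at h
      exact hpq h.symm
    · rw [e3] at h
      apply hxy
      have h3 : q.1 = p.2 := by rw [h]; rfl
      have h4 := hq.2.1
      rw [h3] at h4
      rw [← cls_eq h4, ← cls_eq hp.2.2]
  constructor
  · intro h
    by_contra hc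
    exact hbad (bf_tr hx hy hγ h hc hp.2.1 hq.2.1 hp.2.2 hq.2.2)
  · intro h
    by_contra hc
    obtain ⟨δ, hδ, e1, e2⟩ := bf_tr hy hx hγ h hc hp.2.2 hq.2.2 hp.2.1 hq.2.1
    exact hbad ⟨δ, hδ, e2, e1⟩

theorem exists_f {P1 : Finset (Equiv.Perm V)} (h1 : (P1 : Set (Equiv.Perm V)) ⊆ S.P) {v2 z : ℕ}
    (hv2 : v2 = (univ.filter fun x =>
      (cls (Subgroup.closure (P1 : Set (Equiv.Perm V))) x).card = 2).card)
    (hz : z = (univ.filter fun x =>
      (cls (Subgroup.closure (P1 : Set (Equiv.Perm V))) x).card ≠ 2).card) (hpos : 0 < v2) :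
    ∃ f ∈ P1, v2 * (univ.filter fun x => f x = x ∨ f (f x) ≠ x).card ≤
      (z + 2) * v2 + (badP S (P1 : Set (Equiv.Perm V))).card := by
  classical
  obtain ⟨Γ, hΓ⟩ : ∃ Γ, Γ = Subgroup.closure (P1 : Set (Equiv.Perm V)) := ⟨_, rfl⟩
  obtain ⟨V2, hV2⟩ : ∃ V2 : Finset V, V2 = univ.filter fun x => (cls Γ x).card = 2 := ⟨_, rfl⟩
  obtain ⟨β, hβ⟩ : ∃ β : V → ℕ, ∀ x, β x =
      ((badP S (P1 : Set (Equiv.Perm V))).filter fun p => p.1 = x).card := ⟨_, fun x => rfl⟩
  rw [← hΓ] at hv2 hz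
  rw [← hV2] at hv2
  have hne : V2.Nonempty := card_pos.1 (by omega)
  obtain ⟨x0, hx0, hmin⟩ := exists_min_image V2 β hne
  have hx2 : (cls Γ x0).card = 2 := by
    rw [hV2, mem_filter] at hx0
    exact hx0.2
  have hsum : β x0 * v2 ≤ (badP S (P1 : Set (Equiv.Perm V))).card := by
    have h3 : (badP S (P1 : Set (Equiv.Perm V))).card = ∑ x ∈ V2, β x := by
      rw [card_eq_sum_card_fiberwise (f := fun p : V × V => p.1) (t := V2)]
      · exact sum_congr rfl fun x _ => (hβ x).symm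
      · intro p hp
        have hp' := mem_coe.1 hp
        unfold badP at hp'
        rw [mem_filter, ← hΓ] at hp'
        rw [mem_coe, hV2, mem_filter]
        exact ⟨mem_univ _, hp'.2.1⟩
    rw [h3, mul_comm, hv2, ← smul_eq_mul, ← sum_const]
    exact sum_le_sum fun x hx => hmin x hx
  obtain ⟨f, hf, hfx⟩ : ∃ f ∈ P1, f x0 ≠ x0 := by
    by_contra hc
    push Not at hc
    have h3 : cls (Subgroup.closure (P1 : Set (Equiv.Perm V))) x0 ⊆ {x0} := by
      refine cls_sub ?_ (mem_singleton_self x0)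
      intro g hg x hx
      rw [mem_singleton] at hx ⊢
      rw [hx]
      exact hc g (mem_coe.1 hg)
    have h4 := card_le_card h3
    rw [← hΓ, hx2, card_singleton] at h4
    omega
  have hfΓ : f ∈ Γ := by
    rw [hΓ]
    exact Subgroup.subset_closure (mem_coe.2 hf)
  refine ⟨f, hf, ?_⟩
  have hcov : (univ.filter fun x => f x = x ∨ f (f x) ≠ x) ⊆
      ((univ.filter fun x => (cls Γ x).card ≠ 2) ∪ cls Γ x0) ∪
        (((badP S (P1 : Set (Equiv.Perm V))).filter fun p => p.1 = x0).image Prod.snd) := by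
    intro y hy
    rw [mem_filter] at hy
    by_contra hc
    rw [mem_union, mem_union, mem_filter, mem_image] at hc
    push Not at hc
    obtain ⟨⟨c1, c2⟩, c3⟩ := hc
    have hy2 : (cls Γ y).card = 2 := c1 (mem_univ _)
    have hcl : cls Γ x0 ≠ cls Γ y := by
      intro h
      apply c2
      rw [h]
      exact self_mem_cls y
    have hnb : (x0, y) ∉ badP S (P1 : Set (Equiv.Perm V)) := by
      intro h
      exact c3 (x0, y) (mem_filter.2 ⟨h, rfl⟩) rfl
    have h5 : 2 ≤ ((S.ND (P1 : Set (Equiv.Perm V))).filter fun q => q.1 ∈ cls Γ x0 ∧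
        q.2 ∈ cls Γ y).card := by
      by_contra h
      apply hnb
      unfold badP
      rw [mem_filter, ← hΓ]
      refine ⟨?_, hx2, hy2, hcl, Nat.le_of_lt_succ (not_le.1 h)⟩
      rw [mem_off]
      intro h'
      apply hcl
      show cls Γ x0 = cls Γ y
      rw [show x0 = y from h']
    have h6 : f x0 = x0 ↔ f y = y := by
      subst hΓ
      exact swap_two S h1 hx2 hy2 hcl h5 hfΓ
    have h7 : f y ≠ y := fun h => hfx (h6.2 h)
    have h8 : f y ∈ cls Γ y := (apply_mem (cls_mem_comps y) hfΓ).2 (self_mem_cls y)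
    have h9 : f (f y) ∈ cls Γ y := (apply_mem (cls_mem_comps y) hfΓ).2 h8
    have h10 : f (f y) = y :=
      bf_two hy2 h9 h8 (self_mem_cls y) (fun h => h7 (f.injective h)) (fun h => h7 h.symm)
    rcases hy.2 with h | h
    · exact h7 h
    · exact h h10
  have h3 := card_le_card hcov
  have h4 := card_union_le ((univ.filter fun x => (cls Γ x).card ≠ 2) ∪ cls Γ x0)
    (((badP S (P1 : Set (Equiv.Perm V))).filter fun p => p.1 = x0).image Prod.snd)
  have h5 := card_union_le (univ.filter fun x => (cls Γ x).card ≠ 2) (cls Γ x0)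
  have h6 : (((badP S (P1 : Set (Equiv.Perm V))).filter fun p => p.1 = x0).image Prod.snd).card ≤
      β x0 := by
    rw [hβ]
    exact card_image_le
  rw [← hz, hx2] at h5
  have h7 : (univ.filter fun x => f x = x ∨ f (f x) ≠ x).card ≤ z + 2 + β x0 := by omega
  calc v2 * (univ.filter fun x => f x = x ∨ f (f x) ≠ x).card ≤ v2 * (z + 2 + β x0) :=
        Nat.mul_le_mul_left _ h7
    _ = (z + 2) * v2 + β x0 * v2 := by ring
    _ ≤ _ := by omega

end Pool.Agent.SYT
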