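import Pool.Agent.SYT.NDT

/-! # SYU-BlkM: components of size different from two -/

set_option autoImplicit false

open Finset

namespace Pool.Agent.SYT

variable {V : Type} [Fintype V] [DecidableEq V]

private theorem bkmAux_sum (Γ : Subgroup (Equiv.Perm V)) (P : ℕ → Prop) [DecidablePred P] :
    (univ.filter fun x => P (cls Γ x).card).card =
      ∑ Y ∈ comps Γ, if P Y.card then Y.card else 0 := by
  rw [card_filter, ← sum_comps (Γ := Γ)]
  refine sum_congr rfl fun Y hY => ?_
  have h1 : ∀ x ∈ Y, (if P (cls Γ x).card then 1 else 0) = if P Y.card then 1 else 0 := by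
    intro x hx
    rw [← eq_cls hY hx]
  rw [sum_congr rfl h1, sum_const, smul_eq_mul]
  split_ifs <;> simp

private theorem bkmAux_pos (Γ : Subgroup (Equiv.Perm V)) {Y : Finset V} (hY : Y ∈ comps Γ) :
    1 ≤ Y.card := by
  obtain ⟨x, hx, -⟩ := exists_rep hY
  exact card_pos.2 ⟨x, hx⟩

private theorem bkmAux_ineq (a b : ℕ) : 3 * (if 3 ≤ a then a else 0) ≤
    9 * (a - b) + b * (if 3 ≤ a then a else 0) := by
  split_ifs with h
  · rcases Nat.lt_or_ge b 3 with hb | hb
    · interval_cases b <;> omega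
    · have := Nat.mul_le_mul_right a hb
      omega
  · simp

theorem mass_three (Γ : Subgroup (Equiv.Perm V)) :
    3 * (comps Γ).card * (univ.filter fun x => 3 ≤ (cls Γ x).card).card ≤
      9 * sd Γ + Fintype.card V * (univ.filter fun x => 3 ≤ (cls Γ x).card).card := by
  have h1 := bkmAux_sum Γ (fun k => 3 ≤ k)
  have e1 : 3 * (comps Γ).card * (univ.filter fun x => 3 ≤ (cls Γ x).card).card =
      ∑ Y ∈ comps Γ, ∑ _Y' ∈ comps Γ, 3 * (if 3 ≤ Y.card then Y.card else 0) := by
    rw [h1]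
    simp only [sum_const, smul_eq_mul]
    rw [mul_sum]
    refine sum_congr rfl fun Y _ => ?_
    ring
  have e2 : Fintype.card V * (univ.filter fun x => 3 ≤ (cls Γ x).card).card =
      ∑ Y ∈ comps Γ, ∑ Y' ∈ comps Γ, Y'.card * (if 3 ≤ Y.card then Y.card else 0) := by
    rw [h1, ← sum_card_comps (Γ := Γ), mul_sum]
    refine sum_congr rfl fun Y _ => ?_
    rw [sum_mul]
  have e3 : 9 * sd Γ = ∑ Y ∈ comps Γ, ∑ Y' ∈ comps Γ, 9 * (Y.card - Y'.card) := by
    unfold sd
    rw [mul_sum]
    refine sum_congr rfl fun Y _ => ?_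
    rw [mul_sum]
  rw [e1, e2, e3, ← sum_add_distrib]
  refine sum_le_sum fun Y _ => ?_
  rw [← sum_add_distrib]
  exact sum_le_sum fun Y' _ => bkmAux_ineq Y.card Y'.card

theorem non_two (Γ : Subgroup (Equiv.Perm V)) :
    (univ.filter fun x => (cls Γ x).card ≠ 2).card + Fintype.card V ≤
      2 * (comps Γ).card + 2 * (univ.filter fun x => 3 ≤ (cls Γ x).card).card := by
  rw [bkmAux_sum Γ (fun k => 3 ≤ k), bkmAux_sum Γ (fun k => k ≠ 2), ← sum_card_comps (Γ := Γ),
    ← sum_add_distrib, mul_sum, card_eq_sum_ones, mul_sum, ← sum_add_distrib]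
  refine sum_le_sum fun Y hY => ?_
  have h := bkmAux_pos Γ hY
  split_ifs <;> omega

end Pool.Agent.SYT
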