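import Pool.Agent.SYT.ND

/-!
# SYU-BlkN: most pairs of 2-blocks have two non-descending pairs

Project SYU (MP_a3a126_co). The number of non-descending pairs is summed over the pairs of components.
-/

set_option autoImplicit false

open Finset

namespace Pool.Agent.SYT

variable {V : Type} [Fintype V] [DecidableEq V] (S : Sys V)

/-- the pairs of states in different 2-blocks with at most one non-descending pair between the blocks -/
noncomputable def badP (P1 : Set (Equiv.Perm V)) : Finset (V × V) :=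
  (off V).filter fun p => (cls (Subgroup.closure P1) p.1).card = 2 ∧
    (cls (Subgroup.closure P1) p.2).card = 2 ∧
    cls (Subgroup.closure P1) p.1 ≠ cls (Subgroup.closure P1) p.2 ∧
    ((S.ND P1).filter fun q => q.1 ∈ cls (Subgroup.closure P1) p.1 ∧
      q.2 ∈ cls (Subgroup.closure P1) p.2).card ≤ 1

private theorem bk_bad {P1 : Set (Equiv.Perm V)} {Y Y' : Finset V} (hY : Y ∈ comps (Subgroup.closure P1))
    (hY' : Y' ∈ comps (Subgroup.closure P1)) :
    ((badP S P1).filter fun p => p.1 ∈ Y ∧ p.2 ∈ Y').card ≤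
      if Y ≠ Y' ∧ Y.card = 2 ∧ Y'.card = 2 ∧ ((S.ND P1).filter fun q => q.1 ∈ Y ∧ q.2 ∈ Y').card ≤ 1 then 4 else 0 := by
  split_ifs with h
  · have h1 : ((badP S P1).filter fun p => p.1 ∈ Y ∧ p.2 ∈ Y') ⊆ Y ×ˢ Y' := by
      intro p hp
      exact mem_product.2 (mem_filter.1 hp).2
    have h2 := card_le_card h1
    rw [card_product, h.2.1, h.2.2.1] at h2
    exact h2
  · rw [Nat.le_zero, card_eq_zero, filter_eq_empty_iff]
    rintro p hp ⟨h1, h2⟩
    have h3 := (mem_filter.1 hp).2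
    rw [← eq_cls hY h1, ← eq_cls hY' h2] at h3
    exact h ⟨h3.2.2.1, h3.1, h3.2.1, h3.2.2.2⟩

private theorem bk_pair {P1 : Set (Equiv.Perm V)} (h1 : P1 ⊆ S.P) {Y Y' : Finset V}
    (hY : Y ∈ comps (Subgroup.closure P1)) (hY' : Y' ∈ comps (Subgroup.closure P1)) :
    4 * ((S.ND P1).filter fun p => p.1 ∈ Y ∧ p.2 ∈ Y').card +
      ((badP S P1).filter fun p => p.1 ∈ Y ∧ p.2 ∈ Y').card ≤
      (if Y = Y' then 8 * Y.card else 0) + (if Y.card = 2 then (if Y'.card = 2 then 8 else 0) else 0) +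
        (if Y.card ≠ 2 then 4 * Y'.card else 0) + (if Y'.card ≠ 2 then 4 * Y.card else 0) := by
  have hb := bk_bad S hY hY'
  by_cases h2 : Y = Y'
  · rw [if_neg fun h => h.1 h2] at hb
    rw [if_pos h2]
    have h3 := nd_in S h1 hY
    rw [← h2] at hb ⊢
    omega
  · obtain ⟨h3, h4⟩ := nd_cross S h1 hY hY' h2
    by_cases h5 : Y.card = 2
    · by_cases h6 : Y'.card = 2
      · rw [if_pos h5, if_pos h6]
        by_cases h7 : ((S.ND P1).filter fun q => q.1 ∈ Y ∧ q.2 ∈ Y').card ≤ 1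
        · rw [if_pos ⟨h2, h5, h6, h7⟩] at hb
          omega
        · rw [if_neg fun h => h7 h.2.2.2] at hb
          omega
      · rw [if_neg fun h => h6 h.2.2.1] at hb
        rw [if_pos h6]
        omega
    · rw [if_neg fun h => h5 h.2.1] at hb
      rw [if_pos (c := Y.card ≠ 2) h5]
      omega

theorem nd_two {P1 : Set (Equiv.Perm V)} (h1 : P1 ⊆ S.P) :
    4 * (S.ND P1).card + (badP S P1).card ≤ 2 * Fintype.card V ^ 2 + 8 * Fintype.card V +
      8 * (univ.filter fun x => (cls (Subgroup.closure P1) x).card ≠ 2).card *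
        Fintype.card V := by
  obtain ⟨Γ, hΓ⟩ : ∃ Γ, Γ = Subgroup.closure P1 := ⟨_, rfl⟩
  have hn : ∑ Y ∈ comps Γ, Y.card = Fintype.card V := sum_card_comps
  have hc : 4 * (S.ND P1).card + (badP S P1).card = ∑ Y ∈ comps Γ, ∑ Y' ∈ comps Γ,
      (4 * ((S.ND P1).filter fun p => p.1 ∈ Y ∧ p.2 ∈ Y').card +
        ((badP S P1).filter fun p => p.1 ∈ Y ∧ p.2 ∈ Y').card) := by
    rw [card_pairs (Γ := Γ) (S.ND P1), card_pairs (Γ := Γ) (badP S P1), mul_sum, ← sum_add_distrib]
    refine sum_congr rfl fun Y _ => ?_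
    rw [mul_sum, ← sum_add_distrib]
  have hz : ((comps Γ).filter fun Y => Y.card ≠ 2).card ≤ (univ.filter fun x => (cls Γ x).card ≠ 2).card := by
    have h2 : ((comps Γ).filter fun Y => Y.card ≠ 2) ⊆ (univ.filter fun x => (cls Γ x).card ≠ 2).image (cls Γ) := by
      intro Y hY
      obtain ⟨h3, h4⟩ := mem_filter.1 hY
      obtain ⟨x, -, rfl⟩ := exists_rep h3
      exact mem_image_of_mem _ (mem_filter.2 ⟨mem_univ _, h4⟩)
    exact (card_le_card h2).trans card_image_le
  have h2c : 2 * ((comps Γ).filter fun Y => Y.card = 2).card ≤ Fintype.card V := by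
    rw [← hn, mul_comm, ← smul_eq_mul, ← sum_const]
    refine (sum_congr rfl fun Y hY => ?_).trans_le (sum_le_sum_of_subset (filter_subset _ _))
    exact (mem_filter.1 hY).2.symm
  rw [← hΓ, hc]
  have s1 : ∑ Y ∈ comps Γ, ∑ Y' ∈ comps Γ, (if Y = Y' then 8 * Y.card else 0) = 8 * Fintype.card V := by
    rw [← hn, mul_sum]
    refine sum_congr rfl fun Y hY => ?_
    rw [sum_ite_eq, if_pos hY]
  have s2 : ∑ Y ∈ comps Γ, ∑ Y' ∈ comps Γ, (if Y.card = 2 then (if Y'.card = 2 then 8 else 0) else 0) ≤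
      2 * Fintype.card V ^ 2 := by
    have h3 : ∀ Y : Finset V, ∑ Y' ∈ comps Γ, (if Y.card = 2 then (if Y'.card = 2 then 8 else 0) else 0) =
        if Y.card = 2 then ((comps Γ).filter fun Y => Y.card = 2).card * 8 else 0 := by
      intro Y
      split_ifs with h
      · rw [← sum_filter, sum_const, smul_eq_mul]
      · exact sum_const_zero
    rw [sum_congr rfl fun Y _ => h3 Y, ← sum_filter, sum_const, smul_eq_mul]
    have h4 := Nat.mul_le_mul h2c h2c
    rw [pow_two]
    linarith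
  have s3 : ∑ Y ∈ comps Γ, ∑ Y' ∈ comps Γ, (if Y.card ≠ 2 then 4 * Y'.card else 0) ≤
      4 * (univ.filter fun x => (cls Γ x).card ≠ 2).card * Fintype.card V := by
    have h3 : ∀ Y : Finset V, ∑ Y' ∈ comps Γ, (if Y.card ≠ 2 then 4 * Y'.card else 0) =
        if Y.card ≠ 2 then 4 * Fintype.card V else 0 := by
      intro Y
      by_cases h : Y.card ≠ 2
      · simp_rw [if_pos h]
        rw [← mul_sum, hn]
      · simp_rw [if_neg h]
        exact sum_const_zero
    rw [sum_congr rfl fun Y _ => h3 Y, ← sum_filter, sum_const, smul_eq_mul]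
    have h4 := Nat.mul_le_mul_right (4 * Fintype.card V) hz
    linarith
  have s4 : ∑ Y ∈ comps Γ, ∑ Y' ∈ comps Γ, (if Y'.card ≠ 2 then 4 * Y.card else 0) ≤
      4 * (univ.filter fun x => (cls Γ x).card ≠ 2).card * Fintype.card V := by
    rw [sum_comm]
    exact s3
  refine (sum_le_sum fun Y hY => sum_le_sum fun Y' hY' => bk_pair S h1 (hΓ ▸ hY) (hΓ ▸ hY')).trans ?_
  simp only [sum_add_distrib]
  rw [s1]
  have h5 : 8 * (univ.filter fun x => (cls Γ x).card ≠ 2).card * Fintype.card V =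
      4 * (univ.filter fun x => (cls Γ x).card ≠ 2).card * Fintype.card V +
        4 * (univ.filter fun x => (cls Γ x).card ≠ 2).card * Fintype.card V := by ring
  rw [h5]
  linarith

end Pool.Agent.SYT
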