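import Pool.Agent.SYU.DescU

/-!
# SYU-Classify: a near involution is near the identity, near `f` or near `g`

Project SYU (MP_a3a126_co), paper proof in /team-store/a3a126b_87.md, section D5 (classification).
-/

set_option autoImplicit false

open Finset

namespace Pool.Agent.SYT

variable {V : Type} [Fintype V] [DecidableEq V] (S : Sys V)

theorem classify {f g h : Equiv.Perm V} (hf : f ∈ S.P) (hg : g ∈ S.P) (hh : h ∈ S.P) {n ψ : ℕ}
    (hn : n = Fintype.card V) (hψf : (univ.filter fun x => f (f x) ≠ x).card ≤ ψ)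
    (hψg : (univ.filter fun x => g (g x) ≠ x).card ≤ ψ)
    (hψh : (univ.filter fun x => h (h x) ≠ x).card ≤ ψ) :
    n ^ 2 ≤ (univ.filter fun x => h x = x).card ^ 2 + (univ.filter fun x => f x = h x).card ^ 2 +
      (univ.filter fun x => g x = h x).card ^ 2 + (univ.filter fun x => f x = x).card ^ 2 +
      (univ.filter fun x => g x = x).card ^ 2 + (univ.filter fun x => f x = g x).card ^ 2 +
      16 * n + 36 * S.d + 36 * ψ * n := by
  have e1 := desc_lower S hh
  have e2 := desc_lower S hf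
  have e3 := desc_lower S hg
  have e4 := both_upper S hf hh
  have e5 := both_upper S hg hh
  have e6 := both_upper S hf hg
  rw [← hn] at e1 e2 e3 e4 e5 e6
  -- the pairs descended by `h`
  have e7 : (S.Dn h).card ≤ (off V \ (S.Dn f ∪ S.Dn g)).card + (S.Dn f ∩ S.Dn h).card +
      (S.Dn g ∩ S.Dn h).card := by
    refine (card_le_card (t := (off V \ (S.Dn f ∪ S.Dn g)) ∪ (S.Dn f ∩ S.Dn h) ∪
      (S.Dn g ∩ S.Dn h)) ?_).trans ((card_union_le _ _).trans
        (Nat.add_le_add_right (card_union_le _ _) _))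
    intro p hp
    have hp0 : p ∈ off V := (mem_filter.1 hp).1
    simp only [mem_union, mem_sdiff, mem_inter]
    tauto
  have hsub : S.Dn f ∪ S.Dn g ⊆ off V := by
    intro p hp
    rcases mem_union.1 hp with h | h
    · exact (mem_filter.1 h).1
    · exact (mem_filter.1 h).1
  have e8 := card_sdiff_add_card_eq_card hsub
  have e9 := card_union_add_card_inter (S.Dn f) (S.Dn g)
  have e10 : (off V).card = n * (n - 1) := by rw [hn]; exact card_off
  have e11 : n * (n - 1) + n = n ^ 2 := by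
    rcases n with _ | n
    · rfl
    · rw [Nat.add_sub_cancel]; ring
  have m1 : 4 * (univ.filter fun x => f (f x) ≠ x).card * n ≤ 4 * ψ * n :=
    Nat.mul_le_mul_right _ (Nat.mul_le_mul_left _ hψf)
  have m2 : 4 * (univ.filter fun x => g (g x) ≠ x).card * n ≤ 4 * ψ * n :=
    Nat.mul_le_mul_right _ (Nat.mul_le_mul_left _ hψg)
  have m3 : 4 * (univ.filter fun x => h (h x) ≠ x).card * n ≤ 4 * ψ * n :=
    Nat.mul_le_mul_right _ (Nat.mul_le_mul_left _ hψh)
  have m4 : 4 * ((univ.filter fun x => f (f x) ≠ x).card +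
      (univ.filter fun x => h (h x) ≠ x).card) * n ≤ 4 * (ψ + ψ) * n :=
    Nat.mul_le_mul_right _ (Nat.mul_le_mul_left _ (Nat.add_le_add hψf hψh))
  have m5 : 4 * ((univ.filter fun x => g (g x) ≠ x).card +
      (univ.filter fun x => h (h x) ≠ x).card) * n ≤ 4 * (ψ + ψ) * n :=
    Nat.mul_le_mul_right _ (Nat.mul_le_mul_left _ (Nat.add_le_add hψg hψh))
  have m6 : 4 * ((univ.filter fun x => f (f x) ≠ x).card +
      (univ.filter fun x => g (g x) ≠ x).card) * n ≤ 4 * (ψ + ψ) * n :=
    Nat.mul_le_mul_right _ (Nat.mul_le_mul_left _ (Nat.add_le_add hψf hψg))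
  have q1 : 4 * (ψ + ψ) * n = 8 * (ψ * n) := by ring
  have q2 : 4 * ψ * n = 4 * (ψ * n) := by ring
  have q3 : 36 * ψ * n = 36 * (ψ * n) := by ring
  rw [q1] at m4 m5 m6
  rw [q2] at m1 m2 m3
  rw [q3]
  generalize ψ * n = t at *
  omega

end Pool.Agent.SYT
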