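import Pool.Agent.SYU.Cover

/-!
# SYU-Exact: the defect set is empty

Project SYU (MP_a3a126_co), paper proof in /team-store/a3a126b_87.md, section D4.
-/

set_option autoImplicit false

open Finset

namespace Pool.Agent.SYT

variable {V : Type} [Fintype V] [DecidableEq V] (S : Sys V)

private theorem exact_num {n K T E X F d : ℕ} (hK : 1 ≤ K) (hT1 : 100 * K * T ≤ n)
    (hT2 : n < 100 * K * (T + 1)) (hE1 : 1 ≤ E) (hE : 2000000 * K ^ 2 * E ≤ n)
    (hd : 300000 * K ^ 2 * d ≤ n ^ 2) (hX : T ≤ 6 * X) (hF : 90 * T ≤ F)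
    (hc : X * F ≤ 81 * d + 49 * E * n) : False := by
  have hK0 : 0 < K := hK
  -- E is small
  have h1 : 20000 * K * E < T + 1 := by
    have h2 : 100 * K * (20000 * K * E) < 100 * K * (T + 1) := by
      calc 100 * K * (20000 * K * E) = 2000000 * K ^ 2 * E := by ring
        _ ≤ n := hE
        _ < _ := hT2
    exact lt_of_mul_lt_mul_left h2 (Nat.zero_le _)
  have h3 : 20000 ≤ T := by nlinarith
  have h4 : 200 * (E * n) ≤ (T + 1) ^ 2 := by
    have h5 : E * n ≤ E * (100 * K * (T + 1)) := Nat.mul_le_mul_left _ hT2.le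
    have h6 : 200 * (E * (100 * K * (T + 1))) = (20000 * K * E) * (T + 1) := by ring
    have h7 : (20000 * K * E) * (T + 1) ≤ (T + 1) * (T + 1) := Nat.mul_le_mul_right _ h1.le
    nlinarith
  have h8 : 30 * d ≤ (T + 1) ^ 2 := by
    have h9 : 10000 * K ^ 2 * (30 * d) ≤ 10000 * K ^ 2 * (T + 1) ^ 2 := by
      calc 10000 * K ^ 2 * (30 * d) = 300000 * K ^ 2 * d := by ring
        _ ≤ n ^ 2 := hd
        _ ≤ (100 * K * (T + 1)) ^ 2 := Nat.pow_le_pow_left hT2.le 2
        _ = 10000 * K ^ 2 * (T + 1) ^ 2 := by ring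
    exact Nat.le_of_mul_le_mul_left h9 (by positivity)
  have h10 : T * (90 * T) ≤ 6 * (X * F) := by
    calc T * (90 * T) ≤ (6 * X) * F := Nat.mul_le_mul hX hF
      _ = 6 * (X * F) := by ring
  nlinarith

open Classical in
theorem exact {f g : Equiv.Perm V} (hf : f ∈ S.P) (hg : g ∈ S.P) {K : ℕ} (hK1 : 1 ≤ K)
    (hK : ∀ x, Fintype.card V ≤
      K * (cls (Subgroup.closure ({f, g} : Set (Equiv.Perm V))) x).card)
    {𝒰 : Finset (Equiv.Perm V)}
    (h𝒰 : 𝒰.card ≤ 3) (hw : ∀ u ∈ 𝒰, ∀ x v, S.w x v ≤ S.w (u x) (u v) + 2) {E : Finset V}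
    (hfix : ∀ u ∈ 𝒰, ∀ v, v ∉ E → u v = v) (hE1 : ∀ x, x ∉ E → f (f x) = x ∧ g (g x) = x)
    (hE2 : ∀ y ∈ E, ∃ u ∈ 𝒰, u y ≠ y) (hEs : 2000000 * K ^ 2 * E.card ≤ Fintype.card V)
    (hd : 300000 * K ^ 2 * S.d ≤ Fintype.card V ^ 2) : E = ∅ := by
  by_contra hne0
  have hne : E.Nonempty := nonempty_iff_ne_empty.2 hne0
  have hE0 : 1 ≤ E.card := card_pos.2 hne
  obtain ⟨n, hn⟩ : ∃ n, n = Fintype.card V := ⟨_, rfl⟩
  rw [← hn] at hEs hd
  have hK0 : 0 < 100 * K := by omega
  obtain ⟨T, hT⟩ : ∃ T, T = n / (100 * K) := ⟨_, rfl⟩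
  have hT1 : 100 * K * T ≤ n := by rw [hT]; exact Nat.mul_div_le _ _
  have hT2 : n < 100 * K * (T + 1) := by
    rw [hT]
    exact Nat.lt_mul_div_succ n hK0
  have h1 : 20000 * K * E.card < T + 1 := by
    have h2 : 100 * K * (20000 * K * E.card) < 100 * K * (T + 1) := by
      calc 100 * K * (20000 * K * E.card) = 2000000 * K ^ 2 * E.card := by ring
        _ ≤ n := hEs
        _ < _ := hT2
    exact lt_of_mul_lt_mul_left h2 (Nat.zero_le _)
  have hET : 20000 * E.card ≤ T := by nlinarith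
  have hT0 : 20000 ≤ T := by omega
  have hN : ∀ x, 100 * T ≤ (cls (Subgroup.closure ({f, g} : Set (Equiv.Perm V))) x).card := by
    intro x
    have h2 := hK x
    rw [← hn] at h2
    have h3 : K * (100 * T) ≤ K * (cls (Subgroup.closure ({f, g} : Set (Equiv.Perm V))) x).card := by
      calc K * (100 * T) = 100 * K * T := by ring
        _ ≤ n := hT1
        _ ≤ _ := h2
    exact Nat.le_of_mul_le_mul_left h3 hK1
  -- the radius
  have hex : ∃ j, T < (Nb f g E j).card := by
    by_contra hcon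
    push Not at hcon
    have h3 : ∀ j, j ≤ (Nb f g E j).card := by
      intro j
      induction j with
      | zero => exact Nat.zero_le _
      | succ j ih =>
        have := nb_grow hne hN (lt_of_le_of_lt (hcon j) (by omega))
        omega
    have h4 := h3 (T + 1)
    have h5 := hcon (T + 1)
    omega
  obtain ⟨b, hb1, hb2⟩ : ∃ b, (Nb f g E b).card ≤ T ∧ T < (Nb f g E (b + 1)).card := by
    have h3 := Nat.find_spec hex
    have h4 : Nat.find hex ≠ 0 := by
      intro h0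
      rw [h0] at h3
      have : (Nb f g E 0).card = E.card := rfl
      omega
    obtain ⟨b, hb⟩ : ∃ b, Nat.find hex = b + 1 := ⟨Nat.find hex - 1, by omega⟩
    refine ⟨b, ?_, by rw [← hb]; exact h3⟩
    have := Nat.find_min hex (m := b) (by omega)
    omega
  have hlin := nb_linear hE1 (b + 1)
  have hb256 : 256 ≤ b := by
    by_contra hcon
    push Not at hcon
    have h3 : (2 * (b + 1) + 1) * E.card ≤ 600 * E.card := Nat.mul_le_mul_right _ (by omega)
    omega
  -- the size of X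
  have hsub : E ⊆ Nb f g E (b / 4) := Nb_mono (i := 0) (Nat.zero_le _)
  have hsub1 : E ⊆ Nb f g E (b + 1) := Nb_mono (i := 0) (Nat.zero_le _)
  have hsubb : E ⊆ Nb f g E b := Nb_mono (i := 0) (Nat.zero_le _)
  have hX1 : (Nb f g E (b + 1) \ E).card ≤ 5 * (Nb f g E (b / 4) \ E).card := by
    refine le_trans (card_le_card (sdiff_subset_sdiff (Nb_mono (j := 5 * (b / 4)) (by omega))
      (subset_refl E))) (nb_conc hE1 5 (b / 4))
  have hX2 := card_sdiff_add_card_eq_card hsub1
  have hX : T ≤ 6 * (Nb f g E (b / 4) \ E).card := by omega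
  -- the size of F
  have hF1 := free_many hE1 hne hN (5 * b)
  have hF2 : (Nb f g E (2 * (5 * b))).card ≤ 10 * T := by
    have h3 : (Nb f g E (10 * b) \ E).card ≤ 10 * (Nb f g E b \ E).card := nb_conc hE1 10 b
    have h4 := card_sdiff_add_card_eq_card (Nb_mono (f := f) (g := g) (E := E) (i := 0)
      (j := 10 * b) (Nat.zero_le _))
    have h5 := card_sdiff_add_card_eq_card hsubb
    have h6 : 2 * (5 * b) = 10 * b := by ring
    have h7 : (Nb f g E 0) = E := rfl
    rw [h7] at h4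
    rw [h6]
    omega
  have hF : 90 * T ≤ (univ.filter fun v => Free f g E (5 * b) v).card := by omega
  have hc := cover S hf hg h𝒰 hw hfix hE1 hE2 hb256
  rw [← hn] at hc
  exact exact_num hK1 hT1 hT2 hE0 hEs hd hX hF hc

end Pool.Agent.SYT
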