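import Pool.Agent.SYT.NDT
import Pool.Agent.SYT.CycB

/-!
# SYU-NoCyc: two fixed-point-free involutions do not generate a transitive group

Project SYU (MP_a3a126_co), paper proof in /team-store/a3a126b_87.md, section D6.

`Γ = closure {f, g}`, `ρ = g * f` (`f` first), `a = |cyc ρ x|`.
* Every `γ ∈ Γ` is `ρ^k` or `f ρ^k` (`k : ℤ`, closure induction; `f ρ f = ρ⁻¹`). `f ρ^k` has no fixed point: for `k = 2j` it is
  `ρ^(-j) f ρ^j`, for `k = 2j+1` it is `ρ^(-j) (f g f) ρ^j`; `f g f z = z` gives `g (f z) = f z`.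
  By transitivity every state is in `cyc ρ x` or in `f (cyc ρ x)`: `n ≤ 2 a`.
* Let `y = ρ^i x`, `0 < i < a`, `2 i ≠ a`, `p = (x, y)`, `O = {mv γ p : γ ∈ Γ}`. Then `p.swap ∉ O`: `γ x = y`, `γ y = x`. If `γ = ρ^k`, `ρ^(2i) x = x`, so
  `a | 2i`, `2i = a`. If `γ = f ρ^k`: `f ρ^k x = ρ^i x` gives `f ρ^(k+i) x = x`, excluded.
* Parity: suppose `p ∉ Coll` and `w (f p) < w p < w (g p)`. `U = {q ∈ O : w p < w q}`. `f` maps `U` into `U`: `w (f q) ≥ w q - 1 ≥ w p`, and
  equality would give `f q ∈ {p, p.swap}` (`single`), `f q = p`, `q = f p`, `w q < w p`. `f` is an involution without fixed pairs, so `|U|` is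
  even. In the same way `g` maps `U \ {g p}` into itself (`g q = p` only for `q = g p ∈ U`), so `|U| - 1` is even. Contradiction. The same
  with `f` and `g` exchanged.
* So every such `p = (x, y)` (at least `a - 2 ≥ n/2 - 2` values of `y` for each `x`) is in `Coll` (`≤ 3 d`), or in `Pre` (`≤ 3 d`), or in
  `ND {f, g}` (`≤ 2 n` by `nd_total`, one component), or `y ∈ {f x, g x, f (g x)}` (`≤ 3 n`): if `p ∉ Coll` then `w (f p) = w p` implies `f p = p.swap`,
  `y = f x`; the same for `g`; if both `f` and `g` descend `p ∉ Pre`, `g p = f p` (then `g x = f x =: z`, `{x, z}` is closed, `n ≤ 2`) or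
  `g p = (f p).swap`, `f y = g x`; if both ascend, `p ∈ ND {f, g}`; one up one down: excluded above.
  Total: `n (n/2 - 2) ≤ 6 d + 5 n`.
-/

set_option autoImplicit false

open Finset

namespace Pool.Agent.SYT

variable {V : Type} [Fintype V] [DecidableEq V] (S : Sys V)

/-- a finite set with an involution without fixed points has an even number of elements -/
private theorem nc_even {α : Type} [DecidableEq α] (U : Finset α) (h : α → α) (h1 : ∀ q ∈ U, h q ∈ U)
    (h2 : ∀ q, h (h q) = q) (h3 : ∀ q, h q ≠ q) : Even U.card := by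
  have h4 : ∑ _x ∈ U, (1 : ZMod 2) = 0 :=
    Finset.sum_involution (fun q _ => h q) (fun _ _ => by decide) (fun q _ _ => h3 q) h1
      (fun q _ => h2 q)
  rw [sum_const, nsmul_eq_mul, mul_one] at h4
  exact (ZMod.natCast_eq_zero_iff_even).1 h4

omit [Fintype V] [DecidableEq V] in
private theorem nc_mv2 {f : Equiv.Perm V} (hff : ∀ x, f (f x) = x) (q : V × V) : mv f (mv f q) = q := by
  simp [mv, hff]

omit [Fintype V] [DecidableEq V] in
private theorem nc_mv0 {f : Equiv.Perm V} (hf0 : ∀ x, f x ≠ x) (q : V × V) : mv f q ≠ q := fun h =>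
  hf0 q.1 (congrArg Prod.fst h)

/-- a pair cannot be descending for one involution and ascending for the other one -/
private theorem nc_parity {f g : Equiv.Perm V} (hf : f ∈ S.P) (hg : g ∈ S.P) (hff : ∀ x, f (f x) = x)
    (hgg : ∀ x, g (g x) = x) (hf0 : ∀ x, f x ≠ x) (hg0 : ∀ x, g x ≠ x) {p : V × V} (hp : p.1 ≠ p.2)
    (hc : p ∉ S.Coll) {O : Finset (V × V)} (hOf : ∀ q ∈ O, mv f q ∈ O) (hOg : ∀ q ∈ O, mv g q ∈ O)
    (hO : ∀ q ∈ O, q.1 ≠ q.2) (hpO : p ∈ O) (hps : p.swap ∉ O)
    (h1 : S.wt (mv f p) < S.wt p) (h2 : S.wt p < S.wt (mv g p)) : False := by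
  have key : ∀ q ∈ O, S.wt q = S.wt p → q = p := by
    intro q hq hw
    rcases single S hp hc (hO q hq) hw with h | h
    · exact h
    · rw [h] at hq
      exact absurd hq hps
  have e1 : Even (O.filter fun q => S.wt p < S.wt q).card := by
    refine nc_even _ (mv f) ?_ (nc_mv2 hff) (nc_mv0 hf0)
    intro q hq
    rw [mem_filter] at hq ⊢
    refine ⟨hOf q hq.1, ?_⟩
    have h3 := wt_step S hf q
    rcases Nat.lt_or_ge (S.wt p) (S.wt (mv f q)) with h | h
    · exact h
    · exfalso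
      have h4 := key _ (hOf q hq.1) (by omega)
      have h5 : q = mv f p := by rw [← h4, nc_mv2 hff]
      have h6 := hq.2
      rw [h5] at h6
      omega
  have e2 : Even ((O.filter fun q => S.wt p < S.wt q).erase (mv g p)).card := by
    refine nc_even _ (mv g) ?_ (nc_mv2 hgg) (nc_mv0 hg0)
    intro q hq
    rw [mem_erase, mem_filter] at hq ⊢
    have h3 := wt_step S hg q
    have h7 : q ≠ p := by
      rintro rfl
      exact lt_irrefl _ hq.2.2
    refine ⟨fun h => h7 (mv_injective g h), hOg q hq.2.1, ?_⟩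
    rcases Nat.lt_or_ge (S.wt p) (S.wt (mv g q)) with h | h
    · exact h
    · exfalso
      have h4 := key _ (hOg q hq.2.1) (by omega)
      exact hq.1 (by rw [← h4, nc_mv2 hgg])
  have h8 : mv g p ∈ O.filter fun q => S.wt p < S.wt q := mem_filter.2 ⟨hOg p hpO, h2⟩
  have h9 := card_erase_add_one h8
  rw [← h9] at e1
  exact (Nat.even_add_one.1 e1) e2

section Group

variable {f g : Equiv.Perm V} (hff : ∀ x, f (f x) = x) (hgg : ∀ x, g (g x) = x)

include hff hgg

omit [Fintype V] [DecidableEq V] in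
private theorem nc_conj (k : ℤ) : (g * f) ^ k * f = f * (g * f) ^ (-k) := by
  have h1 : f * f = 1 := Equiv.ext hff
  have h2 : g * g = 1 := Equiv.ext hgg
  have h3 : f * (g * f)⁻¹ = (g * f) * f := by
    rw [mul_inv_rev, mul_assoc g, h1, mul_one, mul_inv_cancel_left]
    exact inv_eq_of_mul_eq_one_left h2
  have h4 : SemiconjBy f ((g * f)⁻¹) (g * f) := h3
  have h5 := h4.zpow_right k
  rw [inv_zpow'] at h5
  exact h5.symm

private theorem nc_form {γ : Equiv.Perm V} (hγ : γ ∈ Subgroup.closure ({f, g} : Set (Equiv.Perm V))) :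
    ∃ k : ℤ, γ = (g * f) ^ k ∨ γ = f * (g * f) ^ k := by
  have h1 : f * f = 1 := Equiv.ext hff
  have h2 : g * g = 1 := Equiv.ext hgg
  induction hγ using Subgroup.closure_induction with
  | mem x hx =>
    rcases hx with rfl | hx
    · exact ⟨0, Or.inr (by simp)⟩
    · rw [Set.mem_singleton_iff] at hx
      subst hx
      refine ⟨-1, Or.inr ?_⟩
      rw [← nc_conj hff hgg, zpow_one, mul_assoc, h1, mul_one]
  | one => exact ⟨0, Or.inl (by simp)⟩
  | mul x y _ _ hx hy =>
    obtain ⟨k, hk⟩ := hx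
    obtain ⟨l, hl⟩ := hy
    rcases hk with rfl | rfl <;> rcases hl with rfl | rfl
    · exact ⟨k + l, Or.inl (zpow_add _ _ _).symm⟩
    · refine ⟨-k + l, Or.inr ?_⟩
      rw [← mul_assoc, nc_conj hff hgg, mul_assoc, zpow_add]
    · exact ⟨k + l, Or.inr (by rw [mul_assoc, zpow_add])⟩
    · refine ⟨-k + l, Or.inl ?_⟩
      rw [mul_assoc, ← mul_assoc (_ ^ k), nc_conj hff hgg, mul_assoc, ← mul_assoc, h1, one_mul, zpow_add]
  | inv x _ hx =>
    obtain ⟨k, hk⟩ := hx
    rcases hk with rfl | rfl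
    · exact ⟨-k, Or.inl (zpow_neg _ _).symm⟩
    · refine ⟨k, Or.inr ?_⟩
      have h3 : f⁻¹ = f := inv_eq_of_mul_eq_one_left h1
      rw [mul_inv_rev, h3, ← zpow_neg, nc_conj hff hgg, neg_neg]

private theorem nc_nofix (hf0 : ∀ x, f x ≠ x) (hg0 : ∀ x, g x ≠ x) (k : ℤ) (z : V) :
    (f * (g * f) ^ k) z ≠ z := by
  intro h
  obtain ⟨j, hj | hj⟩ := Int.even_or_odd' k
  · have h3 : f * (g * f) ^ k = (g * f) ^ (-j) * (f * (g * f) ^ j) := by
      rw [← mul_assoc, nc_conj hff hgg, neg_neg, mul_assoc, ← zpow_add, hj, two_mul]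
    rw [h3, zpow_neg, Equiv.Perm.mul_apply, Equiv.Perm.inv_eq_iff_eq, Equiv.Perm.mul_apply] at h
    exact hf0 _ h
  · have h3 : f * (g * f) ^ k = (g * f) ^ (-j) * (f * (g * f) * (g * f) ^ j) := by
      rw [← mul_assoc, ← mul_assoc, nc_conj hff hgg, neg_neg, mul_assoc, mul_assoc, ← zpow_one_add, ← zpow_add, hj]
      congr 2
      ring
    rw [h3, zpow_neg, Equiv.Perm.mul_apply, Equiv.Perm.inv_eq_iff_eq, Equiv.Perm.mul_apply] at h
    have h4 := congrArg f h
    simp only [Equiv.Perm.mul_apply, hff] at h4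
    exact hg0 _ h4

end Group

theorem no_cyc {f g : Equiv.Perm V} (hf : f ∈ S.P) (hg : g ∈ S.P) (hff : ∀ x, f (f x) = x)
    (hgg : ∀ x, g (g x) = x) (hf0 : ∀ x, f x ≠ x) (hg0 : ∀ x, g x ≠ x)
    (htr : ∀ x y, y ∈ cls (Subgroup.closure ({f, g} : Set (Equiv.Perm V))) x)
    (hn : 3 ≤ Fintype.card V) : Fintype.card V ^ 2 ≤ 12 * S.d + 14 * Fintype.card V := by
  classical
  obtain ⟨ρ, hρ⟩ : ∃ ρ, ρ = g * f := ⟨_, rfl⟩
  have hP1 : ({f, g} : Set (Equiv.Perm V)) ⊆ S.P := by
    rintro h (rfl | hh)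
    · exact hf
    · rw [Set.mem_singleton_iff.1 hh]
      exact hg
  have hfm : f ∈ Subgroup.closure ({f, g} : Set (Equiv.Perm V)) := Subgroup.subset_closure (by simp)
  have hgm : g ∈ Subgroup.closure ({f, g} : Set (Equiv.Perm V)) := Subgroup.subset_closure (by simp)
  -- the cycles of `ρ` contain half of the states
  have hhalf : ∀ x, Fintype.card V ≤ 2 * (cyc ρ x).card := by
    intro x
    have h1 : (univ : Finset V) ⊆ cyc ρ x ∪ (cyc ρ x).image f := by
      intro y _
      obtain ⟨γ, hγ, hy⟩ := mem_cls.1 (htr x y)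
      have h2 : ∀ k : ℤ, (ρ ^ k) x ∈ cyc ρ x := fun k =>
        mem_cls.2 ⟨ρ ^ k, zpow_mem (Subgroup.subset_closure (Set.mem_singleton ρ)) k, rfl⟩
      obtain ⟨k, hk | hk⟩ := nc_form hff hgg hγ
      · rw [← hy, hk, ← hρ]
        exact mem_union_left _ (h2 k)
      · rw [← hy, hk, ← hρ, Equiv.Perm.mul_apply]
        exact mem_union_right _ (mem_image_of_mem f (h2 k))
    have h3 := card_le_card h1
    rw [card_univ] at h3
    have h4 := card_union_le (cyc ρ x) ((cyc ρ x).image f)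
    have h5 : ((cyc ρ x).image f).card ≤ (cyc ρ x).card := card_image_le
    omega
  -- pairs on a cycle
  have hnsw : ∀ (x : V) (i : ℕ), 0 < i → i < (cyc ρ x).card → 2 * i ≠ (cyc ρ x).card →
      ∀ γ ∈ Subgroup.closure ({f, g} : Set (Equiv.Perm V)), mv γ (x, (ρ ^ i) x) ≠ ((ρ ^ i) x, x) := by
    intro x i hi hi1 hi2 γ hγ h
    have e1 : γ x = (ρ ^ i) x := congrArg Prod.fst h
    have e2 : γ ((ρ ^ i) x) = x := congrArg Prod.snd h
    obtain ⟨k, hk | hk⟩ := nc_form hff hgg hγ
    · rw [hk, ← hρ] at e1 e2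
      have e3 : (ρ ^ (2 * i)) x = x := by
        have e4 : (ρ ^ i) ((ρ ^ k) x) = x := by
          rw [← Equiv.Perm.mul_apply, ← zpow_natCast, ← zpow_add, add_comm, zpow_add,
            Equiv.Perm.mul_apply, zpow_natCast]
          exact e2
        rw [e1, ← Equiv.Perm.mul_apply, ← pow_add, ← two_mul] at e4
        exact e4
      rcases Nat.lt_or_ge (2 * i) (cyc ρ x).card with h5 | h5
      · have h6 := pow_inj ρ h5 (cyc_pos ρ x) (by rw [e3, pow_zero, Equiv.Perm.one_apply])
        omega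
      · have h7 : (ρ ^ (2 * i - (cyc ρ x).card)) x = x := by
          have h8 : ρ ^ (2 * i) = ρ ^ (2 * i - (cyc ρ x).card) * ρ ^ (cyc ρ x).card := by
            rw [← pow_add]
            congr 1
            omega
          rw [h8, Equiv.Perm.mul_apply, pow_card] at e3
          exact e3
        have h6 := pow_inj ρ (i := 2 * i - (cyc ρ x).card) (by omega) (cyc_pos ρ x)
          (by rw [h7, pow_zero, Equiv.Perm.one_apply])
        omega
    · rw [hk, ← zpow_natCast, hρ] at e1
      have e3 : (g * f) ^ (-(i : ℤ)) * (f * (g * f) ^ k) = f * (g * f) ^ ((i : ℤ) + k) := by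
        rw [← mul_assoc, nc_conj hff hgg, neg_neg, mul_assoc, ← zpow_add]
      have e4 : ((g * f) ^ (-(i : ℤ)) * (f * (g * f) ^ k)) x = x := by
        rw [Equiv.Perm.mul_apply, e1, zpow_neg, ← Equiv.Perm.mul_apply, inv_mul_cancel, Equiv.Perm.one_apply]
      rw [e3] at e4
      exact nc_nofix hff hgg hf0 hg0 _ _ e4
  -- the set of pairs
  obtain ⟨B, hB⟩ : ∃ B : Finset (V × V), B = univ.filter fun p : V × V => p.2 ∈ cyc ρ p.1 ∧ p.2 ≠ p.1 ∧
    p.2 ≠ (ρ ^ ((cyc ρ p.1).card / 2)) p.1 := ⟨_, rfl⟩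
  have hcount : Fintype.card V ^ 2 ≤ 2 * B.card + 4 * Fintype.card V := by
    have h1 : B.card = ∑ x : V, (B.filter fun p => p.1 = x).card :=
      card_eq_sum_card_fiberwise fun p _ => mem_coe.2 (mem_univ _)
    have h2 : ∀ x : V, Fintype.card V ≤ 2 * (B.filter fun p => p.1 = x).card + 4 := by
      intro x
      have h3 : (((cyc ρ x).erase x).erase ((ρ ^ ((cyc ρ x).card / 2)) x)).image (fun y => (x, y)) ⊆
          B.filter fun p => p.1 = x := by
        intro p hp
        rw [mem_image] at hp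
        obtain ⟨y, hy, rfl⟩ := hp
        rw [mem_erase, mem_erase] at hy
        rw [hB, mem_filter, mem_filter]
        exact ⟨⟨mem_univ _, hy.2.2, hy.2.1, hy.1⟩, rfl⟩
      have h4 := card_le_card h3
      rw [card_image_of_injective _ (fun a b h => congrArg Prod.snd h)] at h4
      have h5 := pred_card_le_card_erase (s := (cyc ρ x).erase x) (a := (ρ ^ ((cyc ρ x).card / 2)) x)
      have h6 := pred_card_le_card_erase (s := cyc ρ x) (a := x)
      have h7 := hhalf x
      omega
    have h3 : ∑ x : V, Fintype.card V ≤ ∑ x : V, (2 * (B.filter fun p => p.1 = x).card + 4) :=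
      sum_le_sum fun x _ => h2 x
    rw [sum_const, card_univ, smul_eq_mul, sum_add_distrib, ← mul_sum, ← h1, sum_const, card_univ,
      smul_eq_mul] at h3
    rw [pow_two]
    omega
  have hsub : B ⊆ S.Coll ∪ S.Pre ∪ S.ND {f, g} ∪ univ.image (fun x => (x, f (g x))) := by
    intro p hp
    rw [hB, mem_filter] at hp
    obtain ⟨_, h1, h2, h3⟩ := hp
    obtain ⟨x, y⟩ := p
    simp only at h1 h2 h3
    obtain ⟨i, hi1, rfl⟩ := (mem_cyc_lt ρ).1 h1
    have hi : 0 < i := by
      rcases Nat.eq_zero_or_pos i with h | h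
      · rw [h, pow_zero] at h2
        exact absurd rfl h2
      · exact h
    have hi2 : 2 * i ≠ (cyc ρ x).card := by
      intro h
      apply h3
      congr 2
      omega
    have hns := hnsw x i hi hi1 hi2
    have hoff : x ≠ (ρ ^ i) x := fun h => h2 h.symm
    by_contra hnot
    simp only [mem_union, not_or] at hnot
    obtain ⟨⟨⟨hc, hpre⟩, hnd⟩, him⟩ := hnot
    have hstay : ∀ h ∈ Subgroup.closure ({f, g} : Set (Equiv.Perm V)), (∀ z, h z ≠ z) →
        S.wt (mv h (x, (ρ ^ i) x)) ≠ S.wt (x, (ρ ^ i) x) := by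
      intro h hh h0 hw
      rcases single S (p := (x, (ρ ^ i) x)) hoff hc (mv_off.2 hoff) hw with h5 | h5
      · exact h0 x (congrArg Prod.fst h5)
      · exact hns h hh h5
    have hsf := hstay f hfm hf0
    have hsg := hstay g hgm hg0
    obtain ⟨O, hO⟩ : ∃ O : Finset (V × V), O = univ.filter fun q : V × V =>
        ∃ γ ∈ Subgroup.closure ({f, g} : Set (Equiv.Perm V)), q = mv γ (x, (ρ ^ i) x) := ⟨_, rfl⟩
    have hOm : ∀ h ∈ Subgroup.closure ({f, g} : Set (Equiv.Perm V)), ∀ q ∈ O, mv h q ∈ O := by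
      intro h hh q hq
      rw [hO, mem_filter] at hq ⊢
      obtain ⟨_, γ, hγ, rfl⟩ := hq
      exact ⟨mem_univ _, h * γ, mul_mem hh hγ, rfl⟩
    have hOo : ∀ q ∈ O, q.1 ≠ q.2 := by
      intro q hq
      rw [hO, mem_filter] at hq
      obtain ⟨_, γ, _, rfl⟩ := hq
      exact mv_off.2 hoff
    have hpO : (x, (ρ ^ i) x) ∈ O := by
      rw [hO, mem_filter]
      exact ⟨mem_univ _, 1, one_mem _, rfl⟩
    have hps : (x, (ρ ^ i) x).swap ∉ O := by
      intro h
      rw [hO, mem_filter] at h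
      obtain ⟨_, γ, hγ, h⟩ := h
      exact hns γ hγ h.symm
    have hwf := wt_step S hf (x, (ρ ^ i) x)
    have hwg := wt_step S hg (x, (ρ ^ i) x)
    rcases lt_or_gt_of_ne hsf with h5 | h5
    · rcases lt_or_gt_of_ne hsg with h6 | h6
      · rcases pre_single S (p := (x, (ρ ^ i) x)) hoff hpre (mv_off.2 hoff) (mv_off.2 hoff)
          (q := mv f (x, (ρ ^ i) x)) (q' := mv g (x, (ρ ^ i) x)) (by omega) (by omega) with h7 | h7
        · have h8 : g x = f x := congrArg Prod.fst h7
          have h9 : (ρ ^ 1) x = (ρ ^ 0) x := by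
            rw [pow_one, pow_zero, hρ, Equiv.Perm.mul_apply, ← h8, hgg, Equiv.Perm.one_apply]
          have h10 := pow_inj ρ (i := 1) (j := 0) (by omega) (by omega) h9
          omega
        · have h8 : g x = f ((ρ ^ i) x) := congrArg Prod.fst h7
          apply him
          rw [mem_image]
          exact ⟨x, mem_univ _, by rw [h8, hff]⟩
      · exact nc_parity S hf hg hff hgg hf0 hg0 (p := (x, (ρ ^ i) x)) hoff hc (hOm f hfm) (hOm g hgm)
          hOo hpO hps h5 h6
    · rcases lt_or_gt_of_ne hsg with h6 | h6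
      · exact nc_parity S hg hf hgg hff hg0 hf0 (p := (x, (ρ ^ i) x)) hoff hc (hOm g hgm) (hOm f hfm)
          hOo hpO hps h6 h5
      · apply hnd
        rw [mem_ND]
        refine ⟨hoff, hc, ?_⟩
        rintro h (rfl | hh)
        · exact h5.le
        · rw [Set.mem_singleton_iff.1 hh]
          exact h6.le
  -- the count
  have hnd : (S.ND ({f, g} : Set (Equiv.Perm V))).card ≤ 2 * Fintype.card V := by
    have h1 := nd_total S hP1
    have h2 : (comps (Subgroup.closure ({f, g} : Set (Equiv.Perm V)))).card ≤ 1 := by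
      rw [card_le_one]
      intro Y hY Y' hY'
      obtain ⟨a, _, rfl⟩ := exists_rep hY
      obtain ⟨b, _, rfl⟩ := exists_rep hY'
      exact (cls_eq (htr a b)).symm
    have h3 : ((comps (Subgroup.closure ({f, g} : Set (Equiv.Perm V)))).card + 1) * Fintype.card V ≤
        2 * Fintype.card V := Nat.mul_le_mul_right _ (by omega)
    omega
  have hcard := card_le_card hsub
  have u1 := card_union_le (S.Coll ∪ S.Pre ∪ S.ND ({f, g} : Set (Equiv.Perm V)))
    (univ.image (fun x : V => (x, f (g x))))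
  have u2 := card_union_le (S.Coll ∪ S.Pre) (S.ND ({f, g} : Set (Equiv.Perm V)))
  have u3 := card_union_le S.Coll S.Pre
  have u4 : (univ.image (fun x : V => (x, f (g x)))).card ≤ Fintype.card V := card_image_le
  have u5 := card_coll S
  have u6 := card_pre S
  omega

end Pool.Agent.SYT
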