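import Pool.Agent.SYU.NearT
import Pool.Agent.SYU.Exact
import Pool.Agent.SYU.NoCyc

/-!
# SYU-CoreT: near involutions are two involutions of path type

Project SYU (MP_a3a126_co), paper proof in /team-store/a3a126b_87.md, section D6.
-/

set_option autoImplicit false

open Finset

namespace Pool.Agent.SYT

variable {V : Type} [Fintype V] [DecidableEq V]

private theorem ct_two (S : Sys V) {f h : Equiv.Perm V} (hf : f ∈ S.P) (hh : h ∈ S.P) (x v : V) :
    S.w x v ≤ S.w ((f * h) x) ((f * h) v) + 2 := by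
  have h1 := S.step h hh x v
  have h2 := S.step f hf (h x) (h v)
  rw [Equiv.Perm.mul_apply, Equiv.Perm.mul_apply]
  omega

/-- the exact lemma for one additional permutation `u` -/
private theorem ct_exact (S : Sys V) {f g u : Equiv.Perm V} (hf : f ∈ S.P) (hg : g ∈ S.P)
    (hK : ∀ x, Fintype.card V ≤
      49152 * (cls (Subgroup.closure ({f, g} : Set (Equiv.Perm V))) x).card)
    (hu : ∀ x v, S.w x v ≤ S.w (u x) (u v) + 2) {a b c : ℕ}
    (ha : (univ.filter fun x => f (f x) ≠ x).card = a)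
    (hb : (univ.filter fun x => g (g x) ≠ x).card = b)
    (hc : (univ.filter fun x => u x ≠ x).card = c)
    (hE : 2000000 * 49152 ^ 2 * (a + b + c) ≤ Fintype.card V)
    (hd : 300000 * 49152 ^ 2 * S.d ≤ Fintype.card V ^ 2) :
    (∀ x, f (f x) = x) ∧ (∀ x, g (g x) = x) ∧ ∀ x, u x = x := by
  classical
  obtain ⟨E, hEd⟩ : ∃ E, E = (univ.filter fun x => f (f x) ≠ x) ∪
    (univ.filter fun x => g (g x) ≠ x) ∪ (univ.filter fun x => u x ≠ x) := ⟨_, rfl⟩
  have hmem : ∀ x, x ∉ E → f (f x) = x ∧ g (g x) = x ∧ u x = x := by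
    intro x hx
    rw [hEd] at hx
    simp only [mem_union, mem_filter, mem_univ, true_and, not_or, not_not, ne_eq] at hx
    exact ⟨hx.1.1, hx.1.2, hx.2⟩
  have hEc : E.card ≤ a + b + c := by
    rw [hEd, ← ha, ← hb, ← hc]
    exact (card_union_le _ _).trans (Nat.add_le_add_right (card_union_le _ _) _)
  have hE0 : E = ∅ := by
    refine exact S hf hg (K := 49152) (by norm_num) hK (𝒰 := {f * f, g * g, u}) card_le_three
      ?_ ?_ (fun x hx => ⟨(hmem x hx).1, (hmem x hx).2.1⟩) ?_ ?_ hd
    · intro w hw x v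
      simp only [mem_insert, mem_singleton] at hw
      rcases hw with rfl | rfl | rfl
      · exact ct_two S hf hf x v
      · exact ct_two S hg hg x v
      · exact hu x v
    · intro w hw v hv
      obtain ⟨h1, h2, h3⟩ := hmem v hv
      simp only [mem_insert, mem_singleton] at hw
      rcases hw with rfl | rfl | rfl
      · exact h1
      · exact h2
      · exact h3
    · intro y hy
      rw [hEd] at hy
      simp only [mem_union, mem_filter, mem_univ, true_and] at hy
      rcases hy with (h | h) | h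
      · exact ⟨f * f, by simp, h⟩
      · exact ⟨g * g, by simp, h⟩
      · exact ⟨u, by simp, h⟩
    · exact le_trans (Nat.mul_le_mul_left _ hEc) hE
  exact ⟨fun x => (hmem x (by rw [hE0]; exact notMem_empty x)).1,
    fun x => (hmem x (by rw [hE0]; exact notMem_empty x)).2.1,
    fun x => (hmem x (by rw [hE0]; exact notMem_empty x)).2.2⟩

private theorem ct_mov {f h : Equiv.Perm V} :
    (univ.filter fun x => (f * h) x ≠ x).card ≤ (univ.filter fun x => f x ≠ h x).card +
      (univ.filter fun x => f (f x) ≠ x).card := by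
  classical
  refine (card_le_card (t := (univ.filter fun x => f x ≠ h x) ∪
    (univ.filter fun x => f (f x) ≠ x)) fun x hx => ?_).trans (card_union_le _ _)
  have hx' := (mem_filter.1 hx).2
  rw [Equiv.Perm.mul_apply] at hx'
  by_contra hcon
  simp only [mem_union, mem_filter, mem_univ, true_and, not_or, not_not, ne_eq] at hcon
  rw [← hcon.1] at hx'
  exact hx' hcon.2

private theorem ct_inv {f h : Equiv.Perm V} (hff : ∀ x, f (f x) = x)
    (hu : ∀ x, (f * h) x = x) : h = f := by
  ext x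
  have h1 := hu x
  rw [Equiv.Perm.mul_apply] at h1
  have h2 := congrArg f h1
  rw [hff] at h2
  exact h2

theorem core_two : ∃ G K' n0 : ℕ, ∀ (V : Type) [Fintype V] [DecidableEq V] (S : Sys V),
    (∀ h ∈ S.P, G * (univ.filter fun x => h (h x) ≠ x).card ≤ Fintype.card V) →
    n0 ≤ Fintype.card V → K' * S.d ≤ Fintype.card V ^ 2 →
    ∃ f ∈ S.P, ∃ g ∈ S.P, (∀ x, f (f x) = x) ∧ (∀ x, g (g x) = x) ∧ f ≠ g ∧
      (∀ x y, y ∈ cls (Subgroup.closure ({f, g} : Set (Equiv.Perm V))) x) ∧ ∃ z, g z = z := by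
  obtain ⟨Q, hQ⟩ : ∃ Q : ℕ, Q = 2000000 * 49152 ^ 2 := ⟨_, rfl⟩
  have hQ1 : 12288 ≤ Q := by rw [hQ]; norm_num
  obtain ⟨G, K', n0, hnear⟩ := near_two (8 * Q) (by omega)
  refine ⟨G + 8 * Q, K' + (300000 * 49152 ^ 2 + 100), n0 + 1000, ?_⟩
  intro V _ _ S hinv hn hd
  obtain ⟨n, hnV⟩ : ∃ n, n = Fintype.card V := ⟨_, rfl⟩
  rw [← hnV] at hn hd
  rw [add_mul, add_mul] at hd
  have hinvG : ∀ h ∈ S.P, G * (univ.filter fun x => h (h x) ≠ x).card ≤ Fintype.card V := by
    intro h hh
    refine le_trans (Nat.mul_le_mul_right _ ?_) (hinv h hh)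
    omega
  have hinvQ : ∀ h ∈ S.P, 8 * Q * (univ.filter fun x => h (h x) ≠ x).card ≤ n := by
    intro h hh
    rw [hnV]
    refine le_trans (Nat.mul_le_mul_right _ ?_) (hinv h hh)
    omega
  obtain ⟨f, hf, g, hg, hW, hcl, hK⟩ := hnear V S hinvG (by rw [← hnV]; omega)
    (by rw [← hnV]; omega)
  have hd1 : 300000 * 49152 ^ 2 * S.d ≤ n ^ 2 := by omega
  have hd2 : 100 * S.d ≤ n ^ 2 := by omega
  have hn1 : 1000 ≤ n := by omega
  have hex : ∀ u : Equiv.Perm V, (∀ x v, S.w x v ≤ S.w (u x) (u v) + 2) →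
      4 * Q * (univ.filter fun x => u x ≠ x).card ≤ n →
      (∀ x, f (f x) = x) ∧ (∀ x, g (g x) = x) ∧ ∀ x, u x = x := by
    intro u hu1 hu2
    have hf' := hinvQ f hf
    have hg' := hinvQ g hg
    refine ct_exact S hf hg hK hu1 rfl rfl rfl ?_ (by rw [← hnV]; exact hd1)
    rw [← hnV, ← hQ]
    generalize (univ.filter fun x => f (f x) ≠ x).card = a at *
    generalize (univ.filter fun x => g (g x) ≠ x).card = b at *
    generalize (univ.filter fun x => u x ≠ x).card = c at *
    have e1 : 8 * Q * a = 8 * (Q * a) := by ring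
    have e2 : 8 * Q * b = 8 * (Q * b) := by ring
    have e3 : 4 * Q * c = 4 * (Q * c) := by ring
    have e4 : Q * (a + b + c) = Q * a + Q * b + Q * c := by ring
    omega
  have hcase : ∀ h ∈ S.P, ((∀ x, f (f x) = x) ∧ ∀ x, g (g x) = x) ∧ (h = 1 ∨ h = f ∨ h = g) := by
    intro h hh
    rcases hcl h hh with h1 | h1 | h1
    · obtain ⟨a1, a2, a3⟩ := hex h (fun x v => by have := S.step h hh x v; omega) (by
        rw [← hnV] at h1
        refine le_trans (Nat.mul_le_mul_right _ ?_) h1
        omega)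
      exact ⟨⟨a1, a2⟩, Or.inl (Equiv.ext a3)⟩
    · have h2 := ct_mov (f := f) (h := h)
      have h3 := hinvQ f hf
      obtain ⟨a1, a2, a3⟩ := hex (f * h) (ct_two S hf hh) (by
        rw [← hnV] at h1
        generalize (univ.filter fun x => (f * h) x ≠ x).card = c at *
        generalize (univ.filter fun x => f (f x) ≠ x).card = a at *
        generalize (univ.filter fun x => f x ≠ h x).card = b at *
        have e0 : Q * c ≤ Q * (b + a) := Nat.mul_le_mul_left _ h2
        have e1 : 8 * Q * a = 8 * (Q * a) := by ring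
        have e2 : 8 * Q * b = 8 * (Q * b) := by ring
        have e3 : 4 * Q * c = 4 * (Q * c) := by ring
        have e4 : Q * (b + a) = Q * b + Q * a := by ring
        omega)
      exact ⟨⟨a1, a2⟩, Or.inr (Or.inl (ct_inv a1 a3))⟩
    · have h2 := ct_mov (f := g) (h := h)
      have h3 := hinvQ g hg
      obtain ⟨a1, a2, a3⟩ := hex (g * h) (ct_two S hg hh) (by
        rw [← hnV] at h1
        generalize (univ.filter fun x => (g * h) x ≠ x).card = c at *
        generalize (univ.filter fun x => g (g x) ≠ x).card = a at *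
        generalize (univ.filter fun x => g x ≠ h x).card = b at *
        have e0 : Q * c ≤ Q * (b + a) := Nat.mul_le_mul_left _ h2
        have e1 : 8 * Q * a = 8 * (Q * a) := by ring
        have e2 : 8 * Q * b = 8 * (Q * b) := by ring
        have e3 : 4 * Q * c = 4 * (Q * c) := by ring
        have e4 : Q * (b + a) = Q * b + Q * a := by ring
        omega)
      exact ⟨⟨a1, a2⟩, Or.inr (Or.inr (ct_inv a2 a3))⟩
  obtain ⟨⟨hff, hgg⟩, -⟩ := hcase f hf
  have hle : Subgroup.closure S.P ≤ Subgroup.closure ({f, g} : Set (Equiv.Perm V)) := by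
    rw [Subgroup.closure_le]
    intro h hh
    rcases (hcase h hh).2 with rfl | rfl | rfl
    · exact Subgroup.one_mem _
    · exact Subgroup.subset_closure (Set.mem_insert _ _)
    · exact Subgroup.subset_closure (Set.mem_insert_of_mem _ rfl)
  have htr : ∀ x y, y ∈ cls (Subgroup.closure ({f, g} : Set (Equiv.Perm V))) x := by
    intro x y
    obtain ⟨γ, hγ, hxy⟩ := S.trans x y
    exact mem_cls.2 ⟨γ, hle hγ, hxy⟩
  have hfg : f ≠ g := by
    intro hfg
    rw [← hnV] at hW
    have h1 : (univ.filter fun x =>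
        ¬ (f x ≠ x ∧ g x ≠ x ∧ f x ≠ g x ∧ f (f x) = x ∧ g (g x) = x)).card = n := by
      rw [hnV, ← card_univ]
      congr 1
      rw [filter_eq_self]
      intro x _ h2
      exact h2.2.2.1 (by rw [hfg])
    rw [h1] at hW
    have : 2 * n ≤ 8 * Q * n := Nat.mul_le_mul_right _ (by omega)
    omega
  by_cases h1 : ∃ z, g z = z
  · exact ⟨f, hf, g, hg, hff, hgg, hfg, htr, h1⟩
  by_cases h2 : ∃ z, f z = z
  · refine ⟨g, hg, f, hf, hgg, hff, hfg.symm, ?_, h2⟩
    rw [Set.pair_comm]
    exact htr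
  exfalso
  push Not at h1 h2
  have h3 := no_cyc S hf hg hff hgg h2 h1 htr (by rw [← hnV]; omega)
  rw [← hnV] at h3
  have h4 : 1000 * n ≤ n ^ 2 := by rw [pow_two]; exact Nat.mul_le_mul_right _ hn1
  omega

end Pool.Agent.SYT
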