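import Pool.Agent.SYT.Basic

/-!
# SYU-HeavyC: heavy levels and non-close pairs
-/

set_option autoImplicit false

open Finset

namespace Pool.Agent.SYT

variable {V : Type} [Fintype V] [DecidableEq V] (S : Sys V)

/-- the level `t` is in a window of width `4b+1` with many excess pairs -/
def Sys.heavy (b t : ℕ) : Prop := b ≤ 8 * ∑ s ∈ Icc (t - 2 * b) (t + 2 * b), ((S.lvl s).card - 2)

private theorem hc_zero {s : ℕ} (h : s ∉ Icc 1 S.M) : (S.lvl s).card - 2 = 0 := by
  have h1 : S.lvl s = ∅ := by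
    rw [eq_empty_iff_forall_notMem]
    intro p hp
    obtain ⟨h2, h3⟩ := (mem_lvl S).1 hp
    apply h
    rw [mem_Icc, ← h3]
    exact ⟨wt_pos S h2, wt_le S p⟩
  rw [h1, card_empty]

private theorem hc_sum (b : ℕ) (H : Finset ℕ) :
    ∑ t ∈ H, ∑ s ∈ Icc (t - 2 * b) (t + 2 * b), ((S.lvl s).card - 2) ≤ (4 * b + 1) * S.d := by
  have h1 : ∀ t, ∑ s ∈ Icc (t - 2 * b) (t + 2 * b), ((S.lvl s).card - 2) =
      ∑ s ∈ Icc 1 S.M, if s ∈ Icc (t - 2 * b) (t + 2 * b) then ((S.lvl s).card - 2) else 0 := by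
    intro t
    rw [← sum_filter]
    symm
    refine sum_subset (fun s hs => (mem_filter.1 hs).2) fun s hs hs' => ?_
    refine hc_zero S fun hs'' => hs' (mem_filter.2 ⟨hs'', hs⟩)
  rw [sum_congr rfl fun t _ => h1 t, sum_comm, ← sum_excess S, mul_sum]
  refine sum_le_sum fun s _ => ?_
  rw [← sum_filter, sum_const, smul_eq_mul]
  refine Nat.mul_le_mul_right _ ?_
  have h2 : (H.filter fun t => s ∈ Icc (t - 2 * b) (t + 2 * b)) ⊆ Icc (s - 2 * b) (s + 2 * b) := by
    intro t ht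
    have h3 := mem_Icc.1 (mem_filter.1 ht).2
    rw [mem_Icc]
    omega
  refine (card_le_card h2).trans ?_
  rw [Nat.card_Icc]
  omega

open Classical in
theorem heavy_card {b : ℕ} (hb : 1 ≤ b) :
    ((off V).filter fun p => S.heavy b (S.wt p)).card ≤ 81 * S.d := by
  have hH : b * ((Icc 1 S.M).filter fun t => S.heavy b t).card ≤
      8 * ((4 * b + 1) * S.d) := by
    have h1 := hc_sum S b ((Icc 1 S.M).filter fun t => S.heavy b t)
    have h2 : ((Icc 1 S.M).filter fun t => S.heavy b t).card * b ≤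
        ∑ t ∈ (Icc 1 S.M).filter (fun t => S.heavy b t),
          8 * ∑ s ∈ Icc (t - 2 * b) (t + 2 * b), ((S.lvl s).card - 2) := by
      rw [← smul_eq_mul]
      exact card_nsmul_le_sum _ _ _ fun t ht => (mem_filter.1 ht).2
    rw [← mul_sum] at h2
    rw [mul_comm]
    exact h2.trans (Nat.mul_le_mul_left 8 h1)
  have hH' : ((Icc 1 S.M).filter fun t => S.heavy b t).card ≤ 40 * S.d := by
    have h1 : 8 * ((4 * b + 1) * S.d) ≤ b * (40 * S.d) := by
      have h2 : (4 * b + 1) * S.d ≤ (5 * b) * S.d := Nat.mul_le_mul_right _ (by omega)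
      calc 8 * ((4 * b + 1) * S.d) ≤ 8 * ((5 * b) * S.d) := Nat.mul_le_mul_left 8 h2
        _ = b * (40 * S.d) := by ring
    exact Nat.le_of_mul_le_mul_left (hH.trans h1) (by omega)
  have h1 : ((off V).filter fun p => S.heavy b (S.wt p)).card =
      ∑ t ∈ (Icc 1 S.M).filter (fun t => S.heavy b t),
        (((off V).filter fun p => S.heavy b (S.wt p)).filter fun p => S.wt p = t).card := by
    apply card_eq_sum_card_fiberwise
    intro p hp
    have hp1 := mem_filter.1 (mem_coe.1 hp)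
    have hp' : p.1 ≠ p.2 := mem_off.1 hp1.1
    rw [mem_coe, mem_filter, mem_Icc]
    exact ⟨⟨wt_pos S hp', wt_le S p⟩, hp1.2⟩
  rw [h1]
  have h2 : ∀ t ∈ (Icc 1 S.M).filter (fun t => S.heavy b t),
      (((off V).filter fun p => S.heavy b (S.wt p)).filter fun p => S.wt p = t).card ≤
        2 + ((S.lvl t).card - 2) := by
    intro t _
    have h3 : (((off V).filter fun p => S.heavy b (S.wt p)).filter fun p => S.wt p = t) ⊆
        S.lvl t := by
      intro p hp
      have h4 := mem_filter.1 hp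
      exact (mem_lvl S).2 ⟨mem_off.1 (mem_filter.1 h4.1).1, h4.2⟩
    have h5 := card_le_card h3
    omega
  refine (sum_le_sum h2).trans ?_
  rw [sum_add_distrib, sum_const, smul_eq_mul]
  have h3 : ∑ t ∈ (Icc 1 S.M).filter (fun t => S.heavy b t), ((S.lvl t).card - 2) ≤ S.d := by
    rw [← sum_excess S]
    exact sum_le_sum_of_subset (filter_subset _ _)
  omega

theorem nonclose {u : Equiv.Perm V} {E : Finset V} (hu : ∀ v, v ∉ E → u v = v)
    (hw : ∀ x v, S.w x v ≤ S.w (u x) (u v) + 2) {v : V} (hv : v ∉ E) {b : ℕ} (hb : 32 ≤ b) :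
    b * (E.filter fun y => u y ≠ y ∧ ¬ (16 * S.w y v ≤ 16 * S.w (u y) v + b ∧
      16 * S.w (u y) v ≤ 16 * S.w y v + b)).card ≤ 32 * E.card := by
  have huv : u v = v := hu v hv
  have hE : ∀ y, y ∈ E ↔ u y ∈ E := by
    intro y
    constructor
    · intro hy
      by_contra hy'
      have h1 := u.injective (hu _ hy')
      exact hy' (by rw [h1]; exact hy)
    · intro hy
      by_contra hy'
      exact hy' (by rw [← hu y hy']; exact hy)
  have hs : ∑ y ∈ E, S.w (u y) v = ∑ y ∈ E, S.w y v :=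
    sum_equiv u hE fun y _ => rfl
  have hle : ∀ y, S.w y v ≤ S.w (u y) v + 2 := by
    intro y
    have h1 := hw y v
    rwa [huv] at h1
  have ht : ∑ y ∈ E, (S.w (u y) v + 2 - S.w y v) = 2 * E.card := by
    have h1 : ∑ y ∈ E, (S.w (u y) v + 2 - S.w y v) + ∑ y ∈ E, S.w y v =
        ∑ y ∈ E, S.w (u y) v + 2 * E.card := by
      rw [← sum_add_distrib, mul_comm, ← smul_eq_mul, ← sum_const, ← sum_add_distrib]
      refine sum_congr rfl fun y _ => ?_
      have := hle y
      omega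
    omega
  have hf : (E.filter fun y => u y ≠ y ∧ ¬ (16 * S.w y v ≤ 16 * S.w (u y) v + b ∧
      16 * S.w (u y) v ≤ 16 * S.w y v + b)).card * b ≤
      ∑ y ∈ E.filter (fun y => u y ≠ y ∧ ¬ (16 * S.w y v ≤ 16 * S.w (u y) v + b ∧
      16 * S.w (u y) v ≤ 16 * S.w y v + b)), 16 * (S.w (u y) v + 2 - S.w y v) := by
    rw [← smul_eq_mul]
    refine card_nsmul_le_sum _ _ _ fun y hy => ?_
    have h1 := (mem_filter.1 hy).2.2
    have h2 := hle y
    omega
  have hg : ∑ y ∈ E.filter (fun y => u y ≠ y ∧ ¬ (16 * S.w y v ≤ 16 * S.w (u y) v + b ∧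
      16 * S.w (u y) v ≤ 16 * S.w y v + b)), 16 * (S.w (u y) v + 2 - S.w y v) ≤
      ∑ y ∈ E, 16 * (S.w (u y) v + 2 - S.w y v) :=
    sum_le_sum_of_subset (filter_subset _ _)
  rw [← mul_sum E, ht] at hg
  rw [mul_comm]
  refine (hf.trans hg).trans ?_
  omega

end Pool.Agent.SYT
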