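import Pool.Agent.SYU.FreeD
import Pool.Agent.SYT.Basic

/-!
# SYU-Walk: transport of a pair to the defect set

Project SYU (MP_a3a126_co), paper proof in /team-store/a3a126b_87.md, section D4 (transport).

`aw ε j` = product of `j` alternating letters, `alt ε` acts first. Let `m ≥ 1` be least with `x ∈ Nb m` (`m ≤ q`), `ancestors`
gives `ε < 2` and `c`, `c i = aw ε i x`, `c m ∈ Nb 0 = E`; take `j = m`. Let `C 0, …, C (10b)` be the chain of `v = C (5b)`,
labels `alt (ε' + i)`. If `ε ≡ ε' + 5b mod 2` then `aw ε i v = C (5b + i)`, otherwise `aw ε i v = C (5b - i)` (`i ≤ m ≤ b`); in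
both cases `alt (ε + i) (aw ε (i+1) v) = aw ε i v`. So both coordinates can be moved back by the same letters and
`|w (aw ε i x) (aw ε i v) - w (aw ε (i+1) x) (aw ε (i+1) v)| ≤ 1` by `S.step` twice. `aw ε m v = C (5b ± m)` is the middle of the
subchain of radius `4b` (`5b ± m - 4b ≥ 0`, `5b ± m + 4b ≤ 10b`), with start label `ε' + (5b ± m - 4b)`.
-/

set_option autoImplicit false

open Finset

namespace Pool.Agent.SYT

variable {V : Type} [Fintype V] [DecidableEq V]

/-- the product of `j` alternating letters, `alt ε` first -/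
def aw (f g : Equiv.Perm V) (ε : ℕ) : ℕ → Equiv.Perm V
  | 0 => 1
  | j + 1 => alt f g (ε + j) * aw f g ε j

private theorem wk_alt (f g : Equiv.Perm V) {i j : ℕ} (h : i % 2 = j % 2) : alt f g i = alt f g j := by
  unfold alt
  rw [h]

private theorem wk_mem {S : Sys V} {f g : Equiv.Perm V} (hf : f ∈ S.P) (hg : g ∈ S.P) (i : ℕ) :
    alt f g i ∈ S.P := by
  unfold alt
  split_ifs
  · exact hf
  · exact hg

private theorem wk_aw (f g : Equiv.Perm V) (ε j : ℕ) (x : V) :
    aw f g ε (j + 1) x = alt f g (ε + j) (aw f g ε j x) := rfl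

/-- both coordinates move by letters that can be undone by the same letters -/
private theorem wk_est (S : Sys V) {f g : Equiv.Perm V} (hf : f ∈ S.P) (hg : g ∈ S.P) (ε m : ℕ) (x v : V)
    (hx : ∀ i < m, alt f g (ε + i) (aw f g ε (i + 1) x) = aw f g ε i x)
    (hv : ∀ i < m, alt f g (ε + i) (aw f g ε (i + 1) v) = aw f g ε i v) :
    ∀ j ≤ m, S.w x v ≤ S.w (aw f g ε j x) (aw f g ε j v) + j ∧
      S.w (aw f g ε j x) (aw f g ε j v) ≤ S.w x v + j := by
  intro j
  induction j with
  | zero =>
    intro _
    exact ⟨le_refl _, le_refl _⟩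
  | succ j ih =>
    intro hj
    obtain ⟨h1, h2⟩ := ih (by omega)
    have hm := wk_mem (S := S) hf hg (ε + j)
    have h3 := S.step _ hm (aw f g ε j x) (aw f g ε j v)
    have h4 := S.step _ hm (aw f g ε (j + 1) x) (aw f g ε (j + 1) v)
    rw [hx j (by omega), hv j (by omega)] at h4
    rw [← wk_aw, ← wk_aw] at h3
    constructor
    · omega
    · omega

/-- the chain of a free state, in the direction of the letters -/
private theorem wk_free {f g : Equiv.Perm V} {E : Finset V} {b : ℕ} {v : V} (hv : Free f g E (5 * b) v)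
    (ε : ℕ) : (∀ i < b, alt f g (ε + i) (aw f g ε (i + 1) v) = aw f g ε i v) ∧
      ∀ m ≤ b, Free f g E (4 * b) (aw f g ε m v) := by
  obtain ⟨ε', C, hC0, hCE, hCi, hCs⟩ := hv
  by_cases hpar : ε % 2 = (ε' + 5 * b) % 2
  · have haw : ∀ i ≤ b, aw f g ε i v = C (5 * b + i) := by
      intro i
      induction i with
      | zero =>
        intro _
        exact hC0.symm
      | succ i ih =>
        intro hi
        rw [wk_aw, ih (by omega), wk_alt f g (show (ε + i) % 2 = (ε' + (5 * b + i)) % 2 by omega)]
        exact (hCs (5 * b + i) (by omega)).1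
    refine ⟨fun i hi => ?_, fun m hm => ?_⟩
    · rw [haw (i + 1) (by omega), haw i (by omega),
        wk_alt f g (show (ε + i) % 2 = (ε' + (5 * b + i)) % 2 by omega)]
      exact (hCs (5 * b + i) (by omega)).2
    · refine ⟨ε' + (b + m), fun i => C (b + m + i), ?_, fun i hi => hCE _ (by omega),
        fun i hi j hj hij => ?_, fun i hi => ?_⟩
      · show C (b + m + 4 * b) = _
        rw [haw m hm]
        congr 1
        omega
      · have h1 := hCi (b + m + i) (by omega) (b + m + j) (by omega) hij
        omega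
      · have h1 := hCs (b + m + i) (by omega)
        rw [show ε' + (b + m) + i = ε' + (b + m + i) by omega]
        exact h1
  · have haw : ∀ i ≤ b, aw f g ε i v = C (5 * b - i) := by
      intro i
      induction i with
      | zero =>
        intro _
        exact hC0.symm
      | succ i ih =>
        intro hi
        rw [wk_aw, ih (by omega), wk_alt f g (show (ε + i) % 2 = (ε' + (5 * b - (i + 1))) % 2 by omega)]
        have h1 := (hCs (5 * b - (i + 1)) (by omega)).2
        rw [show 5 * b - (i + 1) + 1 = 5 * b - i by omega] at h1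
        exact h1
    refine ⟨fun i hi => ?_, fun m hm => ?_⟩
    · rw [haw (i + 1) (by omega), haw i (by omega),
        wk_alt f g (show (ε + i) % 2 = (ε' + (5 * b - (i + 1))) % 2 by omega)]
      have h1 := (hCs (5 * b - (i + 1)) (by omega)).1
      rw [show 5 * b - (i + 1) + 1 = 5 * b - i by omega] at h1
      exact h1
    · refine ⟨ε' + (b - m), fun i => C (b - m + i), ?_, fun i hi => hCE _ (by omega),
        fun i hi j hj hij => ?_, fun i hi => ?_⟩
      · show C (b - m + 4 * b) = _
        rw [haw m hm]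
        congr 1
        omega
      · have h1 := hCi (b - m + i) (by omega) (b - m + j) (by omega) hij
        omega
      · have h1 := hCs (b - m + i) (by omega)
        rw [show ε' + (b - m) + i = ε' + (b - m + i) by omega]
        exact h1

theorem transport (S : Sys V) {f g : Equiv.Perm V} (hf : f ∈ S.P) (hg : g ∈ S.P) {E : Finset V}
    (hE : ∀ x, x ∉ E → f (f x) = x ∧ g (g x) = x) {b q : ℕ} (hq : q ≤ b) {x v : V}
    (hx : x ∈ Nb f g E q) (hxE : x ∉ E) (hv : Free f g E (5 * b) v) :
    ∃ ε < 2, ∃ j ≤ q, aw f g ε j x ∈ E ∧ Free f g E (4 * b) (aw f g ε j v) ∧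
      S.w x v ≤ S.w (aw f g ε j x) (aw f g ε j v) + j ∧
      S.w (aw f g ε j x) (aw f g ε j v) ≤ S.w x v + j := by
  classical
  have hex : ∃ m, x ∈ Nb f g E m := ⟨q, hx⟩
  obtain ⟨m, hm1, hm2, hmq⟩ : ∃ m, x ∈ Nb f g E m ∧ (∀ i < m, x ∉ Nb f g E i) ∧ m ≤ q :=
    ⟨Nat.find hex, Nat.find_spec hex, fun i hi => Nat.find_min hex hi, Nat.find_min' hex hx⟩
  obtain ⟨ε, c, hε, hc0, hcN, -, hcs⟩ := ancestors hE hm1 hm2
  have haw : ∀ i ≤ m, aw f g ε i x = c i := by
    intro i
    induction i with
    | zero =>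
      intro _
      exact hc0.symm
    | succ i ih =>
      intro hi
      rw [wk_aw, ih (by omega)]
      exact (hcs i (by omega)).1
  obtain ⟨hv1, hv2⟩ := wk_free hv ε
  refine ⟨ε, hε, m, hmq, ?_, hv2 m (by omega), ?_⟩
  · rw [haw m le_rfl]
    have h1 := hcN m le_rfl
    rw [Nat.sub_self] at h1
    exact h1
  · refine wk_est S hf hg ε m x v (fun i hi => ?_) (fun i hi => hv1 i (by omega)) m le_rfl
    rw [haw (i + 1) (by omega), haw i (by omega)]
    exact (hcs i hi).2

end Pool.Agent.SYT
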