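import Pool.Agent.SYU.Slab
import Pool.Agent.SYU.Walk
import Pool.Agent.SYU.HeavyC

/-!
# SYU-Cover: pairs (near the defect set, free state)

Project SYU (MP_a3a126_co), paper proof in /team-store/a3a126b_87.md, section D4.

A pair of a state near the defect set and a free state is transported to the defect set; there it is
either at a heavy level or not close, and there are few pairs of both kinds.
-/

set_option autoImplicit false

open Finset

namespace Pool.Agent.SYT

variable {V : Type} [Fintype V] [DecidableEq V] (S : Sys V)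

/-- the pairs that are not close -/
private def cvP (u : Equiv.Perm V) (E : Finset V) (b : ℕ) (p : V × V) : Prop :=
  p.1 ∈ E ∧ p.2 ∉ E ∧ u p.1 ≠ p.1 ∧ ¬ (16 * S.w p.1 p.2 ≤ 16 * S.w (u p.1) p.2 + b ∧
      16 * S.w (u p.1) p.2 ≤ 16 * S.w p.1 p.2 + b)

open Classical in
private theorem cv_B {u : Equiv.Perm V} {E : Finset V} (hu : ∀ v, v ∉ E → u v = v)
    (hw : ∀ x v, S.w x v ≤ S.w (u x) (u v) + 2) {b : ℕ} (hb : 32 ≤ b) :
    b * (univ.filter (cvP S u E b)).card ≤ 32 * E.card * Fintype.card V := by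
  have h1 : (univ.filter (cvP S u E b)).card =
      ∑ v : V, ((univ.filter (cvP S u E b)).filter fun p => p.2 = v).card := by
    apply card_eq_sum_card_fiberwise
    intro p _
    exact mem_coe.2 (mem_univ _)
  have h2 : ∀ v : V, b * ((univ.filter (cvP S u E b)).filter fun p => p.2 = v).card ≤
      32 * E.card := by
    intro v
    by_cases hv : v ∈ E
    · have h3 : ((univ.filter (cvP S u E b)).filter fun p => p.2 = v) = ∅ := by
        rw [filter_eq_empty_iff]
        intro p hp hpv
        have h4 := (mem_filter.1 hp).2.2.1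
        rw [hpv] at h4
        exact h4 hv
      rw [h3, card_empty, mul_zero]
      exact Nat.zero_le _
    · refine le_trans (Nat.mul_le_mul_left b ?_) (nonclose S hu hw hv hb)
      refine card_le_card_of_injOn Prod.fst ?_ ?_
      · intro p hp
        rw [mem_coe, mem_filter, mem_filter] at hp
        obtain ⟨⟨-, h4, h5, h6, h7⟩, h8⟩ := hp
        rw [mem_coe, mem_filter]
        rw [h8] at h7
        exact ⟨h4, h6, h7⟩
      · intro p hp q hq hpq
        rw [mem_coe, mem_filter] at hp hq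
        exact Prod.ext hpq (hp.2.trans hq.2.symm)
  rw [h1, mul_sum]
  refine (sum_le_sum fun v _ => h2 v).trans ?_
  rw [sum_const, card_univ, smul_eq_mul, mul_comm]

open Classical in
private theorem cv_pre {u γ : Equiv.Perm V} {E : Finset V} {b : ℕ} :
    (univ.filter fun p : V × V => cvP S u E b (mv γ p)).card ≤ (univ.filter (cvP S u E b)).card := by
  refine card_le_card_of_injOn (mv γ) ?_ (mv_injective γ).injOn
  intro p hp
  rw [mem_coe, mem_filter] at hp ⊢
  exact ⟨mem_univ _, hp.2⟩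

omit [Fintype V] [DecidableEq V] in
private theorem cv_free {f g : Equiv.Perm V} {E : Finset V} {l : ℕ} {v : V} (h : Free f g E l v) :
    v ∉ E := by
  obtain ⟨ε, c, hc, hE, -, -⟩ := h
  rw [← hc]
  exact hE l (by omega)

open Classical in
theorem cover {f g : Equiv.Perm V} (hf : f ∈ S.P) (hg : g ∈ S.P) {𝒰 : Finset (Equiv.Perm V)}
    (h𝒰 : 𝒰.card ≤ 3) (hw : ∀ u ∈ 𝒰, ∀ x v, S.w x v ≤ S.w (u x) (u v) + 2) {E : Finset V}
    (hfix : ∀ u ∈ 𝒰, ∀ v, v ∉ E → u v = v) (hE1 : ∀ x, x ∉ E → f (f x) = x ∧ g (g x) = x)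
    (hE2 : ∀ y ∈ E, ∃ u ∈ 𝒰, u y ≠ y) {b : ℕ} (hb : 256 ≤ b) :
    (Nb f g E (b / 4) \ E).card * (univ.filter fun v => Free f g E (5 * b) v).card ≤
      81 * S.d + 49 * E.card * Fintype.card V := by
  obtain ⟨J, hJ⟩ : ∃ J : Finset (Equiv.Perm V × ℕ × ℕ), J = 𝒰 ×ˢ (range 2 ×ˢ range (b / 4 + 1)) :=
    ⟨_, rfl⟩
  obtain ⟨Pr, hPr⟩ : ∃ Pr : Equiv.Perm V × ℕ × ℕ → Finset (V × V), Pr = fun t =>
    univ.filter fun p : V × V => cvP S t.1 E b (mv (aw f g t.2.1 t.2.2) p) := ⟨_, rfl⟩
  have hsub : (Nb f g E (b / 4) \ E) ×ˢ (univ.filter fun v => Free f g E (5 * b) v) ⊆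
      ((off V).filter fun p => S.heavy b (S.wt p)) ∪ J.biUnion Pr := by
    rintro ⟨x, v⟩ hp
    rw [mem_product, mem_sdiff, mem_filter] at hp
    have hx : x ∈ Nb f g E (b / 4) := hp.1.1
    have hxE : x ∉ E := hp.1.2
    have hv : Free f g E (5 * b) v := hp.2.2
    obtain ⟨ε, hε, j, hj, hyE, hv', hw1, hw2⟩ := transport S hf hg hE1 (by omega) hx hxE hv
    obtain ⟨y, hy⟩ : ∃ y, y = aw f g ε j x := ⟨_, rfl⟩
    obtain ⟨v', hv'd⟩ : ∃ v', v' = aw f g ε j v := ⟨_, rfl⟩
    rw [← hy] at hyE hw1 hw2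
    rw [← hv'd] at hv' hw1 hw2
    have hv'E : v' ∉ E := cv_free hv'
    have hxv : x ≠ v := by
      intro h
      rw [h, ← hv'd] at hy
      exact hv'E (hy ▸ hyE)
    obtain ⟨u, hu, huy⟩ := hE2 y hyE
    have huyE : u y ∈ E := by
      by_contra h
      exact huy (u.injective (hfix u hu _ h))
    rw [mem_union]
    by_cases hcl : 16 * S.w y v' ≤ 16 * S.w (u y) v' + b ∧
      16 * S.w (u y) v' ≤ 16 * S.w y v' + b
    · left
      rw [mem_filter, mem_off]
      refine ⟨hxv, ?_⟩
      show b ≤ 8 * ∑ s ∈ Icc (S.w x v - 2 * b) (S.w x v + 2 * b), ((S.lvl s).card - 2)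
      have hb64 : 64 ≤ b := by omega
      rcases le_total (S.w (u y) v') (S.w y v') with hle | hle
      · have h1 := slab S hf hg hb64 hv' hyE huyE (Ne.symm huy) hle hcl.1
        refine h1.trans (Nat.mul_le_mul_left 8 (sum_le_sum_of_subset ?_))
        refine Icc_subset_Icc ?_ ?_
        · omega
        · omega
      · have h1 := slab S hf hg hb64 hv' huyE hyE huy hle hcl.2
        refine h1.trans (Nat.mul_le_mul_left 8 (sum_le_sum_of_subset ?_))
        refine Icc_subset_Icc ?_ ?_
        · omega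
        · omega
    · right
      rw [mem_biUnion]
      refine ⟨(u, ε, j), ?_, ?_⟩
      · rw [hJ, mem_product, mem_product, mem_range, mem_range]
        exact ⟨hu, hε, Nat.lt_succ_of_le hj⟩
      · rw [hPr, mem_filter]
        refine ⟨mem_univ _, ?_⟩
        show cvP S u E b (aw f g ε j x, aw f g ε j v)
        rw [← hy, ← hv'd]
        exact ⟨hyE, hv'E, huy, hcl⟩
  have hJc : J.card ≤ 6 * (b / 4 + 1) := by
    rw [hJ, card_product, card_product, card_range, card_range]
    have h1 := Nat.mul_le_mul_right (2 * (b / 4 + 1)) h𝒰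
    refine h1.trans (le_of_eq ?_)
    ring
  have hB : b * (J.biUnion Pr).card ≤ b * (49 * E.card * Fintype.card V) := by
    have h1 : b * (J.biUnion Pr).card ≤ ∑ t ∈ J, b * (Pr t).card := by
      rw [← mul_sum]
      exact Nat.mul_le_mul_left b card_biUnion_le
    have h2 : ∀ t ∈ J, b * (Pr t).card ≤ 32 * E.card * Fintype.card V := by
      intro t ht
      rw [hJ, mem_product] at ht
      rw [hPr]
      exact (Nat.mul_le_mul_left b (cv_pre S)).trans
        (cv_B S (hfix t.1 ht.1) (hw t.1 ht.1) (by omega))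
    have h3 : ∑ t ∈ J, b * (Pr t).card ≤ J.card * (32 * E.card * Fintype.card V) := by
      refine (sum_le_sum h2).trans ?_
      rw [sum_const, smul_eq_mul]
    have h4 : J.card * 32 ≤ b * 49 := by omega
    calc b * (J.biUnion Pr).card ≤ J.card * (32 * E.card * Fintype.card V) := h1.trans h3
      _ = (J.card * 32) * (E.card * Fintype.card V) := by ring
      _ ≤ (b * 49) * (E.card * Fintype.card V) := Nat.mul_le_mul_right _ h4
      _ = b * (49 * E.card * Fintype.card V) := by ring
  have hB' : (J.biUnion Pr).card ≤ 49 * E.card * Fintype.card V :=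
    Nat.le_of_mul_le_mul_left hB (by omega)
  rw [← card_product]
  refine (card_le_card hsub).trans ((card_union_le _ _).trans ?_)
  exact Nat.add_le_add (heavy_card S (by omega)) hB'

end Pool.Agent.SYT
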