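import Pool.Agent.SYT.Both
import Pool.Agent.SYT.Join

/-!
# SYU-CrossJ: lower bound for the non-descending pairs at the crossing

Project SYU (MP_a3a126_co), paper proof in /team-store/a3a126b_87.md, section D5.

* `cross_nd`: the proof of `cross_ineq` (Pool/Agent/SYT/CrossI.lean) without the use of `nd_total`.
* `meet_lower`: `D = Dst Γ g`; the elements of `D` are moved by `g`. If `x ∈ D` and `g (g x) = x`, the cycle of `x` is `{x, g x}`, it is in
  `meetc g D` and contains at most 2 elements of `D`.
-/

set_option autoImplicit false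

open Finset

namespace Pool.Agent.SYT

variable {V : Type} [Fintype V] [DecidableEq V] (S : Sys V)

open Classical in
private theorem cjn_cover {P1 : Finset (Equiv.Perm V)} (h1 : (P1 : Set (Equiv.Perm V)) ⊆ S.P)
    {g : Equiv.Perm V} (hg : g ∈ S.P) (D : Finset V) :
    ((off V).filter fun p => p.1 ∈ D ∨ p.2 ∈ D).card ≤
      S.Coll.card + S.Pre.card + (S.ND (P1 : Set (Equiv.Perm V))).card +
        ((S.ND {g}).filter fun p => p.1 ∈ D ∨ p.2 ∈ D).card +
        ((off V).filter fun p => p ∉ S.Pre ∧ (p.1 ∈ D ∨ p.2 ∈ D) ∧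
          S.wt (mv g p) + 1 = S.wt p ∧ ∃ f ∈ P1, S.wt (mv f p) + 1 = S.wt p).card := by
  refine le_trans (card_le_card (t := (((S.Coll ∪ S.Pre) ∪ S.ND (P1 : Set (Equiv.Perm V))) ∪
    ((S.ND {g}).filter fun p => p.1 ∈ D ∨ p.2 ∈ D)) ∪
    ((off V).filter fun p => p ∉ S.Pre ∧ (p.1 ∈ D ∨ p.2 ∈ D) ∧
          S.wt (mv g p) + 1 = S.wt p ∧ ∃ f ∈ P1, S.wt (mv f p) + 1 = S.wt p)) ?_) ?_
  · intro p hp
    obtain ⟨hp1, hp2⟩ := mem_filter.1 hp
    by_cases hc : p ∈ S.Coll
    · exact mem_union_left _ (mem_union_left _ (mem_union_left _ (mem_union_left _ hc)))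
    by_cases hpre : p ∈ S.Pre
    · exact mem_union_left _ (mem_union_left _ (mem_union_left _ (mem_union_right _ hpre)))
    by_cases hn : ∀ f ∈ (P1 : Set (Equiv.Perm V)), S.wt p ≤ S.wt (mv f p)
    · exact mem_union_left _ (mem_union_left _ (mem_union_right _
        ((mem_ND S).2 ⟨mem_off.1 hp1, hc, hn⟩)))
    by_cases hng : S.wt p ≤ S.wt (mv g p)
    · refine mem_union_left _ (mem_union_right _ (mem_filter.2 ⟨(mem_ND S).2
        ⟨mem_off.1 hp1, hc, ?_⟩, hp2⟩))
      intro f hf
      rw [Set.mem_singleton_iff] at hf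
      rw [hf]
      exact hng
    push Not at hn
    obtain ⟨f, hf, hf2⟩ := hn
    refine mem_union_right _ (mem_filter.2 ⟨hp1, hpre, hp2, ?_, f, mem_coe.1 hf, ?_⟩)
    · have := wt_step S hg p
      omega
    · have := wt_step S (h1 hf) p
      omega
  · refine (card_union_le _ _).trans (Nat.add_le_add_right ?_ _)
    refine (card_union_le _ _).trans (Nat.add_le_add_right ?_ _)
    refine (card_union_le _ _).trans (Nat.add_le_add_right ?_ _)
    exact card_union_le _ _

theorem cross_nd {P1 : Finset (Equiv.Perm V)} (h1 : (P1 : Set (Equiv.Perm V)) ⊆ S.P)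
    {g : Equiv.Perm V} (hg : g ∈ S.P) {n m r1 n1 : ℕ} (hn : n = Fintype.card V)
    (hm : m = (Dst (Subgroup.closure (P1 : Set (Equiv.Perm V))) g).card)
    (hr1 : r1 = (meetc g (Dst (Subgroup.closure (P1 : Set (Equiv.Perm V))) g)).card)
    (hn1 : n1 = ∑ A ∈ meetc g (Dst (Subgroup.closure (P1 : Set (Equiv.Perm V))) g), A.card) :
    2 * m * n + r1 * n1 ≤ (S.ND (P1 : Set (Equiv.Perm V))).card + 2 * r1 * n + 2 * n +
      P1.card * n + m ^ 2 + m + 6 * S.d := by
  classical
  subst hn hm hr1 hn1
  have e1 := card_meet (Dst (Subgroup.closure (P1 : Set (Equiv.Perm V))) g)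
  have e2 := cjn_cover S h1 hg (Dst (Subgroup.closure (P1 : Set (Equiv.Perm V))) g)
  have e3 := card_coll S
  have e4 := card_pre S
  have e6 := nd_meet S hg (Dst (Subgroup.closure (P1 : Set (Equiv.Perm V))) g)
  have e7 := both_desc S h1 hg
  generalize (Dst (Subgroup.closure (P1 : Set (Equiv.Perm V))) g) = D at *
  have e8 : ((off V).filter fun p => p ∉ S.Pre ∧ (p.1 ∈ D ∨ p.2 ∈ D) ∧
          S.wt (mv g p) + 1 = S.wt p ∧ ∃ f ∈ P1, S.wt (mv f p) + 1 = S.wt p).card ≤
      P1.card * Fintype.card V := by
    refine le_trans (le_of_eq ?_) e7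
    congr 1
  have e9 : ((off V).filter fun p => p.1 ∈ D ∨ p.2 ∈ D).card + D.card ^ 2 + D.card =
      2 * D.card * Fintype.card V := by
    rw [← e1]
  have e10 : ((S.ND {g}).filter fun p => p.1 ∈ D ∨ p.2 ∈ D).card +
        (meetc g D).card * ∑ A ∈ meetc g D, A.card ≤
      2 * (meetc g D).card * Fintype.card V + 2 * Fintype.card V := e6
  generalize ((off V).filter fun p => p.1 ∈ D ∨ p.2 ∈ D).card = b1 at *
  linarith

theorem meet_lower (Γ : Subgroup (Equiv.Perm V)) (g : Equiv.Perm V) :
    (Dst Γ g).card ≤ 2 * (meetc g (Dst Γ g)).card + (univ.filter fun x => g (g x) ≠ x).card := by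
  classical
  have h1 := card_filter_add_card_filter_not (s := Dst Γ g) (fun x => g (g x) ≠ x)
  have h2 : ((Dst Γ g).filter fun x => g (g x) ≠ x).card ≤
      (univ.filter fun x => g (g x) ≠ x).card :=
    card_le_card (filter_subset_filter _ (subset_univ _))
  have h3 : ((Dst Γ g).filter fun x => ¬ g (g x) ≠ x).card ≤ 2 * (meetc g (Dst Γ g)).card := by
    refine card_le_mul_card_image_of_maps_to (f := fun x => cls (Subgroup.closure {g}) x) ?_ 2 ?_
    · intro x hx
      have hx' := (mem_filter.1 hx).1
      show cls (Subgroup.closure {g}) x ∈ meetc g (Dst Γ g)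
      unfold meetc
      rw [mem_filter]
      exact ⟨cls_mem_comps x, x, mem_inter.2 ⟨self_mem_cls x, hx'⟩⟩
    · intro A _
      rcases (((Dst Γ g).filter fun x => ¬ g (g x) ≠ x).filter
          fun x => cls (Subgroup.closure {g}) x = A).eq_empty_or_nonempty with h4 | ⟨x, hx⟩
      · rw [h4]
        simp
      · obtain ⟨hx1, hx2⟩ := mem_filter.1 hx
        have hx3 := (mem_filter.1 hx1).2
        rw [not_not] at hx3
        have h5 : (((Dst Γ g).filter fun x => ¬ g (g x) ≠ x).filter
            fun x => cls (Subgroup.closure {g}) x = A) ⊆ {x, g x} := by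
          intro y hy
          have hy2 := (mem_filter.1 hy).2
          have hy3 : y ∈ cls (Subgroup.closure {g}) x := by
            rw [mem_cls_iff]
            exact hy2.trans hx2.symm
          have h6 := const_of_letters (P1 := {g}) (F := fun z => (z = x ∨ z = g x)) (by
            intro h hh z
            rw [Set.mem_singleton_iff] at hh
            subst hh
            show (h z = x ∨ h z = h x) = (z = x ∨ z = h x)
            apply propext
            constructor
            · rintro (h7 | h7)
              · right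
                apply h.injective
                rw [h7, hx3]
              · left
                exact h.injective h7
            · rintro (h7 | h7)
              · right
                rw [h7]
              · left
                rw [h7, hx3]) hy3
          have h7 : (y = x ∨ y = g x) = (x = x ∨ x = g x) := h6
          have h8 : y = x ∨ y = g x := by
            rw [h7]
            exact Or.inl rfl
          rw [mem_insert, mem_singleton]
          exact h8
        exact (card_le_card h5).trans card_le_two
  omega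

end Pool.Agent.SYT
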