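import Pool.Agent.SYT.NDT

/-! SYU-DescL: a near involution descends almost half of the pairs without fixed states. -/

set_option autoImplicit false

open Finset

namespace Pool.Agent.SYT

variable {V : Type} [Fintype V] [DecidableEq V] (S : Sys V)

/-- the pairs descended by `h` -/
def Sys.Dn (h : Equiv.Perm V) : Finset (V × V) :=
  (off V).filter fun p => S.wt (mv h p) + 1 = S.wt p

theorem desc_lower {h : Equiv.Perm V} (hh : h ∈ S.P) :
    Fintype.card V ^ 2 ≤ (univ.filter fun x => h x = x).card ^ 2 + 2 * (S.Dn h).card +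
      4 * Fintype.card V + 6 * S.d +
      4 * (univ.filter fun x => h (h x) ≠ x).card * Fintype.card V := by
  classical
  set Γ := Subgroup.closure ({h} : Set (Equiv.Perm V)) with hΓ
  have hhΓ : h ∈ Γ := Subgroup.subset_closure rfl
  have hP : ({h} : Set (Equiv.Perm V)) ⊆ S.P := Set.singleton_subset_iff.2 hh
  have hnd := nd_total S hP
  rw [← hΓ] at hnd
  obtain ⟨n, hn⟩ : ∃ n, n = Fintype.card V := ⟨_, rfl⟩
  have hpos : ∀ Y ∈ comps Γ, 1 ≤ Y.card := by
    intro Y hY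
    obtain ⟨x, hx, -⟩ := exists_rep hY
    exact card_pos.2 ⟨x, hx⟩
  obtain ⟨C1, hC1⟩ : ∃ C1, C1 = (comps Γ).filter fun Y => Y.card = 1 := ⟨_, rfl⟩
  obtain ⟨C2, hC2⟩ : ∃ C2, C2 = (comps Γ).filter fun Y => Y.card = 2 := ⟨_, rfl⟩
  obtain ⟨C3, hC3⟩ : ∃ C3, C3 = (comps Γ).filter fun Y => 3 ≤ Y.card := ⟨_, rfl⟩
  obtain ⟨m3, hm3⟩ : ∃ m3, m3 = ∑ Y ∈ C3, Y.card := ⟨_, rfl⟩
  have hr : (comps Γ).card = C1.card + C2.card + C3.card := by
    rw [hC1, hC2, hC3, card_filter, card_filter, card_filter, ← sum_add_distrib, ← sum_add_distrib,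
      card_eq_sum_ones]
    refine sum_congr rfl fun Y hY => ?_
    have := hpos Y hY
    split_ifs <;> omega
  have hmass : n = C1.card + 2 * C2.card + m3 := by
    rw [hn, ← sum_card_comps (Γ := Γ), hm3, hC3, hC1, hC2, card_filter, card_filter, sum_filter,
      mul_sum, ← sum_add_distrib, ← sum_add_distrib]
    refine sum_congr rfl fun Y hY => ?_
    have := hpos Y hY
    split_ifs <;> omega
  have h3 : 3 * C3.card ≤ m3 := by
    rw [hm3, mul_comm, ← smul_eq_mul, ← sum_const]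
    refine sum_le_sum fun Y hY => ?_
    rw [hC3] at hY
    exact (mem_filter.1 hY).2
  have hsd : C1.card * C2.card ≤ sd Γ := by
    have h5 : ∑ Y ∈ C2, ∑ Y' ∈ C1, (Y.card - Y'.card) ≤ sd Γ := by
      unfold sd
      refine (sum_le_sum fun Y _ => sum_le_sum_of_subset (f := fun Y' => Y.card - Y'.card)
        (s := C1) (t := comps Γ) ?_).trans ?_
      · rw [hC1]
        exact filter_subset _ _
      · refine sum_le_sum_of_subset ?_
        rw [hC2]
        exact filter_subset _ _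
    refine le_trans (le_of_eq ?_) h5
    have h6 : ∀ Y ∈ C2, ∑ Y' ∈ C1, (Y.card - Y'.card) = C1.card := by
      intro Y hY
      rw [hC2] at hY
      have h7 := (mem_filter.1 hY).2
      rw [card_eq_sum_ones C1]
      refine sum_congr rfl fun Y' hY' => ?_
      rw [hC1] at hY'
      have h8 := (mem_filter.1 hY').2
      omega
    rw [sum_congr rfl h6, sum_const, smul_eq_mul, mul_comm]
  have hfil : ∀ (P : ℕ → Prop) [DecidablePred P],
      ∑ Y ∈ (comps Γ).filter (fun Y => P Y.card), Y.card =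
        (univ.filter fun x => P (cls Γ x).card).card := by
    intro P _
    rw [sum_filter, card_filter, ← sum_comps (Γ := Γ)]
    refine sum_congr rfl fun Y hY => ?_
    have h7 : ∀ x ∈ Y, (if P (cls Γ x).card then 1 else 0) = if P Y.card then 1 else 0 := by
      intro x hx
      rw [← eq_cls hY hx]
    rw [sum_congr rfl h7, sum_const, smul_eq_mul]
    split_ifs <;> simp
  have hφ : C1.card ≤ (univ.filter fun x => h x = x).card := by
    have h5 : C1.card = ∑ Y ∈ C1, Y.card := by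
      rw [card_eq_sum_ones]
      refine sum_congr rfl fun Y hY => ?_
      rw [hC1] at hY
      exact (mem_filter.1 hY).2.symm
    rw [h5, hC1, hfil (fun m => m = 1)]
    refine card_le_card fun x hx => ?_
    have h6 := (mem_filter.1 hx).2
    rw [mem_filter]
    refine ⟨mem_univ _, ?_⟩
    obtain ⟨y, hy⟩ := card_eq_one.1 h6
    have h7 : x ∈ cls Γ x := self_mem_cls x
    have h8 : h x ∈ cls Γ x := mem_cls.2 ⟨h, hhΓ, rfl⟩
    rw [hy, mem_singleton] at h7 h8
    rw [h8, h7]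
  have hψ : m3 ≤ (univ.filter fun x => h (h x) ≠ x).card := by
    rw [hm3, hC3, hfil (fun m => 3 ≤ m)]
    refine card_le_card fun x hx => ?_
    have h6 := (mem_filter.1 hx).2
    rw [mem_filter]
    refine ⟨mem_univ _, fun h7 => ?_⟩
    have h8 : cls Γ x ⊆ {x, h x} := by
      refine cls_sub (U := {x, h x}) ?_ (mem_insert_self _ _)
      intro g hg y hy
      rw [Set.mem_singleton_iff] at hg
      subst hg
      simp only [mem_insert, mem_singleton] at hy ⊢
      rcases hy with rfl | rfl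
      · exact Or.inr rfl
      · exact Or.inl h7
    have h9 := card_le_card h8
    have h10 := card_le_two (a := x) (b := h x)
    omega
  have hoff : n * (n - 1) ≤ 3 * S.d + (S.ND {h}).card + (S.Dn h).card := by
    have h5 : off V ⊆ (S.Coll ∪ S.ND {h}) ∪ S.Dn h := by
      intro p hp
      rw [mem_union, mem_union]
      by_cases h6 : p ∈ S.Coll
      · exact Or.inl (Or.inl h6)
      by_cases h7 : S.wt p ≤ S.wt (mv h p)
      · refine Or.inl (Or.inr ((mem_ND S).2 ⟨mem_off.1 hp, h6, fun g hg => ?_⟩))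
        rw [Set.mem_singleton_iff] at hg
        rw [hg]
        exact h7
      · right
        refine mem_filter.2 ⟨hp, ?_⟩
        have := wt_step S hh p
        omega
    have h6 := card_le_card h5
    rw [card_off, ← hn] at h6
    have h7 := card_union_le (S.Coll ∪ S.ND {h}) (S.Dn h)
    have h8 := card_union_le S.Coll (S.ND {h})
    have h9 := card_coll S
    omega
  rw [← hn] at hnd ⊢
  rw [hr] at hnd
  obtain ⟨c1, hc1⟩ : ∃ c1, c1 = C1.card := ⟨_, rfl⟩
  obtain ⟨c2, hc2⟩ : ∃ c2, c2 = C2.card := ⟨_, rfl⟩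
  obtain ⟨c3, hc3⟩ : ∃ c3, c3 = C3.card := ⟨_, rfl⟩
  obtain ⟨N, hN⟩ : ∃ N, N = (S.ND {h}).card := ⟨_, rfl⟩
  obtain ⟨Q, hQ⟩ : ∃ Q, Q = (S.Dn h).card := ⟨_, rfl⟩
  obtain ⟨φ, hφ'⟩ : ∃ φ, φ = (univ.filter fun x => h x = x).card := ⟨_, rfl⟩
  obtain ⟨ψ, hψ'⟩ : ∃ ψ, ψ = (univ.filter fun x => h (h x) ≠ x).card := ⟨_, rfl⟩
  rw [← hc1, ← hc2, ← hc3, ← hN] at hnd
  rw [← hc1, ← hc2] at hmass hsd
  rw [← hc3] at h3
  rw [← hc1, ← hφ'] at hφ
  rw [← hψ'] at hψ
  rw [← hN, ← hQ] at hoff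
  rw [← hφ', ← hψ', ← hQ]
  have k1 : 2 * N + 2 * (c1 * c2) ≤ 2 * ((c1 + c2 + c3 + 1) * n) := by omega
  have k2 : 2 * ((c1 + c2 + c3 + 1) * n) ≤ n ^ 2 + c1 ^ 2 + 2 * n + m3 * n + 2 * (c1 * c2) := by
    rw [hmass]
    nlinarith [Nat.mul_le_mul_right (c1 + 2 * c2 + m3) h3, Nat.zero_le (c3 * (c1 + 2 * c2 + m3)),
      Nat.zero_le (m3 * c2), Nat.zero_le (m3 * m3)]
  have k3 : c1 ^ 2 ≤ φ ^ 2 := Nat.pow_le_pow_left hφ 2
  have k4 : m3 * n ≤ ψ * n := Nat.mul_le_mul_right _ hψ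
  have k5 : n * (n - 1) + n = n ^ 2 := by
    rcases Nat.eq_zero_or_pos n with h0 | h0
    · rw [h0]
      rfl
    · obtain ⟨k, rfl⟩ : ∃ k, n = k + 1 := ⟨n - 1, by omega⟩
      rw [Nat.add_sub_cancel]
      ring
  have k6 : 4 * ψ * n = 4 * (ψ * n) := by ring
  rw [k6]
  omega

end Pool.Agent.SYT
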