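import Pool.Agent.SYU.DescL

/-!
# SYU-DescU: pairs descended by two near involutions

Project SYU (MP_a3a126_co), paper proof in /team-store/a3a126b_87.md, section D5 (classification).

Let `p ∈ Dn f ∩ Dn h`. If `p ∉ Pre`: `mv h p = mv f p` or `mv h p = (mv f p).swap` (`pre_single`). In the second case `h p.1 = f p.2`, so
`p.2` is determined by `p.1`: `≤ n` pairs. In the first case both states are in `A = {x : f x = h x}`. Let
`A' = {x ∈ A : f (f x) = x, h (h x) = x}`; `|A \ A'| ≤ ψf + ψh` where `ψf = #{x : f (f x) ≠ x}`. `A'` is mapped into itself by `f`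
(`y = f x = h x`: `f y = x = h y`), and `f` is an involution on it. If `p ∈ A' × A'` is in `Dn f` then `mv f p` is not (`wt (mv f (mv f p)) = wt p >
wt (mv f p)`), so at most half of `A' × A'` is in `Dn f`. Pairs of `A × A` with a state in `A \ A'`: `≤ 2 (ψf + ψh) n`. `|Pre| ≤ 3 d`.
-/

set_option autoImplicit false

open Finset

namespace Pool.Agent.SYT

variable {V : Type} [Fintype V] [DecidableEq V] (S : Sys V)

theorem both_upper {f h : Equiv.Perm V} (hf : f ∈ S.P) (hh : h ∈ S.P) :
    2 * (S.Dn f ∩ S.Dn h).card ≤ (univ.filter fun x => f x = h x).card ^ 2 +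
      2 * Fintype.card V + 6 * S.d +
      4 * ((univ.filter fun x => f (f x) ≠ x).card + (univ.filter fun x => h (h x) ≠ x).card) *
        Fintype.card V := by
  classical
  set A : Finset V := univ.filter fun x => f x = h x with hA
  set Bf : Finset V := univ.filter fun x => f (f x) ≠ x with hBf
  set Bh : Finset V := univ.filter fun x => h (h x) ≠ x with hBh
  set A' : Finset V := A.filter fun x => f (f x) = x ∧ h (h x) = x with hA'
  set W : Finset (V × V) := (A' ×ˢ A').filter fun p => p ∈ S.Dn f with hW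
  -- the pairs of two good states
  have hmA : ∀ x, x ∈ A' ↔ f x = h x ∧ f (f x) = x ∧ h (h x) = x := by
    intro x
    simp [hA', hA]
  have hcl : ∀ x, x ∈ A' → f x ∈ A' := by
    intro x hx
    rw [hmA] at hx ⊢
    obtain ⟨h1, h2, h3⟩ := hx
    rw [← h1] at h3
    exact ⟨by rw [h2, h3], by rw [h2], by rw [h3, h1]⟩
  have hWc : 2 * W.card ≤ A.card ^ 2 := by
    have hinj : (W.image (mv f)).card = W.card :=
      card_image_of_injective _ (mv_injective f)
    have hdisj : Disjoint W (W.image (mv f)) := by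
      rw [disjoint_left]
      intro q hq1 hq2
      obtain ⟨p, hp, rfl⟩ := mem_image.1 hq2
      rw [hW, mem_filter, mem_product] at hq1 hp
      have e1 : mv f (mv f p) = p := by
        have a1 := ((hmA _).1 hp.1.1).2.1
        have a2 := ((hmA _).1 hp.1.2).2.1
        exact Prod.ext a1 a2
      have e2 := (mem_filter.1 hq1.2).2
      have e3 := (mem_filter.1 hp.2).2
      rw [e1] at e2
      omega
    have hsub : W ∪ W.image (mv f) ⊆ A' ×ˢ A' := by
      intro q hq
      rcases mem_union.1 hq with hq | hq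
      · exact (mem_filter.1 hq).1
      · obtain ⟨p, hp, rfl⟩ := mem_image.1 hq
        have hp' := mem_product.1 (mem_filter.1 hp).1
        exact mem_product.2 ⟨hcl _ hp'.1, hcl _ hp'.2⟩
    have hc := card_le_card hsub
    rw [card_union_of_disjoint hdisj, hinj, card_product] at hc
    have hAA : A'.card ≤ A.card := card_le_card (filter_subset _ _)
    calc 2 * W.card = W.card + W.card := by ring
      _ ≤ A'.card * A'.card := hc
      _ ≤ A.card * A.card := Nat.mul_le_mul hAA hAA
      _ = A.card ^ 2 := by ring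
  -- the cover
  have hcover : S.Dn f ∩ S.Dn h ⊆ S.Pre ∪ (univ.image (fun x : V => (x, f.symm (h x)))) ∪ W ∪
      ((Bf ∪ Bh) ×ˢ univ ∪ univ ×ˢ (Bf ∪ Bh)) := by
    intro p hp
    rw [mem_inter] at hp
    obtain ⟨hpf, hph⟩ := hp
    have hoff : p.1 ≠ p.2 := mem_off.1 (mem_filter.1 hpf).1
    have wf := (mem_filter.1 hpf).2
    have wh := (mem_filter.1 hph).2
    by_cases hpre : p ∈ S.Pre
    · simp [hpre]
    rcases pre_single S hoff hpre (mv_off.2 hoff) (mv_off.2 hoff) wf wh with e | e
    · -- both states in A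
      have e1 : h p.1 = f p.1 := congrArg Prod.fst e
      have e2 : h p.2 = f p.2 := congrArg Prod.snd e
      by_cases hb : p.1 ∈ Bf ∪ Bh ∨ p.2 ∈ Bf ∪ Bh
      · refine mem_union_right _ (mem_union.2 ?_)
        rcases hb with hb | hb
        · exact Or.inl (mem_product.2 ⟨hb, mem_univ _⟩)
        · exact Or.inr (mem_product.2 ⟨mem_univ _, hb⟩)
      · push Not at hb
        refine mem_union_left _ (mem_union_right _ ?_)
        rw [hW, mem_filter, mem_product, hmA, hmA]
        have b1 := hb.1
        have b2 := hb.2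
        simp only [hBf, hBh, mem_union, mem_filter, mem_univ, true_and, not_or, not_not] at b1 b2
        exact ⟨⟨⟨e1.symm, b1.1, b1.2⟩, ⟨e2.symm, b2.1, b2.2⟩⟩, hpf⟩
    · refine mem_union_left _ (mem_union_left _ (mem_union_right _ ?_))
      refine mem_image.2 ⟨p.1, mem_univ _, ?_⟩
      have e1 : h p.1 = f p.2 := congrArg Prod.fst e
      refine Prod.ext rfl ?_
      show f.symm (h p.1) = p.2
      rw [e1, Equiv.symm_apply_apply]
  have hc := card_le_card hcover
  have c1 := card_union_le (S.Pre ∪ (univ.image (fun x : V => (x, f.symm (h x)))) ∪ W)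
    ((Bf ∪ Bh) ×ˢ univ ∪ univ ×ˢ (Bf ∪ Bh))
  have c2 := card_union_le (S.Pre ∪ (univ.image (fun x : V => (x, f.symm (h x))))) W
  have c3 := card_union_le S.Pre (univ.image (fun x : V => (x, f.symm (h x))))
  have c4 : (univ.image (fun x : V => (x, f.symm (h x)))).card ≤ Fintype.card V :=
    card_image_le.trans (by rw [card_univ])
  have c5 := card_union_le ((Bf ∪ Bh) ×ˢ (univ : Finset V)) ((univ : Finset V) ×ˢ (Bf ∪ Bh))
  have c6 : ((Bf ∪ Bh) ×ˢ (univ : Finset V)).card = (Bf ∪ Bh).card * Fintype.card V := by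
    rw [card_product, card_univ]
  have c7 : ((univ : Finset V) ×ˢ (Bf ∪ Bh)).card = (Bf ∪ Bh).card * Fintype.card V := by
    rw [card_product, card_univ, mul_comm]
  have c8 : (Bf ∪ Bh).card * Fintype.card V ≤ (Bf.card + Bh.card) * Fintype.card V :=
    Nat.mul_le_mul_right _ (card_union_le _ _)
  have c9 := card_pre S
  have c10 : 4 * (Bf.card + Bh.card) * Fintype.card V =
      4 * ((Bf.card + Bh.card) * Fintype.card V) := by ring
  rw [c10]
  omega

end Pool.Agent.SYT
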