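import Pool.Agent.SYU.PDefs

/-!
# SYU-PCyc: the alternating walk on a path
-/

set_option autoImplicit false

open Finset Helper41.Circ

namespace Pool.Agent.SYP

variable {n : ℕ} {f g : Fin n → Fin n}

private def pc_T (f g : Fin n → Fin n) (hf : ∀ x, f (f x) = x) (hg : ∀ x, g (g x) = x) :
    Equiv.Perm (Fin n × Bool) where
  toFun p := if p.2 then (g p.1, false) else (f p.1, true)
  invFun p := if p.2 then (f p.1, false) else (g p.1, true)
  left_inv := by
    rintro ⟨x, b⟩
    cases b
    · simp [hf]
    · simp [hg]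
  right_inv := by
    rintro ⟨x, b⟩
    cases b
    · simp [hg]
    · simp [hf]

private theorem pc_pow (h : PathP f g) (x : Fin n) (i : ℕ) :
    (pc_T f g h.ff h.gg ^ i) (x, false) = (act (aln f g i) x, decide (i % 2 = 1)) := by
  induction i with
  | zero => rfl
  | succ i ih =>
    rw [pow_succ', Equiv.Perm.mul_apply, ih, act_aln_succ]
    unfold al
    rcases Nat.mod_two_eq_zero_or_one i with h0 | h0
    · have h1 : (i + 1) % 2 = 1 := by omega
      rw [if_pos h0, h0, h1]
      rfl
    · have h1 : (i + 1) % 2 = 0 := by omega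
      rw [if_neg (by omega), h0, h1]
      rfl

private theorem pc_cyc (h : PathP f g) :
    (pc_T f g h.ff h.gg).IsCycleOn ((univ : Finset (Fin n × Bool)) : Set (Fin n × Bool)) := by
  classical
  obtain ⟨z, hz⟩ := h.fx
  set T := pc_T f g h.ff h.gg with hT
  have h0 : ∀ x, T (x, false) = (f x, true) := fun x => rfl
  have h1 : ∀ x, T (x, true) = (g x, false) := fun x => rfl
  have hs : ∀ p, T.SameCycle p (T p) := fun p => ⟨1, by rw [zpow_one]⟩
  have hzt : T.SameCycle (z, false) (z, true) := by
    have h2 := hs (z, true)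
    rw [h1, hz] at h2
    exact h2.symm
  have hU : (univ.filter fun x => T.SameCycle (z, false) (x, false) ∧
      T.SameCycle (z, false) (x, true)) = univ := by
    refine h.tr _ ⟨z, mem_filter.2 ⟨mem_univ _, Equiv.Perm.SameCycle.refl _ _, hzt⟩⟩ fun x hx => ?_
    obtain ⟨-, h2, h3⟩ := mem_filter.1 hx
    refine ⟨mem_filter.2 ⟨mem_univ _, ?_, ?_⟩, mem_filter.2 ⟨mem_univ _, ?_, ?_⟩⟩
    · have h4 := hs (f x, false)
      rw [h0, h.ff] at h4
      exact h3.trans h4.symm
    · have h4 := hs (x, false)
      rw [h0] at h4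
      exact h2.trans h4
    · have h4 := hs (x, true)
      rw [h1] at h4
      exact h3.trans h4
    · have h4 := hs (g x, true)
      rw [h1, h.gg] at h4
      exact h2.trans h4.symm
  have hall : ∀ p, T.SameCycle (z, false) p := by
    rintro ⟨x, b⟩
    have h2 : x ∈ univ.filter fun x => T.SameCycle (z, false) (x, false) ∧
        T.SameCycle (z, false) (x, true) := by
      rw [hU]
      exact mem_univ _
    cases b
    · exact (mem_filter.1 h2).2.1
    · exact (mem_filter.1 h2).2.2
  refine ⟨?_, fun p _ q _ => (hall p).symm.trans (hall q)⟩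
  rw [coe_univ]
  exact Set.bijOn_univ.2 T.bijective

private theorem pc_card : (univ : Finset (Fin n × Bool)).card = 2 * n := by
  rw [card_univ, Fintype.card_prod, Fintype.card_fin, Fintype.card_bool, mul_comm]

private theorem pc_ex (h : PathP f g) (x y : Fin n) (b : Bool) :
    ∃ i < 2 * n, act (aln f g i) x = y ∧ decide (i % 2 = 1) = b := by
  obtain ⟨i, hi, h1⟩ := (pc_cyc h).exists_pow_eq (mem_univ (x, false)) (mem_univ (y, b))
  rw [pc_card] at hi
  rw [pc_pow h] at h1
  exact ⟨i, hi, congrArg Prod.fst h1, congrArg Prod.snd h1⟩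

private theorem pc_uniq (h : PathP f g) (x : Fin n) {i j : ℕ} (hi : i < 2 * n) (hj : j < 2 * n)
    (h1 : act (aln f g i) x = act (aln f g j) x) (h2 : i % 2 = j % 2) : i = j := by
  have h3 : (pc_T f g h.ff h.gg ^ i) (x, false) = (pc_T f g h.ff h.gg ^ j) (x, false) := by
    rw [pc_pow h, pc_pow h, h1, h2]
  rw [(pc_cyc h).pow_apply_eq_pow_apply (mem_univ (x, false)), pc_card] at h3
  exact Nat.ModEq.eq_of_lt_of_lt h3 hi hj

theorem hit_two (h : PathP f g) (x y : Fin n) :
    ((range (2 * n)).filter fun i => act (aln f g i) x = y).card = 2 := by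
  obtain ⟨i, hi, h1, h2⟩ := pc_ex h x y false
  obtain ⟨j, hj, h3, h4⟩ := pc_ex h x y true
  have h2' : i % 2 = 0 := by
    have := of_decide_eq_false h2
    omega
  have h4' : j % 2 = 1 := of_decide_eq_true h4
  have hij : i ≠ j := by
    rintro rfl
    omega
  have he : ((range (2 * n)).filter fun i => act (aln f g i) x = y) = {i, j} := by
    ext k
    rw [mem_filter, mem_range, mem_insert, mem_singleton]
    constructor
    · rintro ⟨hk, h5⟩
      rcases Nat.mod_two_eq_zero_or_one k with h6 | h6
      · left
        exact pc_uniq h x hk hi (h5.trans h1.symm) (by omega)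
      · right
        exact pc_uniq h x hk hj (h5.trans h3.symm) (by omega)
    · rintro (rfl | rfl)
      · exact ⟨hi, h1⟩
      · exact ⟨hj, h3⟩
  rw [he, card_pair hij]

/-- the walk from the fixed point returns -/
private theorem pc_sym (h : PathP f g) {z : Fin n} (hz : g z = z) (hn : 0 < n) (i : ℕ)
    (hi : i ≤ 2 * n - 1) : act (aln f g (2 * n - 1 - i)) z = act (aln f g i) z := by
  induction i with
  | zero =>
    rw [Nat.sub_zero]
    obtain ⟨k, hk, h1, h2⟩ := pc_ex h z z true
    have h2' : k % 2 = 1 := of_decide_eq_true h2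
    have h3 : act (aln f g (k + 1)) z = act (aln f g 0) z := by
      rw [act_aln_succ, h1]
      unfold al
      rw [if_neg (by omega), hz]
      rfl
    by_cases h4 : k + 1 < 2 * n
    · have h5 := pc_uniq h z h4 (by omega) h3 (by omega)
      omega
    · have h5 : k = 2 * n - 1 := by omega
      rw [← h5, h1]
      rfl
  | succ i ih =>
    have h1 := ih (by omega)
    have h2 : 2 * n - 1 - i = (2 * n - 1 - (i + 1)) + 1 := by omega
    rw [h2, act_aln_succ] at h1
    rw [act_aln_succ, ← h1]
    have h3 : al f g i = al f g (2 * n - 1 - (i + 1)) := by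
      unfold al
      have h4 : i % 2 = (2 * n - 1 - (i + 1)) % 2 := by omega
      rw [h4]
    rw [h3]
    unfold al
    split_ifs
    · rw [h.ff]
    · rw [h.gg]

theorem path_cover (h : PathP f g) {z : Fin n} (hz : g z = z) (y : Fin n) :
    ∃ i < n, act (aln f g i) z = y := by
  obtain ⟨i, hi, h1, -⟩ := pc_ex h z y false
  by_cases h2 : i < n
  · exact ⟨i, h2, h1⟩
  · refine ⟨2 * n - 1 - i, by omega, ?_⟩
    rw [pc_sym h hz (by omega) i (by omega), h1]

theorem path_inj (h : PathP f g) {z : Fin n} (hz : g z = z) {i j : ℕ} (hi : i < n) (hj : j < n)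
    (hij : act (aln f g i) z = act (aln f g j) z) : i = j := by
  by_contra hne
  have h1 := hit_two h z (act (aln f g j) z)
  have h2 : ({i, j, 2 * n - 1 - i} : Finset ℕ) ⊆
      (range (2 * n)).filter fun k => act (aln f g k) z = act (aln f g j) z := by
    intro k hk
    rw [mem_insert, mem_insert, mem_singleton] at hk
    rw [mem_filter, mem_range]
    rcases hk with rfl | rfl | rfl
    · exact ⟨by omega, hij⟩
    · exact ⟨by omega, rfl⟩
    · exact ⟨by omega, by rw [pc_sym h hz (by omega) i (by omega), hij]⟩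
  have h3 := card_le_card h2
  have h4 : ({i, j, 2 * n - 1 - i} : Finset ℕ).card = 3 := by
    rw [card_insert_of_notMem, card_insert_of_notMem, card_singleton]
    · rw [mem_singleton]
      omega
    · rw [mem_insert, mem_singleton]
      omega
  omega

/-- at the other end of the path -/
theorem path_end (h : PathP f g) {z : Fin n} (hz : g z = z) (hn : 0 < n) :
    act (aln f g n) z = act (aln f g (n - 1)) z := by
  have h1 := pc_sym h hz hn (n - 1) (by omega)
  have h2 : 2 * n - 1 - (n - 1) = n := by omega
  rw [h2] at h1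
  exact h1

end Pool.Agent.SYP
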