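import Pool.Agent.SYU.PExtend
import Pool.Agent.SYU.PCyc

/-!
# SYU-PMain: triples, path type

Project SYU (MP_a3a126_co). Words with large fibres from the extension lemma, and an average over the alternating words.
-/

set_option autoImplicit false

open Finset Helper41.Circ

namespace Pool.Agent.SYP

variable {n : ℕ} {f g : Fin n → Fin n} {Ω : Finset (Fin n → Fin n)}

private theorem pm_over (hf : f ∈ Ω) (hg : g ∈ Ω) (i : ℕ) : Over Ω (aln f g i) := by
  induction i with
  | zero =>
    intro a ha
    simp [aln] at ha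
  | succ i ih =>
    intro a ha
    rcases List.mem_append.1 (show a ∈ aln f g i ++ [al f g i] from ha) with h | h
    · exact ih a h
    · rw [List.mem_singleton.1 h]
      unfold al
      split_ifs
      · exact hf
      · exact hg

private theorem pm_len (i : ℕ) : (aln f g i).length = i := by
  induction i with
  | zero => rfl
  | succ i ih =>
    show (aln f g i ++ [al f g i]).length = i + 1
    rw [List.length_append, ih, List.length_singleton]

/-- words with large fibres -/
private theorem pm_fibres (h : PathP f g) (hf : f ∈ Ω) (hg : g ∈ Ω) (hfg : f ≠ g)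
    {r : List (Fin n → Fin n)} (hr : Over Ω r) {q : Fin n} (hrq : ∀ x, act r x = q) (m : ℕ) (hm2 : 2 ≤ m)
    (hmn : m ≤ n) : ∃ v, Over Ω v ∧ v.length ≤ (m - 2) * (n + 1) + 1 ∧ ∃ p, m ≤ (pre v {p}).card := by
  classical
  induction m, hm2 using Nat.le_induction with
  | base =>
    have hex : ∃ g ∈ Ω, ¬ Function.Injective g := by
      by_contra hcon
      push Not at hcon
      have h1 : ∀ w, Over Ω w → Function.Injective (act w) := by
        intro w
        induction w with
        | nil => intro _ x y h; exact h
        | cons a w ih =>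
          intro hw x y h
          rw [act_cons, act_cons] at h
          exact hcon a (hw a (by simp)) (ih (fun f hf => hw f (by simp [hf])) h)
      have h2 := h1 r hr
      have h3 : (⟨0, by omega⟩ : Fin n) = ⟨1, by omega⟩ := h2 (by rw [hrq, hrq])
      simp at h3
    obtain ⟨a, ha, hinj⟩ := hex
    rw [Function.Injective] at hinj
    push Not at hinj
    obtain ⟨x, y, hxy, hne⟩ := hinj
    refine ⟨[a], ?_, by simp, a x, ?_⟩
    · intro c hc
      rw [List.mem_singleton] at hc
      rw [hc]; exact ha
    · have h1 : ({x, y} : Finset (Fin n)) ⊆ pre [a] {a x} := by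
        intro z hz
        rw [mem_pre, mem_singleton]
        rcases mem_insert.1 hz with h | h
        · rw [h]; rfl
        · rw [mem_singleton.1 h]
          show a y = a x
          exact hxy.symm
      have h2 := card_le_card h1
      rwa [card_pair hne] at h2
  | succ m hm ih =>
    obtain ⟨v, hv, hlen, p, hp⟩ := ih (by omega)
    have hmul : (m + 1 - 2) * (n + 1) = (m - 2) * (n + 1) + (n + 1) := by
      have h1 : m + 1 - 2 = (m - 2) + 1 := by omega
      rw [h1, Nat.add_mul, one_mul]
    rcases Nat.lt_or_ge m (pre v {p}).card with h5 | h5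
    · exact ⟨v, hv, by omega, p, h5⟩
    · obtain ⟨u, hu, hulen, hu2⟩ := extendP h hf hg hfg hr hrq (S := pre v {p}) (by omega) (by omega)
      refine ⟨u ++ v, hu.append hv, ?_, p, ?_⟩
      · rw [List.length_append]
        omega
      · rw [pre_append]; omega

/-- averaging over the alternating words -/
private theorem pm_avg (h : PathP f g) (T S : Finset (Fin n)) (hT : T.card = 3) (hS : 2 * n < 3 * S.card) :
    ∃ i < 2 * n, ∀ x ∈ T, act (aln f g i) x ∈ S := by
  classical
  by_contra hcon
  push Not at hcon
  have h0 : ∀ x, ∑ i ∈ range (2 * n), (if act (aln f g i) x ∈ S then 1 else 0) = 2 * S.card := by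
    intro x
    have h1 : ∀ i, (if act (aln f g i) x ∈ S then 1 else 0) =
        ∑ y ∈ S, if act (aln f g i) x = y then 1 else 0 := by
      intro i
      rw [sum_ite_eq]
    rw [sum_congr rfl fun i _ => h1 i, sum_comm, sum_congr rfl fun y _ => (card_filter _ _).symm,
      sum_congr rfl fun y _ => hit_two h x y, sum_const, smul_eq_mul, mul_comm]
  have h1 : ∑ i ∈ range (2 * n), (T.filter fun x => act (aln f g i) x ∈ S).card = 6 * S.card := by
    simp_rw [card_filter]
    rw [sum_comm, sum_congr rfl fun x _ => h0 x, sum_const, hT, smul_eq_mul]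
    ring
  have h2 : ∑ i ∈ range (2 * n), (T.filter fun x => act (aln f g i) x ∈ S).card ≤ ∑ _i ∈ range (2 * n), 2 := by
    refine sum_le_sum fun i hi => ?_
    obtain ⟨x, hx, hxS⟩ := hcon i (mem_range.1 hi)
    have h3 : (T.filter fun x => act (aln f g i) x ∈ S) ⊂ T := by
      refine (filter_subset _ _).ssubset_of_ne fun h4 => hxS ?_
      rw [← h4] at hx
      exact (mem_filter.1 hx).2
    have h4 := card_lt_card h3
    omega
  rw [h1, sum_const, card_range, smul_eq_mul] at h2
  omega

theorem mainP (h : PathP f g) (hf : f ∈ Ω) (hg : g ∈ Ω) (hfg : f ≠ g)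
    {r : List (Fin n → Fin n)} (hr : Over Ω r) {q : Fin n} (hrq : ∀ x, act r x = q)
    {x y z : Fin n} (hc : ({x, y, z} : Finset (Fin n)).card = 3) :
    ∃ w, Over Ω w ∧ 3 * w.length ≤ 2 * n ^ 2 + 5 * n ∧ act w x = act w y ∧ act w x = act w z := by
  classical
  have hn : 3 ≤ n := by
    have h1 := card_le_univ ({x, y, z} : Finset (Fin n))
    rw [hc, Fintype.card_fin] at h1
    exact h1
  obtain ⟨v, hv, hlen, p, hp⟩ := pm_fibres h hf hg hfg hr hrq (2 * n / 3 + 1) (by omega) (by omega)
  obtain ⟨i, hi, hT⟩ := pm_avg h {x, y, z} (pre v {p}) hc (by omega)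
  have hval : ∀ t ∈ ({x, y, z} : Finset (Fin n)), act (aln f g i ++ v) t = p := by
    intro t ht
    have h1 := hT t ht
    rw [mem_pre, mem_singleton] at h1
    rw [act_append]
    exact h1
  refine ⟨aln f g i ++ v, (pm_over hf hg i).append hv, ?_, ?_, ?_⟩
  · rw [List.length_append, pm_len]
    obtain ⟨k, hk⟩ : ∃ k, 2 * n / 3 = k + 1 := ⟨2 * n / 3 - 1, by omega⟩
    have h1 : 2 * n / 3 + 1 - 2 = k := by omega
    rw [h1] at hlen
    have h2 : 3 * (k + 1) ≤ 2 * n := by omega
    have h3 : i + 1 ≤ 2 * n := hi
    nlinarith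
  · rw [hval x (by simp), hval y (by simp)]
  · rw [hval x (by simp), hval z (by simp)]

end Pool.Agent.SYP
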