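import Pool.Agent.SYT.Fin
import Pool.Agent.SYU.CoreT
import Pool.Agent.SYU.PMain

/-!
# SYU-FinU: triples in automata with transitive permutation letters

Project SYU (MP_a3a126_co).
-/

set_option autoImplicit false

open Finset

namespace Pool.Agent.SYT

open Pool.Agent.WD

variable {V : Type} [Fintype V] [DecidableEq V]

private theorem finu_greedy {Ω : Set (V → V)} (hs : Sync Ω) (x y z : V) :
    ∃ w, Over Ω w ∧ w.length ≤ 2 * top Ω ∧ act w x = act w y ∧ act w x = act w z := by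
  obtain ⟨u, u1, u2, u3⟩ := exists_merge hs x y
  obtain ⟨v, v1, v2, v3⟩ := exists_merge hs (act u x) (act u z)
  have h1 := lev_le_top Ω x y
  have h2 := lev_le_top Ω (act u x) (act u z)
  refine ⟨u ++ v, over_append.2 ⟨u1, v1⟩, ?_, ?_, ?_⟩
  · rw [List.length_append, u2, v2]
    omega
  · rw [act_append, act_append, u3]
  · rw [act_append, act_append, v3]

private theorem finu_path {n : ℕ} {f g : Equiv.Perm (Fin n)} (hff : ∀ x, f (f x) = x)
    (hgg : ∀ x, g (g x) = x)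
    (htr : ∀ x y, y ∈ cls (Subgroup.closure ({f, g} : Set (Equiv.Perm (Fin n)))) x)
    (hz : ∃ z, g z = z) : Pool.Agent.SYP.PathP (n := n) f g := by
  refine ⟨hff, hgg, fun U hU hcl => ?_, hz⟩
  obtain ⟨x, hx⟩ := hU
  rw [eq_univ_iff_forall]
  intro y
  have h1 : cls (Subgroup.closure ({f, g} : Set (Equiv.Perm (Fin n)))) x ⊆ U := by
    refine cls_sub (fun h hh z hz => ?_) hx
    rcases hh with rfl | hh
    · exact (hcl z hz).1
    · rw [Set.mem_singleton_iff] at hh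
      rw [hh]
      exact (hcl z hz).2
  exact h1 (htr x y)

theorem triple_all : ∃ K' n0 : ℕ, 1 ≤ K' ∧ ∀ (n : ℕ) (Ω : Finset (Fin n → Fin n)),
    Sync (Ω : Set (Fin n → Fin n)) →
    (∀ x y : Fin n, ∃ u, Over (bij (Ω : Set (Fin n → Fin n))) u ∧ act u x = y) →
    ∀ x y z : Fin n, ({x, y, z} : Finset (Fin n)).card = 3 →
      ∃ w, Over (Ω : Set (Fin n → Fin n)) w ∧
      (w.length ≤ n0 * n ∨ 3 * w.length ≤ 2 * n ^ 2 + 5 * n ∨
        K' * w.length + n ^ 2 ≤ K' * n ^ 2) ∧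
      act w x = act w y ∧ act w x = act w z := by
  obtain ⟨G, K2, n2, hcore⟩ := core_two
  obtain ⟨K1, n1, hK1, htri⟩ := triple_nat G
  refine ⟨K1 + K2, n1 + n2, by omega, ?_⟩
  intro n Ω hs ht x y z hc3
  by_cases hf : ∃ f ∈ Ω, Function.Bijective f ∧
      n ≤ G * (univ.filter fun x => f (f x) ≠ x).card
  · obtain ⟨w, hw1, hw2, hw3⟩ := htri n Ω hs ht hf x y z hc3
    refine ⟨w, hw1, ?_, hw3⟩
    rcases hw2 with h | h | h
    · left
      exact h.trans (Nat.mul_le_mul_right _ (by omega))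
    · right; left
      omega
    · right; right
      have h1 : K1 * w.length ≤ K1 * n ^ 2 := by omega
      have h2 : w.length ≤ n ^ 2 := Nat.le_of_mul_le_mul_left h1 hK1
      have h3 : K2 * w.length ≤ K2 * n ^ 2 := Nat.mul_le_mul_left _ h2
      rw [add_mul, add_mul]
      omega
  push Not at hf
  have hne : Nonempty (Fin n) := ⟨x⟩
  obtain ⟨S, hS⟩ : ∃ S, S = ofAut (Ω : Set (Fin n → Fin n)) hs ht := ⟨_, rfl⟩
  have hM : S.M = top (Ω : Set (Fin n → Fin n)) := by rw [hS]; rfl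
  have h2M := two_M_add S
  rw [Fintype.card_fin] at h2M
  obtain ⟨w, hw1, hw2, hw3, hw4⟩ := finu_greedy hs x y z
  rw [← hM] at hw2
  have hnn : n * (n - 1) ≤ n ^ 2 := by
    rw [pow_two]; exact Nat.mul_le_mul_left _ (by omega)
  rcases Nat.lt_or_ge n (n1 + n2) with hn | hn
  · refine ⟨w, hw1, Or.inl ?_, hw3, hw4⟩
    have : n * n ≤ (n1 + n2) * n := Nat.mul_le_mul_right _ hn.le
    have : n ^ 2 = n * n := pow_two n
    omega
  rcases Nat.lt_or_ge (n ^ 2) ((K1 + K2) * S.d) with hd | hd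
  · refine ⟨w, hw1, Or.inr (Or.inr ?_), hw3, hw4⟩
    have h1 : (K1 + K2) * w.length + (K1 + K2) * S.d ≤ (K1 + K2) * n ^ 2 := by
      rw [← Nat.mul_add]
      exact Nat.mul_le_mul_left _ (by omega)
    omega
  have hinv : ∀ h ∈ S.P, G * (univ.filter fun x => h (h x) ≠ x).card ≤ Fintype.card (Fin n) := by
    intro h hh
    have h1 : (h : Fin n → Fin n) ∈ Ω := by rw [hS] at hh; exact hh
    rw [Fintype.card_fin]
    exact (hf h h1 h.bijective).le
  have hd2 : K2 * S.d ≤ n ^ 2 := by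
    rw [add_mul] at hd
    omega
  obtain ⟨f, hfP, g, hgP, hff, hgg, hfg, htr, hz⟩ := hcore (Fin n) S hinv
    (by rw [Fintype.card_fin]; omega) (by rw [Fintype.card_fin]; exact hd2)
  have hfΩ : (f : Fin n → Fin n) ∈ Ω := by rw [hS] at hfP; exact hfP
  have hgΩ : (g : Fin n → Fin n) ∈ Ω := by rw [hS] at hgP; exact hgP
  have hfg' : (f : Fin n → Fin n) ≠ g := fun h => hfg (DFunLike.coe_injective h)
  obtain ⟨r, hr, q, hq⟩ := hs
  obtain ⟨v, hv1, hv2, hv3, hv4⟩ := Pool.Agent.SYP.mainP (Ω := Ω) (finu_path hff hgg htr hz)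
    hfΩ hgΩ hfg' (r := r) (fun a ha => by simpa using hr a ha) hq hc3
  exact ⟨v, fun a ha => by simpa using hv1 a ha, Or.inr (Or.inl hv2), hv3, hv4⟩

end Pool.Agent.SYT
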