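import Pool.Agent.SYU.Nbr

/-!
# SYU-FreeD: free chains

Project SYU (MP_a3a126_co), paper proof in /team-store/a3a126b_87.md, section D2 (c).

`alt i` = `f` for even `i`, `g` for odd `i`. `Free ℓ v`: there are distinct states `c 0, …, c (2ℓ)` outside `E`, `c ℓ = v`,
consecutive ones are joined in both directions by the alternating letters `alt (ε + i)`.

* `ancestors`: `x` at distance exactly `m` from `E`: induction on `m`: `f x` or `g x` is in `Nb (m-1)` (and in no smaller
  one); two consecutive letters are different (if `c (i+1) = f (c i)` and `c (i+2) = f (c (i+1))` then `c (i+2) = c i`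
  as `c i ∉ E`, but the distances differ). So the letters are `alt (ε + i)`, `ε ∈ {0,1}`; the step is invertible by the same
  letter as `c i ∉ E` for `i < m`.
* `free_many`: let `C` be the component of an element of `E`. Every `x ∈ C` is in some `Nb m` (the union of the `Nb m` is
  closed, see `nb_grow`). For `x ∈ C \ Nb (2ℓ)`, at distance `m > 2ℓ`, take the ancestors `c`; `c 0, …, c (2ℓ)` are outside
  `E` and distinct (distances `m, m-1, …`), so `v = c ℓ` is `Free ℓ`. `x ↦ v` is injective: let `x'` have the same `v` (same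
  `m`), with `ε'`, `c'`. `c (ℓ+1) = alt (ε+ℓ) v`, `c (ℓ-1) = alt (ε+ℓ-1) v`, the same for `'`. If `ε + ε'` is odd then
  `c (ℓ+1) = c' (ℓ-1)`, but the distances are `m-ℓ-1` and `m-ℓ+1`; if even, go back from `v` with the same letters: `x = x'`.
  (`ℓ = 0` is trivial.)
-/

set_option autoImplicit false

open Finset

namespace Pool.Agent.SYT

variable {V : Type} [Fintype V] [DecidableEq V]

/-- alternating letters -/
def alt (f g : Equiv.Perm V) (i : ℕ) : Equiv.Perm V := if i % 2 = 0 then f else g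

/-- `v` is the middle of a free chain of radius `ℓ` -/
def Free (f g : Equiv.Perm V) (E : Finset V) (ℓ : ℕ) (v : V) : Prop :=
  ∃ (ε : ℕ) (c : ℕ → V), c ℓ = v ∧ (∀ i ≤ 2 * ℓ, c i ∉ E) ∧
    (∀ i ≤ 2 * ℓ, ∀ j ≤ 2 * ℓ, c i = c j → i = j) ∧
    ∀ i < 2 * ℓ, alt f g (ε + i) (c i) = c (i + 1) ∧ alt f g (ε + i) (c (i + 1)) = c i

variable {f g : Equiv.Perm V} {E : Finset V}

private theorem fd_even (f g : Equiv.Perm V) {i j : ℕ} (h : i % 2 = j % 2) :
    alt f g i = alt f g j := by
  unfold alt
  rw [h]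

/-- one more step -/
private theorem fd_step (hE : ∀ x, x ∉ E → f (f x) = x ∧ g (g x) = x) {m : ℕ} {x : V} {ε₀ : ℕ}
    (hε₀ : ε₀ < 2) (hx' : ∀ i < m + 1, x ∉ Nb f g E i) (hy : alt f g ε₀ x ∈ Nb f g E m)
    (ih : ∃ (ε : ℕ) (c : ℕ → V), ε < 2 ∧ c 0 = alt f g ε₀ x ∧ (∀ i ≤ m, c i ∈ Nb f g E (m - i)) ∧
      (∀ i ≤ m, ∀ k < m - i, c i ∉ Nb f g E k) ∧
      ∀ i < m, alt f g (ε + i) (c i) = c (i + 1) ∧ alt f g (ε + i) (c (i + 1)) = c i)
    (hx : x ∈ Nb f g E (m + 1)) :
    ∃ (ε : ℕ) (c : ℕ → V), ε < 2 ∧ c 0 = x ∧ (∀ i ≤ m + 1, c i ∈ Nb f g E (m + 1 - i)) ∧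
      (∀ i ≤ m + 1, ∀ k < m + 1 - i, c i ∉ Nb f g E k) ∧
      ∀ i < m + 1, alt f g (ε + i) (c i) = c (i + 1) ∧ alt f g (ε + i) (c (i + 1)) = c i := by
  obtain ⟨ε, c, hε, h0, h1, h2, h3⟩ := ih
  have hxE : x ∉ E := hx' 0 (Nat.succ_pos m)
  have hinv : alt f g ε₀ (alt f g ε₀ x) = x := by
    unfold alt
    split_ifs
    · exact (hE x hxE).1
    · exact (hE x hxE).2
  have hpar : ∀ i < m, (ε₀ + (i + 1)) % 2 = (ε + i) % 2 := by
    intro i hi
    have hm : 0 < m := by omega
    by_contra hne
    have he : ε₀ % 2 = ε % 2 := by omega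
    have h4 := (h3 0 hm).1
    rw [add_zero, h0, ← fd_even f g he, hinv] at h4
    have h5 := h1 1 hm
    rw [zero_add] at h4
    rw [← h4] at h5
    exact hx' (m - 1) (by omega) h5
  refine ⟨ε₀, fun i => if i = 0 then x else c (i - 1), hε₀, if_pos rfl, ?_, ?_, ?_⟩
  · intro i hi
    cases i with
    | zero =>
      show (if 0 = 0 then x else c (0 - 1)) ∈ _
      rw [if_pos rfl]
      exact hx
    | succ i =>
      show (if i + 1 = 0 then x else c (i + 1 - 1)) ∈ _
      rw [if_neg (Nat.succ_ne_zero i), Nat.add_sub_cancel]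
      have h := h1 i (by omega)
      have e : m + 1 - (i + 1) = m - i := by omega
      rw [e]
      exact h
  · intro i hi k hk
    cases i with
    | zero =>
      show (if 0 = 0 then x else c (0 - 1)) ∉ _
      rw [if_pos rfl]
      exact hx' k (by omega)
    | succ i =>
      show (if i + 1 = 0 then x else c (i + 1 - 1)) ∉ _
      rw [if_neg (Nat.succ_ne_zero i), Nat.add_sub_cancel]
      exact h2 i (by omega) k (by omega)
  · intro i hi
    cases i with
    | zero =>
      have e1 : (fun i => if i = 0 then x else c (i - 1)) 0 = x := if_pos rfl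
      have e2 : (fun i => if i = 0 then x else c (i - 1)) (0 + 1) = alt f g ε₀ x := by
        show (if 0 + 1 = 0 then x else c (0 + 1 - 1)) = _
        rw [if_neg (Nat.succ_ne_zero 0), Nat.add_sub_cancel, h0]
      rw [e1, e2, add_zero]
      exact ⟨rfl, hinv⟩
    | succ i =>
      have e1 : (fun i => if i = 0 then x else c (i - 1)) (i + 1) = c i := by
        show (if i + 1 = 0 then x else c (i + 1 - 1)) = _
        rw [if_neg (Nat.succ_ne_zero i), Nat.add_sub_cancel]
      have e2 : (fun i => if i = 0 then x else c (i - 1)) (i + 1 + 1) = c (i + 1) := by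
        show (if i + 1 + 1 = 0 then x else c (i + 1 + 1 - 1)) = _
        rw [if_neg (Nat.succ_ne_zero (i + 1)), Nat.add_sub_cancel]
      rw [e1, e2, fd_even f g (hpar i (by omega))]
      exact h3 i (by omega)

theorem ancestors (hE : ∀ x, x ∉ E → f (f x) = x ∧ g (g x) = x) {m : ℕ} {x : V}
    (hx : x ∈ Nb f g E m) (hx' : ∀ i < m, x ∉ Nb f g E i) :
    ∃ (ε : ℕ) (c : ℕ → V), ε < 2 ∧ c 0 = x ∧ (∀ i ≤ m, c i ∈ Nb f g E (m - i)) ∧
      (∀ i ≤ m, ∀ k < m - i, c i ∉ Nb f g E k) ∧
      ∀ i < m, alt f g (ε + i) (c i) = c (i + 1) ∧ alt f g (ε + i) (c (i + 1)) = c i := by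
  induction m generalizing x with
  | zero =>
    refine ⟨0, fun _ => x, by norm_num, rfl, ?_, ?_, ?_⟩
    · intro i hi
      rw [Nat.zero_sub]
      exact hx
    · intro i hi k hk
      omega
    · intro i hi
      omega
  | succ m ih =>
    have hsub : ∀ y : V, (∀ i, y ∈ Nb f g E i → x ∈ Nb f g E (i + 1)) → ∀ i < m, y ∉ Nb f g E i := by
      intro y hy i hi h
      exact hx' (i + 1) (by omega) (hy i h)
    rcases mem_Nb_succ.1 hx with h | h | h
    · exact absurd h (hx' m (Nat.lt_succ_self m))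
    · have e : alt f g 0 x = f x := by
        simp [alt]
      refine fd_step hE (ε₀ := 0) (by norm_num) hx' (by rw [e]; exact h) ?_ hx
      rw [e]
      exact ih h (hsub _ fun i hi => mem_Nb_succ.2 (Or.inr (Or.inl hi)))
    · have e : alt f g 1 x = g x := by
        simp [alt]
      refine fd_step hE (ε₀ := 1) (by norm_num) hx' (by rw [e]; exact h) ?_ hx
      rw [e]
      exact ih h (hsub _ fun i hi => mem_Nb_succ.2 (Or.inr (Or.inr hi)))

open Classical in
private theorem fd_reach {e x : V} (he : e ∈ E)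
    (hx : x ∈ (cls (Subgroup.closure ({f, g} : Set (Equiv.Perm V))) e)) :
    ∃ m, x ∈ Nb f g E m := by
  have hcl : ∀ h : Equiv.Perm V, (∀ i y, h y ∈ Nb f g E i → y ∈ Nb f g E (i + 1)) →
      ∀ y ∈ (univ.filter fun y : V => ∃ m, y ∈ Nb f g E m),
        h y ∈ (univ.filter fun y : V => ∃ m, y ∈ Nb f g E m) := by
    intro h hh y hy
    have himg : (univ.filter fun y : V => ∃ m, y ∈ Nb f g E m).image h.symm =
        (univ.filter fun y : V => ∃ m, y ∈ Nb f g E m) := by
      refine eq_of_subset_of_card_le ?_ ?_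
      · intro z hz
        obtain ⟨w, hw, rfl⟩ := mem_image.1 hz
        obtain ⟨m, hm⟩ := (mem_filter.1 hw).2
        refine mem_filter.2 ⟨mem_univ _, m + 1, hh m _ ?_⟩
        rw [Equiv.apply_symm_apply]
        exact hm
      · rw [card_image_of_injective _ h.symm.injective]
    rw [← himg] at hy
    obtain ⟨w, hw, rfl⟩ := mem_image.1 hy
    rw [Equiv.apply_symm_apply]
    exact hw
  have hsub := cls_sub (P1 := ({f, g} : Set (Equiv.Perm V)))
    (U := univ.filter fun y : V => ∃ m, y ∈ Nb f g E m) (x := e) (by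
      intro h hh y hy
      rcases hh with rfl | hh
      · exact hcl _ (fun i z hz => mem_Nb_succ.2 (Or.inr (Or.inl hz))) y hy
      · have hh' : h = g := hh
        subst hh'
        exact hcl _ (fun i z hz => mem_Nb_succ.2 (Or.inr (Or.inr hz))) y hy)
    (mem_filter.2 ⟨mem_univ _, 0, he⟩)
  exact (mem_filter.1 (hsub hx)).2

open Classical in
theorem free_many (hE : ∀ x, x ∉ E → f (f x) = x ∧ g (g x) = x) {N : ℕ} (hne : E.Nonempty)
    (hN : ∀ x, N ≤ (cls (Subgroup.closure ({f, g} : Set (Equiv.Perm V))) x).card) (ℓ : ℕ) :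
    N ≤ (Nb f g E (2 * ℓ)).card + (univ.filter fun v => Free f g E ℓ v).card := by
  obtain ⟨e, he⟩ := hne
  obtain ⟨C, hC⟩ : ∃ C, C = cls (Subgroup.closure ({f, g} : Set (Equiv.Perm V))) e := ⟨_, rfl⟩
  have h1 : N ≤ C.card := by
    rw [hC]
    exact hN e
  have key : ∀ x ∈ C \ Nb f g E (2 * ℓ), ∃ (m ε : ℕ) (c : ℕ → V), 2 * ℓ < m ∧ ε < 2 ∧ c 0 = x ∧
      (∀ i ≤ m, c i ∈ Nb f g E (m - i)) ∧ (∀ i ≤ m, ∀ k < m - i, c i ∉ Nb f g E k) ∧
      ∀ i < m, alt f g (ε + i) (c i) = c (i + 1) ∧ alt f g (ε + i) (c (i + 1)) = c i := by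
    intro x hx
    rw [mem_sdiff, hC] at hx
    have hex := fd_reach he hx.1
    have hm := Nat.find_spec hex
    have hlt : 2 * ℓ < Nat.find hex := by
      by_contra hcon
      exact hx.2 (Nb_mono (not_lt.1 hcon) hm)
    obtain ⟨ε, c, hε, h2⟩ := ancestors hE hm fun i hi => Nat.find_min hex hi
    exact ⟨_, ε, c, hlt, hε, h2⟩
  choose! m ε c hk using key
  have h2 : (C \ Nb f g E (2 * ℓ)).card ≤ (univ.filter fun v => Free f g E ℓ v).card := by
    refine card_le_card_of_injOn (fun x => c x ℓ) ?_ ?_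
    · intro x hx
      obtain ⟨a1, a2, a3, a4, a5, a6⟩ := hk x hx
      refine mem_coe.2 (mem_filter.2 ⟨mem_univ _, ε x, c x, rfl, ?_, ?_, ?_⟩)
      · intro i hi
        exact a5 i (by omega) 0 (by omega)
      · have hlt : ∀ i j, i ≤ 2 * ℓ → j ≤ 2 * ℓ → i < j → c x i ≠ c x j := by
          intro i j hi hj hij h
          have b := a4 j (by omega)
          rw [← h] at b
          exact a5 i (by omega) (m x - j) (by omega) b
        intro i hi j hj h
        rcases lt_trichotomy i j with h3 | h3 | h3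
        · exact absurd h (hlt i j hi hj h3)
        · exact h3
        · exact absurd h.symm (hlt j i hj hi h3)
      · intro i hi
        exact a6 i (by omega)
    · intro x hx y hy hxy
      have hxy' : c x ℓ = c y ℓ := hxy
      obtain ⟨a1, a2, a3, a4, a5, a6⟩ := hk x hx
      obtain ⟨b1, b2, b3, b4, b5, b6⟩ := hk y hy
      have hm : m x = m y := by
        have c1 := a4 ℓ (by omega)
        have c2 := b4 ℓ (by omega)
        have c3 := a5 ℓ (by omega)
        have c4 := b5 ℓ (by omega)
        rcases lt_trichotomy (m x) (m y) with h | h | h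
        · refine absurd ?_ (c4 (m x - ℓ) (by omega))
          rw [← hxy']
          exact c1
        · exact h
        · refine absurd ?_ (c3 (m y - ℓ) (by omega))
          rw [hxy']
          exact c2
      rcases Nat.eq_zero_or_pos ℓ with h0 | h0
      · rw [h0, a3, b3] at hxy'
        exact hxy'
      · have hpar : ε x = ε y := by
          by_contra hne
          have d1 := (a6 ℓ (by omega)).1
          have d2 := (b6 (ℓ - 1) (by omega)).2
          have e1 : ℓ - 1 + 1 = ℓ := by omega
          rw [e1] at d2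
          rw [hxy', fd_even f g (show (ε x + ℓ) % 2 = (ε y + (ℓ - 1)) % 2 by omega), d2] at d1
          have d3 := a4 (ℓ + 1) (by omega)
          rw [← d1] at d3
          exact b5 (ℓ - 1) (by omega) _ (by omega) d3
        have hback : ∀ i ≤ ℓ, c x (ℓ - i) = c y (ℓ - i) := by
          intro i
          induction i with
          | zero =>
            intro _
            exact hxy'
          | succ i ih =>
            intro hi
            have g1 := ih (by omega)
            have g2 := (a6 (ℓ - (i + 1)) (by omega)).2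
            have g3 := (b6 (ℓ - (i + 1)) (by omega)).2
            have e1 : ℓ - (i + 1) + 1 = ℓ - i := by omega
            rw [e1] at g2 g3
            rw [← g2, ← g3, g1, hpar]
        have h3 := hback ℓ le_rfl
        rw [Nat.sub_self, a3, b3] at h3
        exact h3
  have h3 : C.card ≤ (Nb f g E (2 * ℓ)).card + (C \ Nb f g E (2 * ℓ)).card := by
    have h4 : C ⊆ Nb f g E (2 * ℓ) ∪ (C \ Nb f g E (2 * ℓ)) := by
      intro x hx
      by_cases h : x ∈ Nb f g E (2 * ℓ)
      · exact mem_union_left _ h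
      · exact mem_union_right _ (mem_sdiff.2 ⟨hx, h⟩)
    exact (card_le_card h4).trans (card_union_le _ _)
  omega

end Pool.Agent.SYT
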