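import Pool.Agent.SYT.Cls

/-! # SYU-Nbr: the neighbourhoods of a set for two letters -/

set_option autoImplicit false

open Finset

namespace Pool.Agent.SYT

variable {V : Type} [Fintype V] [DecidableEq V]

/-- the states at distance at most `j` from `E` -/
def Nb (f g : Equiv.Perm V) (E : Finset V) : ℕ → Finset V
  | 0 => E
  | j + 1 => univ.filter fun x => x ∈ Nb f g E j ∨ f x ∈ Nb f g E j ∨ g x ∈ Nb f g E j

variable {f g : Equiv.Perm V} {E : Finset V}

theorem mem_Nb_succ {j : ℕ} {x : V} :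
    x ∈ Nb f g E (j + 1) ↔ x ∈ Nb f g E j ∨ f x ∈ Nb f g E j ∨ g x ∈ Nb f g E j := by
  simp [Nb]

theorem Nb_mono {i j : ℕ} (h : i ≤ j) : Nb f g E i ⊆ Nb f g E j := by
  induction h with
  | refl => exact Subset.rfl
  | step _ ih => exact ih.trans fun x hx => mem_Nb_succ.2 (Or.inl hx)

private theorem nbrAux_zero : Nb f g E 0 = E := rfl

private theorem nbrAux_sub (j : ℕ) : E ⊆ Nb f g E j := Nb_mono (Nat.zero_le j)

theorem sph_zero : (Nb f g E 1 \ E).card ≤ 2 * E.card := by
  have h1 : Nb f g E 1 \ E ⊆ E.image f.symm ∪ E.image g.symm := by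
    intro x hx
    rw [mem_sdiff] at hx
    rw [mem_union, mem_image, mem_image]
    rcases mem_Nb_succ.1 hx.1 with h | h | h
    · exact absurd h hx.2
    · exact Or.inl ⟨f x, h, by simp⟩
    · exact Or.inr ⟨g x, h, by simp⟩
  have h2 := (card_le_card h1).trans (card_union_le _ _)
  have h3 : (E.image f.symm).card ≤ E.card := card_image_le
  have h4 : (E.image g.symm).card ≤ E.card := card_image_le
  omega

theorem sph_le (hE : ∀ x, x ∉ E → f (f x) = x ∧ g (g x) = x) (j : ℕ) :
    (Nb f g E (j + 2) \ Nb f g E (j + 1)).card ≤ (Nb f g E (j + 1) \ Nb f g E j).card := by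
  have hpar : ∀ x ∈ Nb f g E (j + 2) \ Nb f g E (j + 1),
      (f x ∈ Nb f g E (j + 1) \ Nb f g E j) ∨ (g x ∈ Nb f g E (j + 1) \ Nb f g E j) := by
    intro x hx
    rw [mem_sdiff] at hx
    rw [mem_sdiff, mem_sdiff]
    have hf : f x ∉ Nb f g E j := fun h => hx.2 (mem_Nb_succ.2 (Or.inr (Or.inl h)))
    have hg : g x ∉ Nb f g E j := fun h => hx.2 (mem_Nb_succ.2 (Or.inr (Or.inr h)))
    rcases mem_Nb_succ.1 hx.1 with h | h | h
    · exact absurd h hx.2
    · exact Or.inl ⟨h, hf⟩
    · exact Or.inr ⟨h, hg⟩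
  refine card_le_card_of_injOn
    (fun x => if f x ∈ Nb f g E (j + 1) \ Nb f g E j then f x else g x) ?_ ?_
  · intro x hx
    rcases hpar x hx with h | h
    · show (if f x ∈ Nb f g E (j + 1) \ Nb f g E j then f x else g x) ∈ _
      rw [if_pos h]
      exact h
    · show (if f x ∈ Nb f g E (j + 1) \ Nb f g E j then f x else g x) ∈ _
      split_ifs with h'
      · exact h'
      · exact h
  · have key : ∀ x ∈ Nb f g E (j + 2) \ Nb f g E (j + 1), ∀ y,
        (if f x ∈ Nb f g E (j + 1) \ Nb f g E j then f x else g x) = y →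
        y ∈ Nb f g E (j + 1) \ Nb f g E j ∧ x ∉ Nb f g E j ∧ (x = f y ∨ x = g y) := by
      intro x hx y hy
      have hx2 := (mem_sdiff.1 hx).2
      have hxE : x ∉ E := fun h => hx2 (nbrAux_sub _ h)
      obtain ⟨e1, e2⟩ := hE x hxE
      refine ⟨?_, fun h => hx2 (Nb_mono (Nat.le_succ j) h), ?_⟩
      · rw [← hy]
        rcases hpar x hx with h | h
        · rw [if_pos h]
          exact h
        · split_ifs with h'
          · exact h'
          · exact h
      · split_ifs at hy with h'
        · left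
          rw [← hy, e1]
        · right
          rw [← hy, e2]
    intro x hx x' hx' he
    obtain ⟨y, hy⟩ : ∃ y, (if f x' ∈ Nb f g E (j + 1) \ Nb f g E j then f x' else g x') = y :=
      ⟨_, rfl⟩
    obtain ⟨k1, k2, k3⟩ := key x hx y (Eq.trans he hy)
    obtain ⟨-, k2', k3'⟩ := key x' hx' y hy
    rw [mem_sdiff] at k1
    rcases k3 with k3 | k3 <;> rcases k3' with k3' | k3'
    · rw [k3, k3']
    · exfalso
      rcases mem_Nb_succ.1 k1.1 with h | h | h
      · exact k1.2 h
      · rw [← k3] at h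
        exact k2 h
      · rw [← k3'] at h
        exact k2' h
    · exfalso
      rcases mem_Nb_succ.1 k1.1 with h | h | h
      · exact k1.2 h
      · rw [← k3'] at h
        exact k2' h
      · rw [← k3] at h
        exact k2 h
    · rw [k3, k3']

private theorem nbrAux_succ (j : ℕ) : (Nb f g E (j + 1)).card =
    (Nb f g E j).card + (Nb f g E (j + 1) \ Nb f g E j).card := by
  have h1 : Nb f g E j ⊆ Nb f g E (j + 1) := Nb_mono (Nat.le_succ j)
  rw [card_sdiff_of_subset h1]
  have := card_le_card h1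
  omega

private theorem nbrAux_anti (hE : ∀ x, x ∉ E → f (f x) = x ∧ g (g x) = x) :
    Antitone fun j => (Nb f g E (j + 1) \ Nb f g E j).card :=
  antitone_nat_of_succ_le fun j => sph_le hE j

theorem nb_linear (hE : ∀ x, x ∉ E → f (f x) = x ∧ g (g x) = x) (j : ℕ) :
    (Nb f g E j).card ≤ (2 * j + 1) * E.card := by
  induction j with
  | zero => rw [nbrAux_zero]; omega
  | succ j ih =>
    have h1 := nbrAux_succ (f := f) (g := g) (E := E) j
    have h2 : (Nb f g E (j + 1) \ Nb f g E j).card ≤ (Nb f g E 1 \ E).card :=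
      nbrAux_anti hE (Nat.zero_le j)
    have h3 := sph_zero (f := f) (g := g) (E := E)
    have h4 : (2 * (j + 1) + 1) * E.card = (2 * j + 1) * E.card + 2 * E.card := by ring
    omega

private theorem nbrAux_sum (m : ℕ) : (Nb f g E m \ E).card =
    ∑ i ∈ range m, (Nb f g E (i + 1) \ Nb f g E i).card := by
  induction m with
  | zero => simp [nbrAux_zero]
  | succ m ih =>
    rw [sum_range_succ, ← ih, card_sdiff_of_subset (nbrAux_sub (m + 1)), nbrAux_succ,
      card_sdiff_of_subset (nbrAux_sub m)]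
    have := card_le_card (nbrAux_sub (f := f) (g := g) (E := E) m)
    omega

theorem nb_conc (hE : ∀ x, x ∉ E → f (f x) = x ∧ g (g x) = x) (k q : ℕ) :
    (Nb f g E (k * q) \ E).card ≤ k * (Nb f g E q \ E).card := by
  rw [nbrAux_sum, nbrAux_sum]
  induction k with
  | zero => simp
  | succ k ih =>
    rw [Nat.succ_mul, sum_range_add, Nat.succ_mul]
    refine Nat.add_le_add ih (sum_le_sum fun i _ => ?_)
    exact nbrAux_anti hE (Nat.le_add_left i (k * q))

private theorem nbrAux_closed {h : Equiv.Perm V} {U : Finset V} (hU : ∀ x, h x ∈ U → x ∈ U) :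
    ∀ x ∈ U, h x ∈ U := by
  have h1 : U.image h.symm ⊆ U := by
    intro y hy
    obtain ⟨z, hz, rfl⟩ := mem_image.1 hy
    exact hU _ (by simpa using hz)
  have h2 : (U.image h.symm).card = U.card := card_image_of_injective _ h.symm.injective
  have h3 := eq_of_subset_of_card_le h1 h2.ge
  intro x hx
  rw [← h3] at hx
  obtain ⟨z, hz, rfl⟩ := mem_image.1 hx
  simpa using hz

theorem nb_grow {N j : ℕ} (hne : E.Nonempty)
    (hN : ∀ x, N ≤ (cls (Subgroup.closure ({f, g} : Set (Equiv.Perm V))) x).card)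
    (h : (Nb f g E j).card < N) : (Nb f g E j).card < (Nb f g E (j + 1)).card := by
  by_contra hc
  rw [not_lt] at hc
  have h1 := eq_of_subset_of_card_le (Nb_mono (Nat.le_succ j)) hc
  have hf : ∀ x, f x ∈ Nb f g E j → x ∈ Nb f g E j := by
    intro x hx
    rw [h1]
    exact mem_Nb_succ.2 (Or.inr (Or.inl hx))
  have hg : ∀ x, g x ∈ Nb f g E j → x ∈ Nb f g E j := by
    intro x hx
    rw [h1]
    exact mem_Nb_succ.2 (Or.inr (Or.inr hx))
  obtain ⟨x, hx⟩ := hne
  have h2 : cls (Subgroup.closure ({f, g} : Set (Equiv.Perm V))) x ⊆ Nb f g E j := by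
    refine cls_sub ?_ (nbrAux_sub j hx)
    rintro p (rfl | rfl)
    · exact nbrAux_closed hf
    · exact nbrAux_closed hg
  have h3 := card_le_card h2
  have h4 := hN x
  omega

end Pool.Agent.SYT
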