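import Pool.Agent.SYU.PairU
import Pool.Agent.SYU.Classify
import Pool.Agent.SYT.MC

/-!
# SYU-NearT: every letter is near the identity, near `f` or near `g`

Project SYU (MP_a3a126_co), paper proof in /team-store/a3a126b_87.md, section D5.
-/

set_option autoImplicit false

open Finset

namespace Pool.Agent.SYT

private theorem nt_num {n Z a b c φf φg ag d X ψ : ℝ} (hn : 0 < n) (hZ : 12288 ≤ Z)
    (ha0 : 0 ≤ a) (hb0 : 0 ≤ b) (hc0 : 0 ≤ c)
    (hf0 : 0 ≤ φf) (hg0 : 0 ≤ φg) (hag0 : 0 ≤ ag) (hX0 : 0 ≤ X)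
    (hφf : φf ≤ X) (hφg : φg ≤ X) (hag : ag ≤ X)
    (hsum : a + b + c ≤ n + 2 * X) (hX : 1000 * Z * X ≤ n) (hψ : 1000 * Z * ψ ≤ n)
    (hd : 1000 * Z * d ≤ n ^ 2) (hn' : 1000 * Z ≤ n)
    (hmain : n ^ 2 ≤ a ^ 2 + b ^ 2 + c ^ 2 + φf ^ 2 + φg ^ 2 + ag ^ 2 + 16 * n + 36 * d + 36 * ψ * n)
    (h1 : n ≤ Z * (n - a)) (h2 : n ≤ Z * (n - b)) (h3 : n ≤ Z * (n - c)) : False := by
  have hZ0 : 0 < Z := by linarith
  obtain ⟨τ, hτ⟩ : ∃ τ, τ = n / Z := ⟨_, rfl⟩
  have hτZ : Z * τ = n := by rw [hτ]; field_simp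
  have hτ0 : 0 < τ := by rw [hτ]; positivity
  have h1' : a ≤ n - τ := by
    have : Z * a ≤ Z * (n - τ) := by nlinarith only [h1, hτZ]
    exact le_of_mul_le_mul_left this hZ0
  have h2' : b ≤ n - τ := by
    have : Z * b ≤ Z * (n - τ) := by nlinarith only [h2, hτZ]
    exact le_of_mul_le_mul_left this hZ0
  have h3' : c ≤ n - τ := by
    have : Z * c ≤ Z * (n - τ) := by nlinarith only [h3, hτZ]
    exact le_of_mul_le_mul_left this hZ0
  have hX' : 1000 * X ≤ τ := by
    have : Z * (1000 * X) ≤ Z * τ := by nlinarith only [hX, hτZ]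
    exact le_of_mul_le_mul_left this hZ0
  have hψ' : 1000 * ψ ≤ τ := by
    have : Z * (1000 * ψ) ≤ Z * τ := by nlinarith only [hψ, hτZ]
    exact le_of_mul_le_mul_left this hZ0
  have hn'' : 1000 ≤ τ := by
    have : Z * 1000 ≤ Z * τ := by nlinarith only [hn', hτZ]
    exact le_of_mul_le_mul_left this hZ0
  have hd' : 1000 * d ≤ τ * n := by
    have h0 : Z * (τ * n) = n ^ 2 := by rw [← mul_assoc, hτZ]; ring
    have : Z * (1000 * d) ≤ Z * (τ * n) := by rw [h0]; linarith
    exact le_of_mul_le_mul_left this hZ0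
  have hτn : 12288 * τ ≤ n := by nlinarith only [hτZ, hZ, hτ0]
  have q1 : a ^ 2 ≤ a * (n - τ) := by nlinarith only [ha0, h1']
  have q2 : b ^ 2 ≤ b * (n - τ) := by nlinarith only [hb0, h2']
  have q3 : c ^ 2 ≤ c * (n - τ) := by nlinarith only [hc0, h3']
  have q4 : (a + b + c) * (n - τ) ≤ (n + 2 * X) * (n - τ) :=
    mul_le_mul_of_nonneg_right hsum (by linarith)
  have q5 : φf ^ 2 ≤ X ^ 2 := pow_le_pow_left₀ hf0 hφf 2
  have q6 : φg ^ 2 ≤ X ^ 2 := pow_le_pow_left₀ hg0 hφg 2
  have q7 : ag ^ 2 ≤ X ^ 2 := pow_le_pow_left₀ hag0 hag 2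
  have q8 : X * n * 1000 ≤ τ * n := by nlinarith only [hX', hn]
  have q9 : ψ * n * 1000 ≤ τ * n := by nlinarith only [hψ', hn]
  have q10 : n * 1000 ≤ τ * n := by nlinarith only [hn'', hn]
  have q11 : X ^ 2 ≤ X * n := by
    have : X ≤ n := by linarith
    nlinarith only [this, hX0]
  have q12 : 0 < τ * n := by positivity
  have q13 : 0 ≤ X * τ := by positivity
  nlinarith only [q1, q2, q3, q4, q5, q6, q7, q8, q9, q10, q11, q12, q13, hmain, hd']

private theorem nt_sum {V : Type} [Fintype V] [DecidableEq V] (f g h : Equiv.Perm V) :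
    (univ.filter fun x => h x = x).card + (univ.filter fun x => f x = h x).card +
      (univ.filter fun x => g x = h x).card ≤ Fintype.card V + 2 * (univ.filter fun x =>
      ¬ (f x ≠ x ∧ g x ≠ x ∧ f x ≠ g x ∧ f (f x) = x ∧ g (g x) = x)).card := by
  simp only [card_filter]
  rw [← card_univ, card_eq_sum_ones, mul_sum, ← sum_add_distrib, ← sum_add_distrib,
    ← sum_add_distrib]
  refine sum_le_sum fun x _ => ?_
  by_cases h1 : f x ≠ x ∧ g x ≠ x ∧ f x ≠ g x ∧ f (f x) = x ∧ g (g x) = x
  · obtain ⟨a1, a2, a3, -⟩ := id h1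
    rw [if_neg (not_not.2 h1)]
    by_cases b1 : h x = x
    · have b2 : ¬ f x = h x := by rw [b1]; exact a1
      have b3 : ¬ g x = h x := by rw [b1]; exact a2
      rw [if_pos b1, if_neg b2, if_neg b3]
      norm_num
    · rw [if_neg b1]
      by_cases b2 : f x = h x
      · have b3 : ¬ g x = h x := by rw [← b2]; exact a3.symm
        rw [if_pos b2, if_neg b3]
        norm_num
      · rw [if_neg b2]
        split_ifs <;> omega
  · rw [if_pos h1]
    split_ifs <;> omega

theorem near_two (Z : ℕ) (hZ : 12288 ≤ Z) : ∃ G K' n0 : ℕ, ∀ (V : Type) [Fintype V]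
    [DecidableEq V] (S : Sys V),
    (∀ h ∈ S.P, G * (univ.filter fun x => h (h x) ≠ x).card ≤ Fintype.card V) →
    n0 ≤ Fintype.card V → K' * S.d ≤ Fintype.card V ^ 2 →
    ∃ f ∈ S.P, ∃ g ∈ S.P,
      Z * (univ.filter fun x =>
        ¬ (f x ≠ x ∧ g x ≠ x ∧ f x ≠ g x ∧ f (f x) = x ∧ g (g x) = x)).card ≤ Fintype.card V ∧
      (∀ h ∈ S.P, Z * (univ.filter fun x => h x ≠ x).card ≤ Fintype.card V ∨
        Z * (univ.filter fun x => f x ≠ h x).card ≤ Fintype.card V ∨
        Z * (univ.filter fun x => g x ≠ h x).card ≤ Fintype.card V) ∧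
      ∀ x, Fintype.card V ≤
        49152 * (cls (Subgroup.closure ({f, g} : Set (Equiv.Perm V))) x).card := by
  obtain ⟨G, K', n0, hpair⟩ := pair (1000 * Z) (by omega)
  refine ⟨G + 1000 * Z, K' + 1000 * Z, n0 + 1000 * Z, ?_⟩
  intro V _ _ S hinv hn hd
  obtain ⟨n, hnV⟩ : ∃ n, n = Fintype.card V := ⟨_, rfl⟩
  rw [← hnV] at hn hd
  rw [add_mul] at hd
  have hinvG : ∀ h ∈ S.P, G * (univ.filter fun x => h (h x) ≠ x).card ≤ Fintype.card V := by
    intro h hh
    refine le_trans (Nat.mul_le_mul_right _ ?_) (hinv h hh)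
    omega
  have hinvZ : ∀ h ∈ S.P, 1000 * Z * (univ.filter fun x => h (h x) ≠ x).card ≤ n := by
    intro h hh
    rw [hnV]
    refine le_trans (Nat.mul_le_mul_right _ ?_) (hinv h hh)
    omega
  obtain ⟨f, hf, g, hg, hW⟩ := hpair V S hinvG (by rw [← hnV]; omega) (by rw [← hnV]; omega)
  have hdZ : 1000 * Z * S.d ≤ n ^ 2 := by omega
  have hnZ : 1000 * Z ≤ n := by omega
  have hn0 : 0 < n := by omega
  rw [← hnV] at hW
  refine ⟨f, hf, g, hg, ?_, ?_⟩
  · rw [← hnV]
    refine le_trans (Nat.mul_le_mul_right _ ?_) hW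
    omega
  have hclass : ∀ h ∈ S.P, Z * (univ.filter fun x => h x ≠ x).card ≤ Fintype.card V ∨
        Z * (univ.filter fun x => f x ≠ h x).card ≤ Fintype.card V ∨
        Z * (univ.filter fun x => g x ≠ h x).card ≤ Fintype.card V := by
    intro h hh
    rw [← hnV]
    by_contra hcon
    push Not at hcon
    obtain ⟨k1, k2, k3⟩ := hcon
    obtain ⟨ψ, hψ⟩ : ∃ ψ, ψ = max (max (univ.filter fun x => f (f x) ≠ x).card
      (univ.filter fun x => g (g x) ≠ x).card) (univ.filter fun x => h (h x) ≠ x).card := ⟨_, rfl⟩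
    have hψn : 1000 * Z * ψ ≤ n := by
      rw [hψ]
      rcases max_choice (max (univ.filter fun x => f (f x) ≠ x).card
        (univ.filter fun x => g (g x) ≠ x).card) (univ.filter fun x => h (h x) ≠ x).card with
        e | e
      · rw [e]
        rcases max_choice (univ.filter fun x => f (f x) ≠ x).card
          (univ.filter fun x => g (g x) ≠ x).card with e | e
        · rw [e]; exact hinvZ f hf
        · rw [e]; exact hinvZ g hg
      · rw [e]; exact hinvZ h hh
    have hmain := classify S hf hg hh hnV (ψ := ψ)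
      (by rw [hψ]; exact (le_max_left _ _).trans (le_max_left _ _))
      (by rw [hψ]; exact (le_max_right _ _).trans (le_max_left _ _))
      (by rw [hψ]; exact le_max_right _ _)
    have hsum := nt_sum f g h
    obtain ⟨X, hX⟩ : ∃ X, X = (univ.filter fun x =>
      ¬ (f x ≠ x ∧ g x ≠ x ∧ f x ≠ g x ∧ f (f x) = x ∧ g (g x) = x)).card := ⟨_, rfl⟩
    rw [← hX, ← hnV] at hsum
    rw [← hX] at hW
    have hφf : (univ.filter fun x => f x = x).card ≤ X := by
      rw [hX]
      refine card_le_card fun x hx => ?_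
      rw [mem_filter] at hx ⊢
      exact ⟨mem_univ _, fun h => h.1 hx.2⟩
    have hφg : (univ.filter fun x => g x = x).card ≤ X := by
      rw [hX]
      refine card_le_card fun x hx => ?_
      rw [mem_filter] at hx ⊢
      exact ⟨mem_univ _, fun h => h.2.1 hx.2⟩
    have hag : (univ.filter fun x => f x = g x).card ≤ X := by
      rw [hX]
      refine card_le_card fun x hx => ?_
      rw [mem_filter] at hx ⊢
      exact ⟨mem_univ _, fun h => h.2.2.1 hx.2⟩
    have s1 : (univ.filter fun x => h x = x).card + (univ.filter fun x => h x ≠ x).card = n := by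
      rw [hnV, ← card_univ]; exact card_filter_add_card_filter_not _
    have s2 : (univ.filter fun x => f x = h x).card + (univ.filter fun x => f x ≠ h x).card =
        n := by
      rw [hnV, ← card_univ]; exact card_filter_add_card_filter_not _
    have s3 : (univ.filter fun x => g x = h x).card + (univ.filter fun x => g x ≠ h x).card =
        n := by
      rw [hnV, ← card_univ]; exact card_filter_add_card_filter_not _
    generalize (univ.filter fun x => h x = x).card = a at *
    generalize (univ.filter fun x => f x = h x).card = b at *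
    generalize (univ.filter fun x => g x = h x).card = c at *
    generalize (univ.filter fun x => h x ≠ x).card = a' at *
    generalize (univ.filter fun x => f x ≠ h x).card = b' at *
    generalize (univ.filter fun x => g x ≠ h x).card = c' at *
    generalize (univ.filter fun x => f x = x).card = φf at *
    generalize (univ.filter fun x => g x = x).card = φg at *
    generalize (univ.filter fun x => f x = g x).card = ag at *
    have t1 : (n : ℝ) - a = a' := by rw [← s1]; push_cast; ring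
    have t2 : (n : ℝ) - b = b' := by rw [← s2]; push_cast; ring
    have t3 : (n : ℝ) - c = c' := by rw [← s3]; push_cast; ring
    refine nt_num (n := n) (Z := Z) (a := a) (b := b) (c := c) (φf := φf) (φg := φg) (ag := ag)
      (d := S.d) (X := X) (ψ := ψ) (by exact_mod_cast hn0) (by exact_mod_cast hZ) (by positivity)
      (by positivity) (by positivity) (by positivity) (by positivity) (by positivity)
      (by positivity) (by exact_mod_cast hφf) (by exact_mod_cast hφg) (by exact_mod_cast hag)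
      (by exact_mod_cast hsum) (by exact_mod_cast hW) (by exact_mod_cast hψn)
      (by exact_mod_cast hdZ) (by exact_mod_cast hnZ) (by exact_mod_cast hmain) ?_ ?_ ?_
    · rw [t1]; exact_mod_cast k1.le
    · rw [t2]; exact_mod_cast k2.le
    · rw [t3]; exact_mod_cast k3.le
  refine ⟨hclass, ?_⟩
  -- few components
  obtain ⟨k, hk⟩ : ∃ k, k = n / 12288 := ⟨_, rfl⟩
  have hk1 : 12288 * k ≤ n := by rw [hk]; exact Nat.mul_div_le _ _
  have hsub : (({f, g} : Set (Equiv.Perm V))) ⊆ S.P := by
    intro u hu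
    rcases hu with rfl | hu
    · exact hf
    · rw [Set.mem_singleton_iff] at hu
      rw [hu]; exact hg
  have hfΓ : f ∈ Subgroup.closure ({f, g} : Set (Equiv.Perm V)) :=
    Subgroup.subset_closure (Set.mem_insert _ _)
  have hgΓ : g ∈ Subgroup.closure ({f, g} : Set (Equiv.Perm V)) :=
    Subgroup.subset_closure (Set.mem_insert_of_mem _ rfl)
  have hDst : ∀ h ∈ S.P, (Dst (Subgroup.closure ({f, g} : Set (Equiv.Perm V))) h).card ≤ k := by
    intro h hh
    have key : ∀ t : ℕ, Z * t ≤ Fintype.card V → t ≤ k := by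
      intro t ht
      rw [hk, Nat.le_div_iff_mul_le (by norm_num), hnV]
      calc t * 12288 ≤ t * Z := Nat.mul_le_mul_left _ hZ
        _ = Z * t := Nat.mul_comm _ _
        _ ≤ _ := ht
    rcases hclass h hh with h1 | h1 | h1
    · refine le_trans (card_le_card fun x hx => ?_) (key _ h1)
      have hx' : cls (Subgroup.closure ({f, g} : Set (Equiv.Perm V))) (h x) ≠
        cls (Subgroup.closure ({f, g} : Set (Equiv.Perm V))) x := by simpa [Dst] using hx
      rw [mem_filter]
      exact ⟨mem_univ _, fun h2 => hx' (by rw [h2])⟩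
    · refine le_trans (card_le_card fun x hx => ?_) (key _ h1)
      have hx' : cls (Subgroup.closure ({f, g} : Set (Equiv.Perm V))) (h x) ≠
        cls (Subgroup.closure ({f, g} : Set (Equiv.Perm V))) x := by simpa [Dst] using hx
      rw [mem_filter]
      exact ⟨mem_univ _, fun h2 => hx' (by rw [← h2]; exact cls_apply hfΓ x)⟩
    · refine le_trans (card_le_card fun x hx => ?_) (key _ h1)
      have hx' : cls (Subgroup.closure ({f, g} : Set (Equiv.Perm V))) (h x) ≠
        cls (Subgroup.closure ({f, g} : Set (Equiv.Perm V))) x := by simpa [Dst] using hx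
      rw [mem_filter]
      exact ⟨mem_univ _, fun h2 => hx' (by rw [← h2]; exact cls_apply hgΓ x)⟩
  have hd3 : 3072 * S.d < n ^ 2 := by
    have h1 : 12288000 * S.d ≤ 1000 * Z * S.d := Nat.mul_le_mul_right _ (by omega)
    have h2 : 0 < n ^ 2 := by positivity
    omega
  have hr := many S hsub hDst (by rw [← hnV]; exact hk1) (by rw [← hnV]; omega)
    (by rw [← hnV]; exact hd3)
  have hM := two_M_add S
  rw [← hnV] at hM
  have hd2 : 100 * S.d ≤ n ^ 2 := by
    have : 100 * S.d ≤ 1000 * Z * S.d := Nat.mul_le_mul_right _ (by omega)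
    omega
  have hM2 : 3 * n ^ 2 ≤ 8 * S.M := by
    obtain ⟨m, rfl⟩ : ∃ m, n = m + 1 := ⟨n - 1, by omega⟩
    simp only [Nat.add_sub_cancel] at hM
    have hm : 1000 ≤ m := by omega
    nlinarith only [hM, hd2, hm]
  intro x
  have h1 := mc S hsub (Y := cls (Subgroup.closure ({f, g} : Set (Equiv.Perm V))) x)
    (cls_mem_comps x)
  rw [← hnV] at h1 ⊢
  obtain ⟨b, hb⟩ : ∃ b, b = (cls (Subgroup.closure ({f, g} : Set (Equiv.Perm V))) x).card :=
    ⟨_, rfl⟩
  obtain ⟨r, hrr⟩ : ∃ r, r =
    (comps (Subgroup.closure ({f, g} : Set (Equiv.Perm V)))).card := ⟨_, rfl⟩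
  rw [← hrr] at h1 hr
  rw [← hb] at h1 ⊢
  have h2 : r * b ≤ 6143 * b := Nat.mul_le_mul_right _ (by omega)
  have h3 : 2 * n * (r * b) ≤ 2 * n * (6143 * b) := Nat.mul_le_mul_left _ h2
  have h4 : n * n ≤ n * (49152 * b) := by nlinarith only [h1, h3, hM2]
  exact Nat.le_of_mul_le_mul_left h4 hn0

end Pool.Agent.SYT
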