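import Pool.Agent.SYU.PCyc

/-! # SYU-PChar: the characteristic polynomial of a path -/

set_option autoImplicit false

open Finset Polynomial Helper41.Circ

namespace Pool.Agent.SYP

variable {n : ℕ} {f g : Fin n → Fin n}

private theorem pcA_two (h : PathP f g) (z : Fin n) (F : Fin n → ℚ) (i : ℕ) :
    F (f (act (aln f g (i + 1)) z)) + F (g (act (aln f g (i + 1)) z)) =
      F (act (aln f g (i + 2)) z) + F (act (aln f g i) z) := by
  have h1 : act (aln f g (i + 2)) z = al f g (i + 1) (act (aln f g (i + 1)) z) :=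
    act_aln_succ f g (i + 1) z
  have h2 : act (aln f g i) z = al f g i (act (aln f g (i + 1)) z) := by
    rw [act_aln_succ]
    unfold al
    split_ifs
    · rw [h.ff]
    · rw [h.gg]
  rw [h1, h2]
  rcases Nat.mod_two_eq_zero_or_one i with hi | hi
  · have hi' : (i + 1) % 2 = 1 := by omega
    simp only [al, hi, hi', if_true, if_false, one_ne_zero]
    ring
  · have hi' : (i + 1) % 2 = 0 := by omega
    simp only [al, hi, hi', if_true, if_false, one_ne_zero]

private theorem pcA_one {z : Fin n} (hz : g z = z) (F : Fin n → ℚ) :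
    F (f z) + F (g z) = F (act (aln f g 1) z) + F (act (aln f g 0) z) := by
  rw [hz]
  rfl

private theorem pcA_zero (z : Fin n) : act (aln f g 0) z = z := rfl

private theorem pcA_mul (h : PathP f g) (M : Matrix (Fin n) (Fin n) ℚ) (z y : Fin n) :
    (M * Bp f g) z y = M z (f y) + M z (g y) := by
  rw [Matrix.mul_apply]
  have h1 : ∀ w : Fin n, M z w * Bp f g w y =
      (if w = f y then M z w else 0) + (if w = g y then M z w else 0) := by
    intro w
    have e1 : f w = y ↔ w = f y := ⟨fun e => by rw [← e, h.ff], fun e => by rw [e, h.ff]⟩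
    have e2 : g w = y ↔ w = g y := ⟨fun e => by rw [← e, h.gg], fun e => by rw [e, h.gg]⟩
    unfold Bp
    rw [Matrix.of_apply]
    simp only [e1, e2]
    rw [mul_add]
    simp only [mul_ite, mul_one, mul_zero]
  rw [sum_congr rfl fun w _ => h1 w, sum_add_distrib, sum_ite_eq', sum_ite_eq',
    if_pos (mem_univ _), if_pos (mem_univ _)]

private theorem pcA_cheb (k : ℕ) : (cheb k).Monic ∧ (cheb k).natDegree = k ∧
    (cheb (k + 1)).Monic ∧ (cheb (k + 1)).natDegree = k + 1 := by
  induction k with
  | zero =>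
    refine ⟨monic_one, natDegree_one, ?_, ?_⟩
    · show (X : ℚ[X]).Monic
      exact monic_X
    · show (X : ℚ[X]).natDegree = 0 + 1
      rw [natDegree_X]
  | succ k ih =>
    obtain ⟨h1, h2, h3, h4⟩ := ih
    have e : cheb (k + 1 + 1) = X * cheb (k + 1) - cheb k := rfl
    have m1 : (X * cheb (k + 1)).Monic := monic_X.mul h3
    have d1 : (X * cheb (k + 1)).natDegree = k + 1 + 1 := by
      rw [monic_X.natDegree_mul h3, natDegree_X, h4]
      omega
    have hd : (cheb k).degree < (X * cheb (k + 1)).degree := by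
      rw [degree_eq_natDegree h1.ne_zero, degree_eq_natDegree m1.ne_zero, h2, d1]
      exact_mod_cast (by omega : k < k + 1 + 1)
    refine ⟨h3, h4, ?_, ?_⟩
    · rw [e]
      exact m1.sub_of_left hd
    · rw [e, natDegree_sub_eq_left_of_natDegree_lt (by rw [h2, d1]; omega), d1]

private theorem pcA_sum (h : PathP f g) {z : Fin n} (hz : g z = z) (y : Fin n) (k : ℕ) :
    ∑ i ∈ range (k + 2), ((if act (aln f g i) z = f y then (1 : ℚ) else 0) +
        (if act (aln f g i) z = g y then (1 : ℚ) else 0)) =
      ∑ i ∈ range (k + 3), (if act (aln f g i) z = y then (1 : ℚ) else 0) +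
        ∑ i ∈ range (k + 1), (if act (aln f g i) z = y then (1 : ℚ) else 0) := by
  have h0 : ∀ w : Fin n, (if w = f y then (1 : ℚ) else 0) + (if w = g y then (1 : ℚ) else 0) =
      (fun u => if u = y then (1 : ℚ) else 0) (f w) +
        (fun u => if u = y then (1 : ℚ) else 0) (g w) := by
    intro w
    have e1 : f w = y ↔ w = f y := ⟨fun e => by rw [← e, h.ff], fun e => by rw [e, h.ff]⟩
    have e2 : g w = y ↔ w = g y := ⟨fun e => by rw [← e, h.gg], fun e => by rw [e, h.gg]⟩
    simp only [e1, e2]
  rw [sum_congr rfl fun i _ => h0 _, sum_range_succ', pcA_zero]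
  have h1 : ∀ i ∈ range (k + 1), (fun u => if u = y then (1 : ℚ) else 0)
      (f (act (aln f g (i + 1)) z)) + (fun u => if u = y then (1 : ℚ) else 0)
      (g (act (aln f g (i + 1)) z)) =
      (fun u => if u = y then (1 : ℚ) else 0) (act (aln f g (i + 2)) z) +
        (fun u => if u = y then (1 : ℚ) else 0) (act (aln f g i) z) :=
    fun i _ => pcA_two h z (fun u => if u = y then (1 : ℚ) else 0) i
  rw [sum_congr rfl h1, sum_add_distrib, pcA_one hz (fun u => if u = y then (1 : ℚ) else 0),
    sum_range_succ' _ (k + 2), sum_range_succ' _ (k + 1)]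
  ring

private theorem pcA_row (h : PathP f g) {z : Fin n} (hz : g z = z) (k : ℕ) :
    (∀ y, (aeval (Bp f g) (cheb k)) z y =
      ∑ i ∈ range (k + 1), (if act (aln f g i) z = y then (1 : ℚ) else 0)) ∧
    (∀ y, (aeval (Bp f g) (cheb (k + 1))) z y =
      ∑ i ∈ range (k + 2), (if act (aln f g i) z = y then (1 : ℚ) else 0)) := by
  induction k with
  | zero =>
    constructor
    · intro y
      show (aeval (Bp f g) (1 : ℚ[X])) z y = _
      rw [map_one, Matrix.one_apply, sum_range_one, pcA_zero]
    · intro y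
      show (aeval (Bp f g) (X : ℚ[X])) z y = _
      rw [aeval_X, sum_range_succ, sum_range_one, pcA_zero]
      unfold Bp
      rw [Matrix.of_apply, hz]
      have : act (aln f g 1) z = f z := rfl
      rw [this]
      ring
  | succ k ih =>
    refine ⟨ih.2, fun y => ?_⟩
    have e : cheb (k + 1 + 1) = cheb (k + 1) * X - cheb k := by
      rw [mul_comm]
      rfl
    rw [e, map_sub, map_mul, aeval_X, Matrix.sub_apply, pcA_mul h, ih.1, ih.2, ih.2,
      ← sum_add_distrib, pcA_sum h hz]
    ring

private theorem pcA_all (h : PathP f g) {z : Fin n} (hz : g z = z) (hn : 0 < n) (y : Fin n) :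
    (aeval (Bp f g) (cheb (n - 1))) z y = 1 := by
  rw [(pcA_row h hz (n - 1)).1 y]
  have hn1 : n - 1 + 1 = n := by omega
  rw [hn1]
  obtain ⟨i, hi, hy⟩ := path_cover h hz y
  rw [sum_eq_single i]
  · rw [if_pos hy]
  · intro j hj hji
    rw [if_neg]
    intro hj'
    exact hji (path_inj h hz (mem_range.1 hj) hi (hj'.trans hy.symm))
  · intro hi'
    exact absurd (mem_range.2 hi) hi'

private theorem pcA_tri (h : PathP f g) {z : Fin n} (hz : g z = z) (hn : 0 < n) (i : ℕ) :
    i < n → (Bp f g ^ i) z (act (aln f g i) z) = 1 ∧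
      ∀ j, i < j → j < n → (Bp f g ^ i) z (act (aln f g j) z) = 0 := by
  induction i with
  | zero =>
    intro _
    constructor
    · rw [pow_zero, pcA_zero, Matrix.one_apply_eq]
    · intro j hj hjn
      rw [pow_zero, Matrix.one_apply_ne]
      intro he
      exact absurd (path_inj h hz hn hjn he) (by omega)
  | succ i ih =>
    intro hi
    obtain ⟨h1, h2⟩ := ih (by omega)
    have key : ∀ j, i < j → j < n →
        (Bp f g ^ i) z (act (aln f g (j + 1)) z) = 0 := by
      intro j hj hjn
      rcases Nat.lt_or_ge (j + 1) n with h3 | h3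
      · exact h2 (j + 1) (by omega) h3
      · have h4 : j + 1 = n := by omega
        have h5 : n - 1 = j := by omega
        rw [h4, path_end h hz hn, h5]
        exact h2 j hj hjn
    have step : ∀ j, (Bp f g ^ (i + 1)) z (act (aln f g (j + 1)) z) =
        (Bp f g ^ i) z (act (aln f g (j + 2)) z) + (Bp f g ^ i) z (act (aln f g j) z) := by
      intro j
      rw [pow_succ, pcA_mul h]
      exact pcA_two h z (fun w => (Bp f g ^ i) z w) j
    constructor
    · rw [step, h1, key (i + 1) (by omega) hi, zero_add]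
    · intro j hj hjn
      obtain ⟨j', rfl⟩ : ∃ j', j = j' + 1 := ⟨j - 1, by omega⟩
      rw [step, key (j' + 1) (by omega) hjn, h2 j' (by omega) (by omega), zero_add]

theorem charpoly_Bp (h : PathP f g) (hn : 0 < n) :
    (Bp f g).charpoly = (X - C 2) * cheb (n - 1) := by
  obtain ⟨z, hz⟩ := h.fx
  obtain ⟨c1, c2, -, -⟩ := pcA_cheb (n - 1)
  have mX : (X - C (2 : ℚ)).Monic := monic_X_sub_C 2
  have m1 : ((X - C 2) * cheb (n - 1) : ℚ[X]).Monic := mX.mul c1
  have d1 : ((X - C 2) * cheb (n - 1) : ℚ[X]).natDegree = n := by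
    rw [mX.natDegree_mul c1, natDegree_X_sub_C, c2]
    omega
  have m2 : (Bp f g).charpoly.Monic := Matrix.charpoly_monic _
  have d2 : (Bp f g).charpoly.natDegree = n := by
    rw [Matrix.charpoly_natDegree_eq_dim, Fintype.card_fin]
  set q := (Bp f g).charpoly - (X - C 2) * cheb (n - 1) with hq
  by_contra hne
  have hq0 : q ≠ 0 := by
    rw [hq]
    exact sub_ne_zero.2 hne
  have hqdeg : q.natDegree < n := by
    have h1 : q.degree < (Bp f g).charpoly.degree := by
      refine degree_sub_lt_left ?_ m2.ne_zero ?_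
      · rw [degree_eq_natDegree m1.ne_zero, degree_eq_natDegree m2.ne_zero, d1, d2]
      · rw [m1.leadingCoeff, m2.leadingCoeff]
    have h2 := natDegree_lt_natDegree hq0 h1
    rw [d2] at h2
    exact h2
  have hrow : ∀ y, (aeval (Bp f g) q) z y = 0 := by
    intro y
    have e : ((X - C 2) * cheb (n - 1) : ℚ[X]) = cheb (n - 1) * X - C 2 * cheb (n - 1) := by ring
    rw [hq, e, map_sub, Matrix.aeval_self_charpoly, map_sub, map_mul, map_mul, aeval_X, aeval_C,
      Algebra.algebraMap_eq_smul_one, smul_mul_assoc, one_mul, Matrix.sub_apply,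
      Matrix.sub_apply, pcA_mul h, Matrix.smul_apply, pcA_all h hz hn, pcA_all h hz hn,
      pcA_all h hz hn, Matrix.zero_apply, smul_eq_mul]
    norm_num
  have h1 := hrow (act (aln f g q.natDegree) z)
  rw [aeval_eq_sum_range, Matrix.sum_apply, sum_range_succ, sum_eq_zero, zero_add,
    Matrix.smul_apply, (pcA_tri h hz hn _ hqdeg).1, smul_eq_mul, mul_one] at h1
  · exact hq0 (leadingCoeff_eq_zero.1 h1)
  · intro i hi
    have hi' := mem_range.1 hi
    rw [Matrix.smul_apply, (pcA_tri h hz hn i (by omega)).2 _ hi' hqdeg, smul_zero]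

end Pool.Agent.SYP
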