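import Pool.Agent.Helper41.Circ.Ext

/-!
# SYU-PDefs: two involutions generating a path, definitions

Project SYU (MP_a3a126_co), section D7 of /team-store/a3a126b_87.md.
-/

set_option autoImplicit false

open Finset Polynomial Helper41.Circ

namespace Pool.Agent.SYP

variable {n : ℕ}

/-- alternating functions -/
def al (f g : Fin n → Fin n) (i : ℕ) : Fin n → Fin n := if i % 2 = 0 then f else g

/-- the alternating word of length `i`, first letter `f` -/
def aln (f g : Fin n → Fin n) : ℕ → List (Fin n → Fin n)
  | 0 => []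
  | i + 1 => aln f g i ++ [al f g i]

/-- `f`, `g` are involutions, transitive, and `g` has a fixed point -/
structure PathP (f g : Fin n → Fin n) : Prop where
  ff : ∀ x, f (f x) = x
  gg : ∀ x, g (g x) = x
  tr : ∀ U : Finset (Fin n), U.Nonempty → (∀ x ∈ U, f x ∈ U ∧ g x ∈ U) → U = univ
  fx : ∃ z, g z = z

theorem act_aln_succ (f g : Fin n → Fin n) (i : ℕ) (x : Fin n) :
    act (aln f g (i + 1)) x = al f g i (act (aln f g i) x) := by
  show act (aln f g i ++ [al f g i]) x = _
  rw [act_append]
  rfl

/-- the matrix of the two involutions -/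
def Bp (f g : Fin n → Fin n) : Matrix (Fin n) (Fin n) ℚ :=
  Matrix.of fun x y => (if f x = y then 1 else 0) + (if g x = y then 1 else 0)

/-- scaled Chebyshev polynomials of the second kind -/
noncomputable def cheb : ℕ → ℚ[X]
  | 0 => 1
  | 1 => X
  | k + 2 => X * cheb (k + 1) - cheb k

/-- the number of letters different from `f` and `g` -/
def nb2 (f g : Fin n → Fin n) : List (Fin n → Fin n) → ℕ
  | [] => 0
  | a :: w => (if a = f ∨ a = g then 0 else 1) + nb2 f g w

/-- the other letters -/
noncomputable def oth (Ω : Finset (Fin n → Fin n)) (f g : Fin n → Fin n) :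
    List (Fin n → Fin n) := (Ω.filter fun h => ¬ (h = f ∨ h = g)).toList

/-- four lists of words -/
structure Quad (n : ℕ) where
  /-- words beginning with `f` -/
  a : List (List (Fin n → Fin n))
  /-- words beginning with `g` -/
  b : List (List (Fin n → Fin n))
  /-- the other words -/
  c : List (List (Fin n → Fin n))
  /-- the previous `c` -/
  d : List (List (Fin n → Fin n))

/-- the lists of the positive expansion of `cheb k` -/
noncomputable def quad (Ω : Finset (Fin n → Fin n)) (f g : Fin n → Fin n) : ℕ → Quad n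
  | 0 => ⟨[], [], [[]], []⟩
  | k + 1 =>
    ⟨((quad Ω f g k).b ++ (quad Ω f g k).c).map (fun w => f :: w),
      ((quad Ω f g k).a ++ (quad Ω f g k).c).map (fun w => g :: w),
      ((oth Ω f g).flatMap fun h =>
        ((quad Ω f g k).a ++ (quad Ω f g k).b ++ (quad Ω f g k).c).map fun w => h :: w) ++
          (quad Ω f g k).d,
      (quad Ω f g k).c⟩

/-- the words of the positive expansion of `cheb k` -/
noncomputable def NL (Ω : Finset (Fin n → Fin n)) (f g : Fin n → Fin n) (k : ℕ) :
    List (List (Fin n → Fin n)) :=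
  (quad Ω f g k).a ++ (quad Ω f g k).b ++ (quad Ω f g k).c

/-- the weight of a letter -/
noncomputable def wt2 (f g a : Fin n → Fin n) : ℚ[X] := if a = f ∨ a = g then 1 else X

/-- the polynomial matrix -/
noncomputable def Am2 (Ω : Finset (Fin n → Fin n)) (f g : Fin n → Fin n) :
    Matrix (Fin n) (Fin n) ℚ[X] :=
  Matrix.of fun x y => ∑ a ∈ Ω, if a x = y then wt2 f g a else 0

/-- the vector `p (Am2) φ` -/
noncomputable def vec (Ω : Finset (Fin n → Fin n)) (f g : Fin n → Fin n) (S : Finset (Fin n))
    (p : ℚ[X]) : Fin n → ℚ[X] :=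
  (aeval (Am2 Ω f g) p).mulVec fun x => C (sv S x)

/-- the functional of the words that begin with another letter -/
noncomputable def Lam (Ω : Finset (Fin n → Fin n)) (f g : Fin n → Fin n) (S : Finset (Fin n))
    (m : ℕ) (q : ℚ[X]) : ℚ :=
  ((oth Ω f g).map fun h => (∑ x, vec Ω f g S q (h x)).coeff m).sum

/-- no two consecutive equal letters from `f`, `g` -/
def Red (f g : Fin n → Fin n) : List (Fin n → Fin n) → Prop
  | [] => True
  | a :: w => (∀ b ∈ w.head?, b = a → a ≠ f ∧ a ≠ g) ∧ Red f g w

end Pool.Agent.SYP
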