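import Pool.Agent.SYU.PDefs

/-! SYU-PExp: the positive expansion (project SYU). -/

set_option autoImplicit false

open Finset Polynomial Helper41.Circ

namespace Pool.Agent.SYP

variable {n : ℕ} {f g : Fin n → Fin n} {Ω : Finset (Fin n → Fin n)}

theorem mulVec_Am2 (hf : f ∈ Ω) (hg : g ∈ Ω) (hfg : f ≠ g) (v : Fin n → ℚ[X]) (x : Fin n) :
    (Am2 Ω f g).mulVec v x = v (f x) + v (g x) + X * ((oth Ω f g).map fun h => v (h x)).sum := by
  have h1 : (Am2 Ω f g).mulVec v x = ∑ a ∈ Ω, wt2 f g a * v (a x) := by
    unfold Am2 Matrix.mulVec dotProduct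
    simp only [Matrix.of_apply, Finset.sum_mul, ite_mul, zero_mul]
    rw [Finset.sum_comm]
    refine Finset.sum_congr rfl fun a _ => ?_
    rw [Finset.sum_ite_eq, if_pos (Finset.mem_univ _)]
  have h2 : (Ω.filter fun h => h = f ∨ h = g) = {f, g} := by
    ext h
    rw [mem_filter, mem_insert, mem_singleton]
    constructor
    · exact fun h' => h'.2
    · rintro (rfl | rfl)
      · exact ⟨hf, Or.inl rfl⟩
      · exact ⟨hg, Or.inr rfl⟩
  rw [h1, ← Finset.sum_filter_add_sum_filter_not Ω (fun h => h = f ∨ h = g), h2,
    Finset.sum_pair hfg]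
  unfold oth
  rw [Finset.sum_map_toList, Finset.mul_sum]
  have h3 : wt2 f g f = 1 := if_pos (Or.inl rfl)
  have h4 : wt2 f g g = 1 := if_pos (Or.inr rfl)
  rw [h3, h4, one_mul, one_mul]
  congr 1
  refine Finset.sum_congr rfl fun a ha => ?_
  have h5 : wt2 f g a = X := if_neg (mem_filter.1 ha).2
  rw [h5]

private noncomputable def pev (f g : Fin n → Fin n) (S : Finset (Fin n))
    (L : List (List (Fin n → Fin n))) (x : Fin n) : ℚ[X] :=
  (L.map fun w => C (sv S (act w x)) * X ^ nb2 f g w).sum

private theorem pev_append (f g : Fin n → Fin n) (S : Finset (Fin n))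
    (L L' : List (List (Fin n → Fin n))) (x : Fin n) :
    pev f g S (L ++ L') x = pev f g S L x + pev f g S L' x := by
  unfold pev
  rw [List.map_append, List.sum_append]

private theorem pev_cons (f g : Fin n → Fin n) (S : Finset (Fin n)) {a : Fin n → Fin n}
    (ha : a = f ∨ a = g) (L : List (List (Fin n → Fin n))) (x : Fin n) :
    pev f g S (L.map fun w => a :: w) x = pev f g S L (a x) := by
  unfold pev
  rw [List.map_map]
  congr 1
  refine List.map_congr_left fun w _ => ?_
  have h1 : nb2 f g (a :: w) = nb2 f g w := by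
    show (if a = f ∨ a = g then 0 else 1) + nb2 f g w = _
    rw [if_pos ha, zero_add]
  show C (sv S (act (a :: w) x)) * X ^ nb2 f g (a :: w) = _
  rw [h1, act_cons]

private theorem pev_cons' (f g : Fin n → Fin n) (S : Finset (Fin n)) {a : Fin n → Fin n}
    (ha : ¬ (a = f ∨ a = g)) (L : List (List (Fin n → Fin n))) (x : Fin n) :
    pev f g S (L.map fun w => a :: w) x = X * pev f g S L (a x) := by
  unfold pev
  rw [List.map_map, ← List.sum_map_mul_left]
  congr 1
  refine List.map_congr_left fun w _ => ?_
  have h1 : nb2 f g (a :: w) = nb2 f g w + 1 := by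
    show (if a = f ∨ a = g then 0 else 1) + nb2 f g w = _
    rw [if_neg ha, add_comm]
  show C (sv S (act (a :: w) x)) * X ^ nb2 f g (a :: w) = _
  rw [h1, act_cons, pow_succ]
  ring

private theorem pev_flat (f g : Fin n → Fin n) (S : Finset (Fin n))
    (l : List (Fin n → Fin n)) (hl : ∀ a ∈ l, ¬ (a = f ∨ a = g))
    (L : List (List (Fin n → Fin n))) (x : Fin n) :
    pev f g S (l.flatMap fun h => L.map fun w => h :: w) x =
      X * (l.map fun h => pev f g S L (h x)).sum := by
  induction l with
  | nil =>
    unfold pev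
    simp
  | cons a l ih =>
    rw [List.flatMap_cons, pev_append, pev_cons' f g S (hl a List.mem_cons_self),
      ih (fun b hb => hl b (List.mem_cons_of_mem _ hb)), List.map_cons, List.sum_cons]
    ring

private theorem pev_NL (f g : Fin n → Fin n) (S : Finset (Fin n)) (k : ℕ) (x : Fin n) :
    pev f g S (NL Ω f g k) x = pev f g S (quad Ω f g k).a x + pev f g S (quad Ω f g k).b x +
      pev f g S (quad Ω f g k).c x := by
  unfold NL
  rw [pev_append, pev_append]

private theorem pexp_a (f : Fin n → Fin n) (S : Finset (Fin n)) (k : ℕ) (x : Fin n) :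
    pev f g S (quad Ω f g (k + 1)).a x = pev f g S (quad Ω f g k).b (f x) +
      pev f g S (quad Ω f g k).c (f x) := by
  have h : (quad Ω f g (k + 1)).a =
      ((quad Ω f g k).b ++ (quad Ω f g k).c).map (fun w => f :: w) := rfl
  rw [h, pev_cons f g S (Or.inl rfl), pev_append]

private theorem pexp_b (g : Fin n → Fin n) (S : Finset (Fin n)) (k : ℕ) (x : Fin n) :
    pev f g S (quad Ω f g (k + 1)).b x = pev f g S (quad Ω f g k).a (g x) +
      pev f g S (quad Ω f g k).c (g x) := by
  have h : (quad Ω f g (k + 1)).b =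
      ((quad Ω f g k).a ++ (quad Ω f g k).c).map (fun w => g :: w) := rfl
  rw [h, pev_cons f g S (Or.inr rfl), pev_append]

private theorem pexp_c (g : Fin n → Fin n) (S : Finset (Fin n)) (k : ℕ) (x : Fin n) :
    pev f g S (quad Ω f g (k + 1)).c x =
      X * ((oth Ω f g).map fun h => pev f g S (NL Ω f g k) (h x)).sum +
      pev f g S (quad Ω f g k).d x := by
  have h : (quad Ω f g (k + 1)).c = ((oth Ω f g).flatMap fun h =>
        (NL Ω f g k).map fun w => h :: w) ++ (quad Ω f g k).d := rfl
  rw [h, pev_append, pev_flat]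
  intro a ha
  unfold oth at ha
  rw [Finset.mem_toList, mem_filter] at ha
  exact ha.2

private theorem pexp_d (S : Finset (Fin n)) (k : ℕ) (x : Fin n) :
    pev f g S (quad Ω f g (k + 1)).d x = pev f g S (quad Ω f g k).c x := rfl

private theorem pexp_nil : ∀ k : ℕ, k % 2 = 0 → ([] : List (Fin n → Fin n)) ∈ (quad Ω f g k).c
  | 0, _ => by
    show ([] : List (Fin n → Fin n)) ∈ [[]]
    simp
  | 1, h => by omega
  | k + 2, h => by
    have h1 := pexp_nil k (by omega)
    have h2 : (quad Ω f g (k + 2)).c = ((oth Ω f g).flatMap fun h =>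
        (NL Ω f g (k + 1)).map fun w => h :: w) ++ (quad Ω f g k).c := rfl
    rw [h2, List.mem_append]
    exact Or.inr h1

private theorem pexp_all (P : ℕ → List (Fin n → Fin n) → Prop) (h0 : ∀ w, w = [] → P 0 w)
    (h1 : ∀ k w a, (a = f ∨ a = g ∨ a ∈ Ω) → P k w → P (k + 1) (a :: w))
    (h2 : ∀ k w, P k w → P (k + 1) w) (k : ℕ) :
    (∀ w ∈ (quad Ω f g k).a, P k w) ∧ (∀ w ∈ (quad Ω f g k).b, P k w) ∧
      (∀ w ∈ (quad Ω f g k).c, P k w) ∧ (∀ w ∈ (quad Ω f g k).d, P k w) := by
  induction k with
  | zero =>
    refine ⟨fun w hw => ?_, fun w hw => ?_, fun w hw => ?_, fun w hw => ?_⟩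
    · exact absurd hw (by show w ∉ []; simp)
    · exact absurd hw (by show w ∉ []; simp)
    · have h3 : w ∈ ([[]] : List (List (Fin n → Fin n))) := hw
      exact h0 w (by simpa using h3)
    · exact absurd hw (by show w ∉ []; simp)
  | succ k ih =>
    obtain ⟨ia, ib, ic, id⟩ := ih
    refine ⟨fun w hw => ?_, fun w hw => ?_, fun w hw => ?_, fun w hw => ?_⟩
    · obtain ⟨w', hw', rfl⟩ := List.mem_map.1 hw
      rcases List.mem_append.1 hw' with h | h
      · exact h1 k w' f (Or.inl rfl) (ib w' h)
      · exact h1 k w' f (Or.inl rfl) (ic w' h)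
    · obtain ⟨w', hw', rfl⟩ := List.mem_map.1 hw
      rcases List.mem_append.1 hw' with h | h
      · exact h1 k w' g (Or.inr (Or.inl rfl)) (ia w' h)
      · exact h1 k w' g (Or.inr (Or.inl rfl)) (ic w' h)
    · rcases List.mem_append.1 hw with h | h
      · obtain ⟨a, ha, hwa⟩ := List.mem_flatMap.1 h
        obtain ⟨w', hw', rfl⟩ := List.mem_map.1 hwa
        have haΩ : a ∈ Ω := by
          unfold oth at ha
          rw [Finset.mem_toList, mem_filter] at ha
          exact ha.1
        rcases List.mem_append.1 hw' with h | h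
        · rcases List.mem_append.1 h with h | h
          · exact h1 k w' a (Or.inr (Or.inr haΩ)) (ia w' h)
          · exact h1 k w' a (Or.inr (Or.inr haΩ)) (ib w' h)
        · exact h1 k w' a (Or.inr (Or.inr haΩ)) (ic w' h)
      · exact h2 k w (id w h)
    · exact h2 k w (ic w hw)

theorem vec_cheb (h : PathP f g) (hf : f ∈ Ω) (hg : g ∈ Ω) (hfg : f ≠ g) (S : Finset (Fin n))
    (k : ℕ) (x : Fin n) :
    vec Ω f g S (cheb k) x =
      ((NL Ω f g k).map fun w => C (sv S (act w x)) * X ^ nb2 f g w).sum := by
  have hstep : ∀ k, (∀ x, vec Ω f g S (cheb k) x = pev f g S (NL Ω f g k) x) ∧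
      ∀ x, vec Ω f g S (cheb (k + 1)) x = pev f g S (NL Ω f g (k + 1)) x := by
    intro k
    induction k with
    | zero =>
      have h0 : ∀ x, vec Ω f g S (cheb 0) x = C (sv S x) := by
        intro x
        unfold vec
        have : cheb 0 = 1 := rfl
        rw [this, map_one, Matrix.one_mulVec]
      refine ⟨fun x => ?_, fun x => ?_⟩
      · rw [h0]
        unfold pev NL quad
        simp [nb2]
      · have h1 : vec Ω f g S (cheb (0 + 1)) x = (Am2 Ω f g).mulVec (fun x => C (sv S x)) x := by
          unfold vec
          have : cheb (0 + 1) = X := rfl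
          rw [this, aeval_X]
        rw [h1, mulVec_Am2 hf hg hfg, pev_NL, pexp_a, pexp_b, pexp_c]
        have e1 : ∀ y, pev f g S (quad Ω f g 0).a y = 0 := fun y => rfl
        have e2 : ∀ y, pev f g S (quad Ω f g 0).b y = 0 := fun y => rfl
        have e4 : ∀ y, pev f g S (quad Ω f g 0).d y = 0 := fun y => rfl
        have e3 : ∀ y, pev f g S (quad Ω f g 0).c y = C (sv S y) := by
          intro y
          unfold pev quad
          simp [nb2]
        have e5 : ∀ y, pev f g S (NL Ω f g 0) y = C (sv S y) := by
          intro y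
          rw [pev_NL, e1, e2, e3, zero_add, zero_add]
        simp only [e1, e2, e3, e4, e5, zero_add, add_zero]
    | succ k ih =>
      refine ⟨ih.2, fun x => ?_⟩
      have h1 : vec Ω f g S (cheb (k + 1 + 1)) x =
          (Am2 Ω f g).mulVec (vec Ω f g S (cheb (k + 1))) x - vec Ω f g S (cheb k) x := by
        unfold vec
        have : cheb (k + 1 + 1) = X * cheb (k + 1) - cheb k := rfl
        rw [this, map_sub, map_mul, aeval_X, Matrix.sub_mulVec, ← Matrix.mulVec_mulVec]
        rfl
      rw [h1, mulVec_Am2 hf hg hfg]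
      simp only [ih.1, ih.2]
      rw [pev_NL _ _ _ (k + 1 + 1), pexp_a _ _ (k + 1), pexp_b _ _ (k + 1), pexp_c _ _ (k + 1),
        pexp_d, pev_NL f g S (k + 1) (f x), pev_NL f g S (k + 1) (g x), pev_NL f g S k x,
        pexp_a _ _ k (f x), pexp_b _ _ k (g x), h.ff, h.gg]
      ring
  exact (hstep k).1 x

theorem NL_len {k : ℕ} {w : List (Fin n → Fin n)} (hw : w ∈ NL Ω f g k) : w.length ≤ k := by
  have h := pexp_all (Ω := Ω) (f := f) (g := g) (fun k w => w.length ≤ k)
    (fun w => by rintro rfl; simp) (fun k w a _ h => by simpa using h) (fun k w h => by omega) k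
  unfold NL at hw
  rw [List.mem_append, List.mem_append] at hw
  rcases hw with (hw | hw) | hw
  · exact h.1 w hw
  · exact h.2.1 w hw
  · exact h.2.2.1 w hw

theorem NL_over (hf : f ∈ Ω) (hg : g ∈ Ω) {k : ℕ} {w : List (Fin n → Fin n)}
    (hw : w ∈ NL Ω f g k) : Over Ω w := by
  have h := pexp_all (Ω := Ω) (f := f) (g := g) (fun _ w => Over Ω w)
    (fun w => by rintro rfl; intro a ha; simp at ha) (fun k w a ha h => by
      intro b hb
      rcases List.mem_cons.1 hb with rfl | hb
      · rcases ha with rfl | rfl | ha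
        · exact hf
        · exact hg
        · exact ha
      · exact h b hb) (fun k w h => h) k
  unfold NL at hw
  rw [List.mem_append, List.mem_append] at hw
  rcases hw with (hw | hw) | hw
  · exact h.1 w hw
  · exact h.2.1 w hw
  · exact h.2.2.1 w hw

theorem NL_mem (hfg : f ≠ g) {k : ℕ} {w : List (Fin n → Fin n)} (hw : Over Ω w) (hr : Red f g w)
    (hl : w.length ≤ k) (hp : w.length % 2 = k % 2) : w ∈ NL Ω f g k := by
  have hmain : ∀ (k : ℕ) (w : List (Fin n → Fin n)), Over Ω w → Red f g w → w.length ≤ k →
      w.length % 2 = k % 2 → (w.head? = some f → w ∈ (quad Ω f g k).a) ∧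
        (w.head? = some g → w ∈ (quad Ω f g k).b) ∧
        (w.head? ≠ some f → w.head? ≠ some g → w ∈ (quad Ω f g k).c) := by
    intro k
    induction k with
    | zero =>
      intro w _ _ hl _
      have h0 : w = [] := List.length_eq_zero_iff.1 (by omega)
      subst h0
      refine ⟨fun h => by simp at h, fun h => by simp at h, fun _ _ => ?_⟩
      show ([] : List (Fin n → Fin n)) ∈ [[]]
      simp
    | succ k ih =>
      intro w hw hr hl hp
      cases w with
      | nil =>
        refine ⟨fun h => by simp at h, fun h => by simp at h, fun _ _ => ?_⟩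
        exact pexp_nil (k + 1) (by simpa using hp.symm)
      | cons a w' =>
        have hw' : Over Ω w' := fun b hb => hw b (List.mem_cons_of_mem _ hb)
        have ha : a ∈ Ω := hw a List.mem_cons_self
        have hr1 := hr.1
        have hr' : Red f g w' := hr.2
        have hl' : w'.length ≤ k := by
          rw [List.length_cons] at hl
          omega
        have hp' : w'.length % 2 = k % 2 := by
          rw [List.length_cons] at hp
          omega
        obtain ⟨i1, i2, i3⟩ := ih w' hw' hr' hl' hp'
        rw [List.head?_cons]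
        refine ⟨?_, ?_, ?_⟩
        · intro h
          have haf : a = f := Option.some.inj h
          subst haf
          show a :: w' ∈ ((quad Ω a g k).b ++ (quad Ω a g k).c).map (fun w => a :: w)
          refine List.mem_map.2 ⟨w', ?_, rfl⟩
          rw [List.mem_append]
          have h1 : w'.head? ≠ some a := by
            intro h2
            exact (hr1 a (by rw [h2]; rfl) rfl).1 rfl
          by_cases h2 : w'.head? = some g
          · exact Or.inl (i2 h2)
          · exact Or.inr (i3 h1 h2)
        · intro h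
          have hag : a = g := Option.some.inj h
          subst hag
          show a :: w' ∈ ((quad Ω f a k).a ++ (quad Ω f a k).c).map (fun w => a :: w)
          refine List.mem_map.2 ⟨w', ?_, rfl⟩
          rw [List.mem_append]
          have h1 : w'.head? ≠ some a := by
            intro h2
            exact (hr1 a (by rw [h2]; rfl) rfl).2 rfl
          by_cases h2 : w'.head? = some f
          · exact Or.inl (i1 h2)
          · exact Or.inr (i3 h2 h1)
        · intro h1 h2
          have h3 : ¬ (a = f ∨ a = g) := by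
            rintro (h | h)
            · exact h1 (by rw [h])
            · exact h2 (by rw [h])
          show a :: w' ∈ ((oth Ω f g).flatMap fun h =>
            ((quad Ω f g k).a ++ (quad Ω f g k).b ++ (quad Ω f g k).c).map fun w => h :: w) ++
              (quad Ω f g k).d
          rw [List.mem_append]
          left
          rw [List.mem_flatMap]
          refine ⟨a, ?_, List.mem_map.2 ⟨w', ?_, rfl⟩⟩
          · unfold oth
            rw [Finset.mem_toList, mem_filter]
            exact ⟨ha, h3⟩
          · rw [List.mem_append, List.mem_append]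
            by_cases h4 : w'.head? = some f
            · exact Or.inl (Or.inl (i1 h4))
            by_cases h5 : w'.head? = some g
            · exact Or.inl (Or.inr (i2 h5))
            · exact Or.inr (i3 h4 h5)
  obtain ⟨i1, i2, i3⟩ := hmain k w hw hr hl hp
  unfold NL
  rw [List.mem_append, List.mem_append]
  by_cases h4 : w.head? = some f
  · exact Or.inl (Or.inl (i1 h4))
  by_cases h5 : w.head? = some g
  · exact Or.inl (Or.inr (i2 h5))
  · exact Or.inr (i3 h4 h5)

end Pool.Agent.SYP
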