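import Pool.Agent.SYU.PDefs

/-!
# SYU-PShort: shortest words

Project SYU (MP_a3a126_co), section D7 of /team-store/a3a126b_87.md. `short_wordP` is `short_word` of
Pool/Agent/Helper41/Circ/Ext.lean with `nb2 f g` in place of `nb b` (the same proof: the matrix
`sg (w.take i ++ w.drop k)` is triangular with non-zero diagonal and has rank `≤ n`).
`short_red`: a factor `[a, a]`, `a ∈ {f, g}`, can be cancelled (`f`, `g` are involutions) without changing `act` and `nb2`, a first
letter `a ∈ {f, g}` can be deleted without changing `sg` (`a` is a bijection of the states) and `nb2`; `sg S [] = 0`.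
-/

set_option autoImplicit false

open Finset Helper41.Circ

namespace Pool.Agent.SYP

variable {n : ℕ} {f g : Fin n → Fin n} {Ω : Finset (Fin n → Fin n)}

private theorem psh_nb (u v : List (Fin n → Fin n)) :
    nb2 f g (u ++ v) = nb2 f g u + nb2 f g v := by
  induction u with
  | nil => simp [nb2]
  | cons a u ih => simp only [List.cons_append, nb2, ih]; ring

private theorem psh_bij (h : PathP f g) : Function.Bijective f ∧ Function.Bijective g :=
  ⟨Function.Involutive.bijective h.ff, Function.Involutive.bijective h.gg⟩

private theorem psh_red {w : List (Fin n → Fin n)} (h : ¬ Red f g w) :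
    ∃ u a v, w = u ++ a :: a :: v ∧ (a = f ∨ a = g) := by
  induction w with
  | nil => exact absurd trivial h
  | cons a w ih =>
    by_cases h1 : Red f g w
    · have h2 : ¬ ∀ b ∈ w.head?, b = a → a ≠ f ∧ a ≠ g := fun h3 => h ⟨h3, h1⟩
      push Not at h2
      obtain ⟨b, hb, hba, h3⟩ := h2
      cases w with
      | nil => simp at hb
      | cons c w =>
        simp only [List.head?_cons, Option.mem_def, Option.some.injEq] at hb
        subst hb
        subst hba
        refine ⟨[], c, w, rfl, ?_⟩
        by_cases h4 : c = f
        · exact Or.inl h4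
        · exact Or.inr (h3 h4)
    · obtain ⟨u, c, v, hw, hc⟩ := ih h1
      exact ⟨a :: u, c, v, by rw [hw]; rfl, hc⟩

theorem sg_cons (h : PathP f g) (S : Finset (Fin n)) (w : List (Fin n → Fin n)) :
    sg S (f :: w) = sg S w ∧ sg S (g :: w) = sg S w := by
  obtain ⟨h1, h2⟩ := psh_bij h
  constructor
  · exact Function.Bijective.sum_comp h1 fun x => sv S (act w x)
  · exact Function.Bijective.sum_comp h2 fun x => sv S (act w x)

theorem sg_zero (h : PathP f g) (S : Finset (Fin n)) {w : List (Fin n → Fin n)}
    (hw : nb2 f g w = 0) : sg S w = 0 := by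
  induction w with
  | nil => exact sg_nil S
  | cons a w ih =>
    rw [nb2] at hw
    have h1 : a = f ∨ a = g := by
      by_contra h2
      rw [if_neg h2] at hw
      omega
    have h2 : nb2 f g w = 0 := by omega
    rcases h1 with rfl | rfl
    · rw [(sg_cons h S w).1]
      exact ih h2
    · rw [(sg_cons h S w).2]
      exact ih h2

theorem short_wordP {S : Finset (Fin n)} {M N : ℕ}
    (hM : ∀ w, Over Ω w → nb2 f g w < M → sg S w = 0)
    (hN : ∀ w, Over Ω w → nb2 f g w = M → w.length < N → sg S w = 0)
    {w : List (Fin n → Fin n)} (hw : Over Ω w) (hwM : nb2 f g w = M) (hwN : w.length = N)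
    (hsg : sg S w ≠ 0) : N + 1 ≤ n := by
  classical
  let K : Matrix (Fin (N + 1)) (Fin n) ℚ := fun i y =>
    ((univ.filter fun x => act (w.take i) x = y).card : ℚ)
  let V : Matrix (Fin n) (Fin (N + 1)) ℚ := fun y k => sv S (act (w.drop k) y)
  have hKV : ∀ i k : Fin (N + 1), (K * V) i k = sg S (w.take i ++ w.drop k) := by
    intro i k
    rw [Matrix.mul_apply]
    unfold sg
    simp only [K, V, act_append]
    have h1 : ∀ y : Fin n, ((univ.filter fun x => act (w.take i) x = y).card : ℚ) *
        sv S (act (w.drop k) y) =
        ∑ x : Fin n, if act (w.take i) x = y then sv S (act (w.drop k) (act (w.take i) x)) else 0 := by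
      intro y
      rw [← sum_filter, card_eq_sum_ones, Nat.cast_sum, sum_mul]
      refine sum_congr rfl fun x hx => ?_
      rw [(mem_filter.1 hx).2]
      simp
    rw [sum_congr rfl fun y _ => h1 y, sum_comm]
    refine sum_congr rfl fun x _ => ?_
    rw [sum_ite_eq]
    simp
  have hov : ∀ i k : ℕ, Over Ω (w.take i ++ w.drop k) := by
    intro i k f hf
    rcases List.mem_append.1 hf with h | h
    · exact hw f (List.mem_of_mem_take h)
    · exact hw f (List.mem_of_mem_drop h)
  have htri : ∀ i k : Fin (N + 1), i < k → (K * V) i k = 0 := by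
    intro i k hik
    have hik' : (i : ℕ) < k := hik
    have hk : (k : ℕ) ≤ N := by have := k.2; omega
    rw [hKV]
    have hlen : (w.take i ++ w.drop k).length < N := by
      rw [List.length_append, List.length_take, List.length_drop, hwN]
      omega
    have hnb : nb2 f g (w.take i ++ w.drop k) ≤ M := by
      have h1 : w = w.take i ++ ((w.drop i).take (k - i) ++ w.drop k) := by
        have h2 : w.drop k = (w.drop i).drop (k - i) := by
          rw [List.drop_drop]; congr 1; omega
        rw [h2, List.take_append_drop, List.take_append_drop]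
      have h3 := congrArg (nb2 f g) h1
      rw [psh_nb, psh_nb, hwM] at h3
      rw [psh_nb]
      omega
    rcases Nat.lt_or_eq_of_le hnb with h | h
    · exact hM _ (hov _ _) h
    · exact hN _ (hov _ _) h hlen
  have hdiag : ∀ i : Fin (N + 1), (K * V) i i ≠ 0 := by
    intro i
    rw [hKV, List.take_append_drop]
    exact hsg
  have hdet : (K * V).det ≠ 0 := by
    rw [Matrix.det_of_isLowerTriangular (K * V) (fun i j hij => htri i j hij)]
    exact prod_ne_zero_iff.2 fun i _ => hdiag i
  have hrank : (K * V).rank = N + 1 := by
    rw [Matrix.rank_of_isUnit _ ((Matrix.isUnit_iff_isUnit_det _).2 (isUnit_iff_ne_zero.2 hdet)),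
      Fintype.card_fin]
  have h1 : (K * V).rank ≤ K.rank := Matrix.rank_mul_le_left K V
  have h2 : K.rank ≤ n := by
    have := Matrix.rank_le_width K
    simpa using this
  omega

theorem short_red (h : PathP f g) {S : Finset (Fin n)} {M N : ℕ}
    (hN : ∀ w, Over Ω w → nb2 f g w = M → w.length < N → sg S w = 0)
    {w : List (Fin n → Fin n)} (hw : Over Ω w) (hwM : nb2 f g w = M) (hwN : w.length = N)
    (hsg : sg S w ≠ 0) : Red f g w ∧ ∃ a w', w = a :: w' ∧ a ≠ f ∧ a ≠ g := by
  constructor
  · by_contra hr
    obtain ⟨u, a, v, he, ha⟩ := psh_red hr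
    have haa : ∀ x, a (a x) = x := by
      rcases ha with rfl | rfl
      · exact h.ff
      · exact h.gg
    have h1 : Over Ω (u ++ v) := by
      intro c hc
      refine hw c ?_
      rw [he]
      rcases List.mem_append.1 hc with h2 | h2
      · exact List.mem_append_left _ h2
      · exact List.mem_append_right _ (List.mem_cons_of_mem _ (List.mem_cons_of_mem _ h2))
    have h2 : nb2 f g (u ++ v) = M := by
      rw [← hwM, he, psh_nb, psh_nb]
      show _ = _ + ((if a = f ∨ a = g then 0 else 1) + ((if a = f ∨ a = g then 0 else 1) +
        nb2 f g v))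
      rw [if_pos ha]
      ring
    have h3 : (u ++ v).length < N := by
      rw [← hwN, he, List.length_append, List.length_append, List.length_cons, List.length_cons]
      omega
    apply hsg
    rw [← hN _ h1 h2 h3, he]
    unfold sg
    refine sum_congr rfl fun x _ => ?_
    rw [act_append, act_append, act_cons, act_cons, haa]
  · cases w with
    | nil => exact absurd (sg_nil S) hsg
    | cons a w =>
      refine ⟨a, w, rfl, ?_⟩
      by_contra h1
      have ha : a = f ∨ a = g := by
        by_contra h2
        push Not at h2
        exact h1 h2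
      have h2 : Over Ω w := fun c hc => hw c (List.mem_cons_of_mem _ hc)
      have h3 : nb2 f g w = M := by
        rw [← hwM, nb2, if_pos ha, zero_add]
      have h4 : w.length < N := by
        rw [← hwN, List.length_cons]
        omega
      apply hsg
      rw [← hN w h2 h3 h4]
      rcases ha with rfl | rfl
      · exact (sg_cons h S w).1
      · exact (sg_cons h S w).2

end Pool.Agent.SYP
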