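import Pool.Agent.SYU.PKey
import Pool.Agent.SYU.PShort

/-!
# SYU-PExtend: the extension lemma, path type

Project SYU (MP_a3a126_co). If no word of length `≤ n+1` enlarges `S`, then the functional of the
words with the least number of other letters vanishes on `cheb (n-1)` and on `cheb n`, and so on
every reduced word of length `≤ n-1`; a shortest word with `sg ≠ 0` is reduced and has length
`≤ n-1`.
-/

set_option autoImplicit false

open Finset Polynomial Helper41.Circ

namespace Pool.Agent.SYP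

variable {n : ℕ} {f g : Fin n → Fin n} {Ω : Finset (Fin n → Fin n)}

private theorem pxt_nonpos (L : List ℚ) (h : ∀ x ∈ L, x ≤ 0) : L.sum ≤ 0 := by
  induction L with
  | nil => simp
  | cons a L ih =>
    rw [List.sum_cons]
    have h1 := h a (List.mem_cons_self)
    have h2 := ih fun x hx => h x (List.mem_cons_of_mem _ hx)
    linarith

private theorem pxt_zero (L : List ℚ) (h : ∀ x ∈ L, x ≤ 0) (h0 : L.sum = 0) :
    ∀ x ∈ L, x = 0 := by
  induction L with
  | nil => intro x hx; exact absurd hx List.not_mem_nil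
  | cons a L ih =>
    rw [List.sum_cons] at h0
    have h1 := h a (List.mem_cons_self)
    have h2 := pxt_nonpos L fun x hx => h x (List.mem_cons_of_mem _ hx)
    intro x hx
    rcases List.mem_cons.1 hx with h3 | h3
    · rw [h3]
      linarith
    · exact ih (fun x hx => h x (List.mem_cons_of_mem _ hx)) (by linarith) x h3

private theorem pxt_oth {a : Fin n → Fin n} : a ∈ oth Ω f g ↔ a ∈ Ω ∧ a ≠ f ∧ a ≠ g := by
  unfold oth
  rw [mem_toList, mem_filter, not_or]

private theorem pxt_lam (h : PathP f g) (hf : f ∈ Ω) (hg : g ∈ Ω) (hfg : f ≠ g)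
    {S : Finset (Fin n)} (hle : ∀ w, Over Ω w → w.length ≤ n + 1 → sg S w ≤ 0) (m : ℕ) {k : ℕ}
    (hk : k ≤ n) :
    Lam Ω f g S m (cheb k) ≤ 0 ∧ (Lam Ω f g S m (cheb k) = 0 → ∀ a ∈ oth Ω f g,
      ∀ u ∈ NL Ω f g k, nb2 f g u = m → sg S (a :: u) = 0) := by
  have h1 : ∀ a ∈ oth Ω f g, ∀ x ∈ ((NL Ω f g k).filter fun w => decide (nb2 f g w = m)).map
      (fun w => sg S (a :: w)), x ≤ 0 := by
    intro a ha x hx
    obtain ⟨u, hu, rfl⟩ := List.mem_map.1 hx
    have hu1 := List.mem_of_mem_filter hu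
    refine hle _ ?_ ?_
    · intro b hb
      rcases List.mem_cons.1 hb with h2 | h2
      · rw [h2]
        exact (pxt_oth.1 ha).1
      · exact NL_over hf hg hu1 b h2
    · rw [List.length_cons]
      have h3 := NL_len hu1
      omega
  have h2 : ∀ y ∈ (oth Ω f g).map (fun a => (((NL Ω f g k).filter fun w =>
      decide (nb2 f g w = m)).map fun w => sg S (a :: w)).sum), y ≤ 0 := by
    intro y hy
    obtain ⟨a, ha, rfl⟩ := List.mem_map.1 hy
    exact pxt_nonpos _ (h1 a ha)
  rw [Lam_cheb h hf hg hfg S m k]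
  refine ⟨pxt_nonpos _ h2, fun h0 a ha u hu hum => ?_⟩
  have h3 := pxt_zero _ h2 h0 _ (List.mem_map_of_mem ha)
  refine pxt_zero _ (h1 a ha) h3 _ (List.mem_map_of_mem (f := fun w => sg S (a :: w)) ?_)
  rw [List.mem_filter]
  exact ⟨hu, by simp [hum]⟩

theorem extendP (h : PathP f g) (hf : f ∈ Ω) (hg : g ∈ Ω) (hfg : f ≠ g)
    {r : List (Fin n → Fin n)} (hr : Over Ω r) {q : Fin n} (hrq : ∀ x, act r x = q)
    {S : Finset (Fin n)} (hS0 : 0 < S.card) (hSn : S.card < n) :
    ∃ w, Over Ω w ∧ w.length ≤ n + 1 ∧ S.card < (pre w S).card := by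
  classical
  have hn : 0 < n := lt_of_le_of_lt (Nat.zero_le _) hSn
  have hn' : (0 : ℚ) < n := by exact_mod_cast hn
  by_contra hcon
  push Not at hcon
  have hle : ∀ w, Over Ω w → w.length ≤ n + 1 → sg S w ≤ 0 := by
    intro w hw hl
    rw [sg_eq]
    have h1 : ((pre w S).card : ℚ) ≤ S.card := by exact_mod_cast hcon w hw hl
    exact mul_nonpos_of_nonneg_of_nonpos hn'.le (by linarith)
  have hex : ∃ M, ∃ w, Over Ω w ∧ nb2 f g w = M ∧ sg S w ≠ 0 := by
    refine ⟨_, r, hr, rfl, ?_⟩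
    rw [sg_eq]
    refine mul_ne_zero hn'.ne' ?_
    rw [sub_ne_zero]
    intro h
    have h' : (pre r S).card = S.card := by exact_mod_cast h
    by_cases hq : q ∈ S
    · have : pre r S = univ := by
        ext x; simp [mem_pre, hrq, hq]
      rw [this, card_univ, Fintype.card_fin] at h'
      omega
    · have : pre r S = ∅ := by
        ext x; simp [mem_pre, hrq, hq]
      rw [this, card_empty] at h'
      omega
  obtain ⟨M, hMdef⟩ : ∃ M, M = Nat.find hex := ⟨_, rfl⟩
  have hMspec := Nat.find_spec hex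
  rw [← hMdef] at hMspec
  have hM : ∀ w, Over Ω w → nb2 f g w < M → sg S w = 0 := by
    intro w hw hlt
    by_contra hne
    rw [hMdef] at hlt
    exact Nat.find_min hex hlt ⟨w, hw, rfl, hne⟩
  have hexN : ∃ N, ∃ w, Over Ω w ∧ nb2 f g w = M ∧ w.length = N ∧ sg S w ≠ 0 := by
    obtain ⟨w, h1, h2, h3⟩ := hMspec
    exact ⟨_, w, h1, h2, rfl, h3⟩
  obtain ⟨N, hNdef⟩ : ∃ N, N = Nat.find hexN := ⟨_, rfl⟩
  have hNspec := Nat.find_spec hexN
  rw [← hNdef] at hNspec
  have hN : ∀ w, Over Ω w → nb2 f g w = M → w.length < N → sg S w = 0 := by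
    intro w hw hwM hlt
    by_contra hne
    rw [hNdef] at hlt
    exact Nat.find_min hexN hlt ⟨w, hw, hwM, rfl, hne⟩
  obtain ⟨w, h1, h2, h3, h4⟩ := hNspec
  have h5 := short_wordP hM hN h1 h2 h3 h4
  obtain ⟨hred, a, u, hau, haf, hag⟩ := short_red h hN h1 h2 h3 h4
  subst hau
  have h6 : nb2 f g (a :: u) = 1 + nb2 f g u := by
    show (if a = f ∨ a = g then 0 else 1) + nb2 f g u = _
    rw [if_neg (by rw [not_or]; exact ⟨haf, hag⟩)]
  obtain ⟨m, hm⟩ : ∃ m, M = m + 1 := ⟨nb2 f g u, by omega⟩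
  have h7 : nb2 f g u = m := by omega
  have h8 : u.length + 1 = N := by
    rw [← h3, List.length_cons]
  have h9 : Red f g u := hred.2
  have h10 : a ∈ oth Ω f g := pxt_oth.2 ⟨h1 a List.mem_cons_self, haf, hag⟩
  have h11 : Over Ω u := fun b hb => h1 b (List.mem_cons_of_mem _ hb)
  rw [hm] at hM
  obtain ⟨j, hj⟩ : ∃ j, n = j + 2 := ⟨n - 2, by omega⟩
  have hn1 : n - 1 = j + 1 := by omega
  have k1 : Lam Ω f g S m (cheb (j + 1)) = 0 := by
    have h12 := keyP h hf hg hfg hn S hM 1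
    rw [one_mul, hn1] at h12
    exact h12
  have k2 : Lam Ω f g S m (cheb (j + 2)) = 0 := by
    have h12 := keyP h hf hg hfg hn S hM X
    rw [hn1] at h12
    have h13 : (X : ℚ[X]) * cheb (j + 1) = cheb (j + 2) + cheb j := by
      have : cheb (j + 2) = X * cheb (j + 1) - cheb j := rfl
      rw [this]
      ring
    rw [h13, Lam_add] at h12
    have h14 := (pxt_lam h hf hg hfg hle m (k := j + 2) (by omega)).1
    have h15 := (pxt_lam h hf hg hfg hle m (k := j) (by omega)).1
    linarith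
  rcases Nat.mod_two_eq_zero_or_one (u.length + (j + 1)) with h16 | h16
  · have h17 : u ∈ NL Ω f g (j + 1) := NL_mem hfg h11 h9 (by omega) (by omega)
    exact h4 ((pxt_lam h hf hg hfg hle m (k := j + 1) (by omega)).2 k1 a h10 u h17 h7)
  · have h17 : u ∈ NL Ω f g (j + 2) := NL_mem hfg h11 h9 (by omega) (by omega)
    exact h4 ((pxt_lam h hf hg hfg hle m (k := j + 2) (by omega)).2 k2 a h10 u h17 h7)

end Pool.Agent.SYP
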