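import Pool.Agent.SYU.PChar
import Pool.Agent.SYU.PExp

/-!
# SYU-PKey: the key identity

Project SYU (MP_a3a126_co), section D7 of /team-store/a3a126b_87.md. Compare Pool/Agent/Helper41/Circ/Ext.lean (`Pv`,
`coeff_sum_Pv`, `charpoly_coeff_zero`, `key`), the same method.

`L q = (Σ_x vec q x).coeff (m+1)`.
* `Σ_x vec (X^k) x = Σ_{w ∈ words Ω k} C (sg S w) X^(nb2 w)`, so by `hM` all coefficients of `Σ_x vec q x` of index `≤ m` vanish
  (for `q = X^k`, then for all `q` by linearity).
* `Σ_x vec (X q) x = 2 Σ_x vec q x + X Σ_h Σ_x vec q (h x)` (`mulVec_Am2`; `f`, `g` are bijective). Coefficient `m+1`: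
  `L ((X - 2) q) = Lam q`.
* Cayley-Hamilton for `Am2` over `ℚ[X]`, applied to the vector `vec p`: `Σ_k (charpoly Am2).coeff k * Σ_x vec (X^k p) x = 0`; taking the
  coefficient `m+1` (low coefficients vanish) only the constant coefficient of `(charpoly Am2).coeff k` matters, which
  is `(charpoly (Bp f g)).coeff k` (evaluate at 0). So `L (charpoly (Bp f g) * p) = 0`, and `charpoly (Bp f g) = (X - 2) cheb (n-1)`.
-/

set_option autoImplicit false

open Finset Polynomial Helper41.Circ

namespace Pool.Agent.SYP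

variable {n : ℕ} {f g : Fin n → Fin n} {Ω : Finset (Fin n → Fin n)}

theorem vec_mul_X (p : ℚ[X]) (S : Finset (Fin n)) :
    vec Ω f g S (X * p) = (Am2 Ω f g).mulVec (vec Ω f g S p) := by
  unfold vec
  rw [map_mul, aeval_X, Matrix.mulVec_mulVec]

private theorem pky_vec_add (S : Finset (Fin n)) (p q : ℚ[X]) (x : Fin n) :
    vec Ω f g S (p + q) x = vec Ω f g S p x + vec Ω f g S q x := by
  unfold vec
  rw [map_add, Matrix.add_mulVec, Pi.add_apply]

private theorem pky_vec_smul (S : Finset (Fin n)) (c : ℚ) (q : ℚ[X]) (x : Fin n) :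
    vec Ω f g S (c • q) x = c • vec Ω f g S q x := by
  unfold vec
  rw [map_smul, Matrix.smul_mulVec, Pi.smul_apply]

theorem Lam_add (S : Finset (Fin n)) (m : ℕ) (p q : ℚ[X]) :
    Lam Ω f g S m (p + q) = Lam Ω f g S m p + Lam Ω f g S m q := by
  unfold Lam
  rw [← List.sum_map_add]
  congr 1
  refine List.map_congr_left fun h _ => ?_
  rw [← coeff_add, ← sum_add_distrib]
  congr 1
  exact sum_congr rfl fun x _ => pky_vec_add S p q (h x)

/-- the sum of the entries of `vec` -/
private noncomputable def pkyTot (Ω : Finset (Fin n → Fin n)) (f g : Fin n → Fin n)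
    (S : Finset (Fin n)) (k : ℕ) : ℚ[X] →ₗ[ℚ] ℚ where
  toFun q := (∑ x, vec Ω f g S q x).coeff k
  map_add' p q := by
    rw [← coeff_add, ← sum_add_distrib]
    congr 1
    exact sum_congr rfl fun x _ => pky_vec_add S p q x
  map_smul' c q := by
    rw [RingHom.id_apply, ← coeff_smul, smul_sum]
    congr 1
    exact sum_congr rfl fun x _ => pky_vec_smul S c q x

private theorem pkyTot_apply (S : Finset (Fin n)) (k : ℕ) (q : ℚ[X]) :
    pkyTot Ω f g S k q = (∑ x, vec Ω f g S q x).coeff k := rfl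

private theorem pky_vec_pow (S : Finset (Fin n)) (i : ℕ) (x : Fin n) :
    vec Ω f g S (X ^ i) x =
      ∑ w ∈ words Ω i, C (sv S (act w x)) * X ^ nb2 f g w := by
  induction i generalizing x with
  | zero =>
    unfold vec
    rw [pow_zero, map_one, Matrix.one_mulVec]
    simp [words, nb2]
  | succ i ih =>
    rw [pow_succ', vec_mul_X, sum_words_succ]
    simp only [Matrix.mulVec, dotProduct, Am2, Matrix.of_apply, sum_mul]
    rw [sum_comm]
    refine sum_congr rfl fun a ha => ?_
    simp only [ite_mul, zero_mul]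
    rw [sum_ite_eq, if_pos (mem_univ _), ih, mul_sum]
    refine sum_congr rfl fun w hw => ?_
    simp only [act_cons, nb2, wt2]
    split_ifs with h
    · ring
    · ring

private theorem pky_tot_pow (S : Finset (Fin n)) (i k : ℕ) :
    pkyTot Ω f g S k (X ^ i) =
      ∑ w ∈ (words Ω i).filter (fun w => nb2 f g w = k), sg S w := by
  rw [pkyTot_apply]
  have h1 : ∑ x, vec Ω f g S (X ^ i) x = ∑ w ∈ words Ω i, C (sg S w) * X ^ nb2 f g w := by
    rw [sum_congr rfl fun x _ => pky_vec_pow S i x, sum_comm]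
    refine sum_congr rfl fun w _ => ?_
    unfold sg
    rw [map_sum, sum_mul]
  rw [h1, finsetSum_coeff, sum_filter]
  refine sum_congr rfl fun w _ => ?_
  rw [coeff_C_mul, coeff_X_pow]
  simp only [mul_ite, mul_one, mul_zero]
  by_cases h : nb2 f g w = k
  · rw [if_pos h, if_pos h.symm]
  · rw [if_neg h, if_neg (Ne.symm h)]

private theorem pky_low (S : Finset (Fin n)) {m : ℕ}
    (hM : ∀ w, Over Ω w → nb2 f g w < m + 1 → sg S w = 0) {k : ℕ} (hk : k < m + 1) (q : ℚ[X]) :
    pkyTot Ω f g S k q = 0 := by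
  have h1 : ∀ i, pkyTot Ω f g S k (X ^ i) = 0 := by
    intro i
    rw [pky_tot_pow]
    refine sum_eq_zero fun w hw => ?_
    obtain ⟨h5, h6⟩ := mem_filter.1 hw
    exact hM w (mem_words.1 h5).2 (by omega)
  have h2 : q = ∑ i ∈ range (q.natDegree + 1), q.coeff i • (X ^ i : ℚ[X]) := by
    conv_lhs => rw [q.as_sum_range_C_mul_X_pow]
    exact sum_congr rfl fun i _ => (smul_eq_C_mul _).symm
  rw [h2, map_sum]
  refine sum_eq_zero fun i _ => ?_
  rw [map_smul, h1, smul_zero]

private theorem pky_sum_inv (f : Fin n → Fin n) (hf : ∀ x, f (f x) = x) (v : Fin n → ℚ[X]) :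
    ∑ x, v (f x) = ∑ x, v x :=
  Equiv.sum_comp (Function.Involutive.toPerm f hf) v

private theorem pky_step (h : PathP f g) (hf : f ∈ Ω) (hg : g ∈ Ω) (hfg : f ≠ g)
    (S : Finset (Fin n)) (m : ℕ) (q : ℚ[X]) :
    pkyTot Ω f g S (m + 1) ((X - C 2) * q) = Lam Ω f g S m q := by
  have e : (X - C 2) * q = X * q + (-2 : ℚ) • q := by
    rw [smul_eq_C_mul]
    have : (C (-2) : ℚ[X]) = - C 2 := by rw [← C_neg]
    rw [this]
    ring
  rw [e, map_add, map_smul, pkyTot_apply, pkyTot_apply, vec_mul_X]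
  have h1 : ∑ x, (Am2 Ω f g).mulVec (vec Ω f g S q) x =
      ∑ x, vec Ω f g S q x + ∑ x, vec Ω f g S q x +
        X * ∑ x, ((oth Ω f g).map fun a => vec Ω f g S q (a x)).sum := by
    rw [sum_congr rfl fun x _ => mulVec_Am2 hf hg hfg (vec Ω f g S q) x, sum_add_distrib,
      sum_add_distrib, pky_sum_inv f h.ff, pky_sum_inv g h.gg, ← mul_sum]
  have h2 : ∑ x, ((oth Ω f g).map fun a => vec Ω f g S q (a x)).sum =
      ((oth Ω f g).map fun a => ∑ x, vec Ω f g S q (a x)).sum := by
    unfold oth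
    simp only [Finset.sum_map_toList]
    rw [sum_comm]
  have h3 : (((oth Ω f g).map fun a => ∑ x, vec Ω f g S q (a x)).sum).coeff m =
      Lam Ω f g S m q := by
    unfold Lam oth
    rw [Finset.sum_map_toList, Finset.sum_map_toList, finsetSum_coeff]
  rw [h1, h2, coeff_add, coeff_add, coeff_X_mul, h3, smul_eq_mul]
  ring

private theorem pky_map (hf : f ∈ Ω) (hg : g ∈ Ω) (hfg : f ≠ g) :
    (Am2 Ω f g).map (evalRingHom (0 : ℚ)) = Bp f g := by
  ext x y
  rw [Matrix.map_apply]
  simp only [Am2, Bp, Matrix.of_apply, map_sum]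
  have h1 : ∀ a ∈ Ω, a ∉ ({f, g} : Finset (Fin n → Fin n)) →
      (evalRingHom (0 : ℚ)) (if a x = y then wt2 f g a else 0) = 0 := by
    intro a _ ha
    have ha' : ¬ (a = f ∨ a = g) := by
      intro h
      exact ha (by rw [mem_insert, mem_singleton]; exact h)
    split_ifs
    · unfold wt2
      rw [if_neg ha']
      simp
    · simp
  have hsub : ({f, g} : Finset (Fin n → Fin n)) ⊆ Ω := by
    intro a ha
    rw [mem_insert, mem_singleton] at ha
    rcases ha with rfl | rfl
    · exact hf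
    · exact hg
  rw [← sum_subset hsub h1, sum_pair hfg]
  have h4 : wt2 f g f = 1 := if_pos (Or.inl rfl)
  have h5 : wt2 f g g = 1 := if_pos (Or.inr rfl)
  rw [h4, h5]
  congr 1
  · split_ifs <;> simp
  · split_ifs <;> simp

private theorem pky_coeff (hf : f ∈ Ω) (hg : g ∈ Ω) (hfg : f ≠ g) (k : ℕ) :
    ((Am2 Ω f g).charpoly.coeff k).coeff 0 = (Bp f g).charpoly.coeff k := by
  rw [← pky_map hf hg hfg, Matrix.charpoly_map, coeff_map, coe_evalRingHom,
    coeff_zero_eq_eval_zero]

private theorem pky_CH (hf : f ∈ Ω) (hg : g ∈ Ω) (hfg : f ≠ g) (S : Finset (Fin n)) {m : ℕ}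
    (hM : ∀ w, Over Ω w → nb2 f g w < m + 1 → sg S w = 0) (p : ℚ[X]) :
    pkyTot Ω f g S (m + 1) ((Bp f g).charpoly * p) = 0 := by
  have h1 : ∑ k ∈ range (n + 1), (Am2 Ω f g).charpoly.coeff k • (Am2 Ω f g) ^ k = 0 := by
    have h2 := aeval_eq_sum_range (p := (Am2 Ω f g).charpoly) (Am2 Ω f g)
    rw [Matrix.aeval_self_charpoly, Matrix.charpoly_natDegree_eq_dim, Fintype.card_fin] at h2
    exact h2.symm
  have h2 : ∀ k x, ((Am2 Ω f g) ^ k).mulVec (vec Ω f g S p) x = vec Ω f g S (X ^ k * p) x := by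
    intro k x
    unfold vec
    rw [map_mul, map_pow, aeval_X, Matrix.mulVec_mulVec]
  have h3 : ∑ k ∈ range (n + 1), (Am2 Ω f g).charpoly.coeff k *
      ∑ x, vec Ω f g S (X ^ k * p) x = 0 := by
    have h4 := congrArg (fun A => ∑ x, (Matrix.mulVec A (vec Ω f g S p)) x) h1
    simp only [Matrix.sum_mulVec, Matrix.smul_mulVec, Matrix.zero_mulVec, Pi.zero_apply,
      sum_const_zero] at h4
    rw [← h4]
    rw [sum_congr rfl fun x _ => Finset.sum_apply x _ _, sum_comm]
    refine sum_congr rfl fun k _ => ?_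
    simp only [Pi.smul_apply, smul_eq_mul, h2]
    rw [mul_sum]
  have h7 := congrArg (fun p => p.coeff (m + 1)) h3
  simp only [finsetSum_coeff, coeff_zero] at h7
  have h8 : ∀ k ∈ range (n + 1),
      ((Am2 Ω f g).charpoly.coeff k * ∑ x, vec Ω f g S (X ^ k * p) x).coeff (m + 1) =
      (Bp f g).charpoly.coeff k * pkyTot Ω f g S (m + 1) (X ^ k * p) := by
    intro k _
    rw [coeff_mul, sum_eq_single (0, m + 1)]
    · rw [pky_coeff hf hg hfg]
      rfl
    · intro q hq hne
      have h9 := HasAntidiagonal.mem_antidiagonal.1 hq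
      have h10 : q.2 < m + 1 := by
        rcases Nat.lt_or_eq_of_le (by omega : q.2 ≤ m + 1) with h | h
        · exact h
        · exact absurd (Prod.ext (by simp; omega) h) hne
      have h11 := pky_low S hM h10 (X ^ k * p)
      rw [pkyTot_apply] at h11
      rw [h11, mul_zero]
    · intro h
      exact absurd (HasAntidiagonal.mem_antidiagonal.2 (by simp)) h
  rw [sum_congr rfl h8] at h7
  have h12 : (Bp f g).charpoly * p =
      ∑ k ∈ range (n + 1), (Bp f g).charpoly.coeff k • (X ^ k * p) := by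
    have h13 := (Bp f g).charpoly.as_sum_range_C_mul_X_pow
    rw [Matrix.charpoly_natDegree_eq_dim, Fintype.card_fin] at h13
    conv_lhs => rw [h13]
    rw [sum_mul]
    refine sum_congr rfl fun k _ => ?_
    rw [smul_eq_C_mul, mul_assoc]
  rw [h12, map_sum]
  simp only [map_smul, smul_eq_mul]
  exact h7

theorem keyP (h : PathP f g) (hf : f ∈ Ω) (hg : g ∈ Ω) (hfg : f ≠ g) (hn : 0 < n)
    (S : Finset (Fin n)) {m : ℕ} (hM : ∀ w, Over Ω w → nb2 f g w < m + 1 → sg S w = 0)
    (p : ℚ[X]) : Lam Ω f g S m (p * cheb (n - 1)) = 0 := by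
  have h1 : (X - C 2) * (p * cheb (n - 1)) = (Bp f g).charpoly * p := by
    rw [charpoly_Bp h hn]
    ring
  rw [← pky_step h hf hg hfg, h1]
  exact pky_CH hf hg hfg S hM p

/-- the functional on `cheb k` is a sum over the words of `NL k` -/
theorem Lam_cheb (h : PathP f g) (hf : f ∈ Ω) (hg : g ∈ Ω) (hfg : f ≠ g) (S : Finset (Fin n))
    (m k : ℕ) :
    Lam Ω f g S m (cheb k) = ((oth Ω f g).map fun a =>
      (((NL Ω f g k).filter fun w => decide (nb2 f g w = m)).map fun w => sg S (a :: w)).sum).sum := by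
  unfold Lam
  congr 1
  refine List.map_congr_left fun a _ => ?_
  have h1 : ∀ L : List (List (Fin n → Fin n)),
      (∑ x, (L.map fun w => C (sv S (act w (a x))) * (X : ℚ[X]) ^ nb2 f g w).sum).coeff m =
      ((L.filter fun w => decide (nb2 f g w = m)).map fun w => sg S (a :: w)).sum := by
    intro L
    induction L with
    | nil => simp
    | cons w L ih =>
      simp only [List.map_cons, List.sum_cons, sum_add_distrib, coeff_add]
      rw [ih, List.filter_cons]
      have h2 : (∑ x, C (sv S (act w (a x))) * (X : ℚ[X]) ^ nb2 f g w).coeff m =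
          if nb2 f g w = m then sg S (a :: w) else 0 := by
        rw [← sum_mul, ← map_sum, coeff_C_mul, coeff_X_pow]
        by_cases hm : nb2 f g w = m
        · rw [if_pos hm, if_pos hm.symm, mul_one]
          rfl
        · rw [if_neg hm, if_neg (Ne.symm hm), mul_zero]
      rw [h2]
      by_cases hm : nb2 f g w = m
      · rw [if_pos hm, if_pos (by simpa using hm), List.map_cons, List.sum_cons]
      · rw [if_neg hm, if_neg (by simpa using hm), zero_add]
  rw [← h1]
  congr 1
  exact sum_congr rfl fun x _ => vec_cheb h hf hg hfg S k (a x)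

end Pool.Agent.SYP
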