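import Pool.Agent.SYT.Many
import Pool.Agent.SYT.Chain
import Pool.Agent.SYU.CrossJ
import Pool.Agent.SYU.BlkM
import Pool.Agent.SYU.BlkF

/-!
# SYU-PairU: two letters that are involutions without fixed points up to few states

Project SYU (MP_a3a126_co), paper proof in /team-store/a3a126b_87.md, section D5.
-/

set_option autoImplicit false

open Finset

namespace Pool.Agent.SYT

private theorem pn1 {n m r r' r1 n1 j d sd ε : ℝ} (hn : 0 < n) (hr1 : 0 ≤ r1)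
    (hmn1 : m ≤ n1) (hmn : m ≤ n) (hrr : r + r1 ≤ m + r') (hr' : r' ≤ 6144)
    (hc : 2 * m * n + sd + r1 * n1 ≤ (r + 1) * n + 2 * r1 * n + 2 * n + j * n + m ^ 2 + m + 6 * d)
    (hε : ε = (6148 + j) * n + 6 * d) : (m - r1) * (n - m) + sd ≤ ε := by
  have e1 : (r + r1) * n ≤ (m + r') * n := mul_le_mul_of_nonneg_right hrr hn.le
  have e2 : r' * n ≤ 6144 * n := mul_le_mul_of_nonneg_right hr' hn.le
  have e3 : r1 * m ≤ r1 * n1 := mul_le_mul_of_nonneg_left hmn1 hr1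
  rw [hε]
  nlinarith only [e1, e2, e3, hc, hmn]

private theorem pn2 {n m r1 sd ε k e : ℝ} (hk : n ≤ 24576 * k) (hkm : k ≤ m) (h2 : 2 * r1 ≤ m)
    (hsd : 0 ≤ sd) (he0 : 0 ≤ e) (he : e = n - m)
    (h1 : (m - r1) * (n - m) + sd ≤ ε) : n * e ≤ 49152 * ε := by
  rw [← he] at h1
  have h3 : m * e ≤ 2 * ε := by
    have : m / 2 * e ≤ (m - r1) * e := mul_le_mul_of_nonneg_right (by linarith) he0
    linarith
  have h4 : n * e ≤ 24576 * m * e := mul_le_mul_of_nonneg_right (by linarith) he0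
  linarith

private theorem pn3 {n m A r1 n1 j d ε e : ℝ} (h2 : 2 * r1 ≤ m) (hr1 : 0 ≤ r1)
    (hmn1 : m ≤ n1) (hmn : m ≤ n) (hn : 0 < n) (he : e = n - m) (hj : 0 ≤ j) (hd : 0 ≤ d)
    (hc : 2 * m * n + r1 * n1 ≤ A + 2 * r1 * n + 3 * n + j * n + m ^ 2 + m + 6 * d)
    (hε : ε = (6148 + j) * n + 6 * d) : (n ^ 2 - e ^ 2) / 2 - ε ≤ A := by
  have e3 : r1 * m ≤ r1 * n1 := mul_le_mul_of_nonneg_left hmn1 hr1
  have e4 : r1 * (2 * n - m) ≤ m / 2 * (2 * n - m) :=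
      mul_le_mul_of_nonneg_right (by linarith) (by linarith)
  have hm' : m = n - e := by rw [he]; ring
  rw [hε]
  subst hm'
  nlinarith only [e3, e4, hc, hmn, hn]

private theorem pn4 {n r sd ε e m3 : ℝ} (hn : 0 < n) (hm3' : 0 ≤ m3) (hsd : sd ≤ ε)
    (hε0 : 0 ≤ ε) (hee : e ^ 2 * 4000000 ≤ n ^ 2) (hεn : 100000000 * ε ≤ n ^ 2)
    (h4 : (n ^ 2 - e ^ 2) / 2 - ε ≤ r * n) (hm3 : 3 * r * m3 ≤ 9 * sd + n * m3) :
    n * m3 ≤ 36 * ε := by
  have h6 : n / 4 ≤ 3 * r - n := by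
    have h7 : n * (n / 4) ≤ n * (3 * r - n) := by nlinarith only [h4, hee, hεn, sq_nonneg n]
    exact le_of_mul_le_mul_left h7 hn
  have h8 : n / 4 * m3 ≤ (3 * r - n) * m3 := mul_le_mul_of_nonneg_right h6 hm3'
  linarith

private theorem pn5a {n z ψ m3 ε r : ℝ} (hn : 0 < n) (hn' : 100000000 ≤ n)
    (hz : z + n ≤ 2 * r + 2 * m3) (h6 : 2 * r ≤ n + ψ + 12288)
    (h5 : n * m3 ≤ 36 * ε) (hψ : 1000 * ψ ≤ n) (hεn : 100000000 * ε ≤ n ^ 2) :
    n * z ≤ n * ψ + 12288 * n + 72 * ε ∧ z ≤ n / 2 := by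
  have h7 : n * z ≤ n * ψ + 12288 * n + 72 * ε := by
    have : z ≤ ψ + 12288 + 2 * m3 := by linarith
    have h8 := mul_le_mul_of_nonneg_left this hn.le
    linarith
  have h10 : z ≤ n / 2 := by
    have g1 : n * (1000 * ψ) ≤ n * n := mul_le_mul_of_nonneg_left hψ hn.le
    have g2 : n * 100000000 ≤ n * n := mul_le_mul_of_nonneg_left hn' hn.le
    have : n * z ≤ n * (n / 2) := by nlinarith only [h7, g1, g2, hεn, sq_nonneg n]
    exact le_of_mul_le_mul_left this hn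
  exact ⟨h7, h10⟩

private theorem pn5 {n z v2 β ex1 : ℝ} (hn : 0 < n) (hβ0 : 0 ≤ β) (h10 : z ≤ n / 2)
    (hv2 : v2 + z = n) (hex1 : v2 * ex1 ≤ (z + 2) * v2 + β) :
    n * ex1 ≤ n * z + 2 * n + 2 * β := by
  rcases le_or_gt ex1 (z + 2) with h | h
  · have := mul_le_mul_of_nonneg_left h hn.le
    linarith
  · have h12 : (ex1 - z - 2) * (n / 2) ≤ (ex1 - z - 2) * v2 :=
      mul_le_mul_of_nonneg_left (by linarith) (by linarith)
    have h13 : (ex1 - z - 2) * v2 = v2 * ex1 - (z + 2) * v2 := by ring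
    have h14 : (ex1 - z - 2) * (n / 2) = (n * ex1 - n * z - 2 * n) / 2 := by ring
    linarith

private theorem pn6 {n ψ ε e ex Z : ℝ} (hn : 0 < n) (he0 : 0 ≤ e) (hZ0 : 0 < Z)
    (hψ : 1000 * Z * ψ ≤ n) (hn' : 100000000 * Z ≤ n)
    (heps : 100000000 * Z * ε ≤ n ^ 2) (hen : 2000 * Z * e ≤ n) (hen1 : 2000 * e ≤ n)
    (h12 : n * ex ≤ 18 * (n * ψ) + 208914 * n + 1232 * ε + 4 * e ^ 2 + n * e) : Z * ex ≤ n := by
  have h13 : n * (Z * ex) ≤ n * n := by
    have h14 : Z * (n * ex) ≤ Z * (18 * (n * ψ) + 208914 * n + 1232 * ε + 4 * e ^ 2 + n * e) :=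
        mul_le_mul_of_nonneg_left h12 hZ0.le
    have g1 : n * (1000 * Z * ψ) ≤ n * n := mul_le_mul_of_nonneg_left hψ hn.le
    have g2 : n * (100000000 * Z) ≤ n * n := mul_le_mul_of_nonneg_left hn' hn.le
    have g3 : n * (2000 * Z * e) ≤ n * n := mul_le_mul_of_nonneg_left hen hn.le
    have g4 : e * (2000 * Z * e) ≤ e * n := mul_le_mul_of_nonneg_left hen he0
    have g5 : n * (2000 * e) ≤ n * n := mul_le_mul_of_nonneg_left hen1 hn.le
    nlinarith only [h14, g1, g2, g3, g4, g5, heps, sq_nonneg n]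
  exact le_of_mul_le_mul_left h13 hn

private theorem pair_num {n m r r' r1 n1 j d sd k m3 z nd β v2 ψ ex1 ex Z : ℝ} (hn : 0 < n)
    (hj : 0 ≤ j) (hd : 0 ≤ d) (hr1 : 0 ≤ r1) (hsd : 0 ≤ sd) (hm3' : 0 ≤ m3)
    (hz0 : 0 ≤ z) (hβ0 : 0 ≤ β) (hψ0 : 0 ≤ ψ) (hZ : 1 ≤ Z)
    (hk : n ≤ 24576 * k) (hkm : k ≤ m) (h2 : 2 * r1 ≤ m) (hψm : m ≤ 2 * r1 + ψ) (hmn1 : m ≤ n1)
    (hmn : m ≤ n) (hrr : r + r1 ≤ m + r') (hr' : r' ≤ 6144)
    (hc : 2 * m * n + r1 * n1 ≤ nd + 2 * r1 * n + 2 * n + j * n + m ^ 2 + m + 6 * d)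
    (hnd : nd + sd ≤ (r + 1) * n) (hm3 : 3 * r * m3 ≤ 9 * sd + n * m3)
    (hz : z + n ≤ 2 * r + 2 * m3) (hβ : 4 * nd + β ≤ 2 * n ^ 2 + 8 * n + 8 * z * n)
    (hv2 : v2 + z = n)
    (hψ : 1000 * Z * ψ ≤ n) (hn' : 100000000 * Z ≤ n)
    (heps : 100000000 * Z * ((6148 + j) * n + 6 * d) ≤ n ^ 2) :
    0 < v2 ∧ (v2 * ex1 ≤ (z + 2) * v2 + β → ex ≤ ex1 + ψ + (n - m) → Z * ex ≤ n) := by
  obtain ⟨ε, hε⟩ : ∃ ε, ε = (6148 + j) * n + 6 * d := ⟨_, rfl⟩
  rw [← hε] at heps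
  have hε0 : 0 ≤ ε := by rw [hε]; positivity
  have hZ0 : 0 < Z := by linarith
  have hεn : 100000000 * ε ≤ n ^ 2 := by
    have : 100000000 * ε ≤ 100000000 * Z * ε := by
      have := mul_le_mul_of_nonneg_right hZ (by positivity : 0 ≤ 100000000 * ε)
      linarith
    linarith
  have h1 := pn1 (j := j) (d := d) (sd := sd) (ε := ε) hn hr1 hmn1 hmn hrr hr' (by linarith) hε
  have h0 : 0 ≤ (m - r1) * (n - m) := mul_nonneg (by linarith) (by linarith)
  have hsd1 : sd ≤ ε := by linarith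
  obtain ⟨e, he⟩ : ∃ e, e = n - m := ⟨_, rfl⟩
  have he0 : 0 ≤ e := by rw [he]; linarith
  have h3 := pn2 hk hkm h2 hsd he0 he h1
  have hen : 2000 * Z * e ≤ n := by
    have : n * (2000 * Z * e) ≤ n * n := by
      calc n * (2000 * Z * e) = 2000 * Z * (n * e) := by ring
        _ ≤ 2000 * Z * (49152 * ε) := mul_le_mul_of_nonneg_left h3 (by positivity)
        _ ≤ 100000000 * Z * ε := by
          have := mul_nonneg hZ0.le hε0
          linarith
        _ ≤ n ^ 2 := heps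
        _ = n * n := by ring
    exact le_of_mul_le_mul_left this hn
  have hen1 : 2000 * e ≤ n := by
    have := mul_le_mul_of_nonneg_right hZ (by positivity : 0 ≤ 2000 * e)
    linarith
  have hee : e ^ 2 * 4000000 ≤ n ^ 2 := by
    have := mul_le_mul hen1 hen1 (by positivity) hn.le
    nlinarith only [this]
  have h4 := pn3 (A := r * n) (n1 := n1) h2 hr1 hmn1 hmn hn he hj hd (by linarith) hε
  have h8 := pn3 (A := nd) (n1 := n1) h2 hr1 hmn1 hmn hn he hj hd (by linarith) hε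
  have h5 := pn4 hn hm3' hsd1 hε0 hee hεn h4 hm3
  have h6 : 2 * r ≤ n + ψ + 12288 := by linarith
  have hψn : 1000 * ψ ≤ n := by
    have := mul_le_mul_of_nonneg_right hZ (by positivity : 0 ≤ 1000 * ψ)
    linarith
  have hn1 : 100000000 ≤ n := by linarith
  have h9 : β ≤ 8 * n + 8 * (n * z) + 2 * e ^ 2 + 4 * ε := by linarith
  obtain ⟨a1, a2⟩ := pn5a hn hn1 hz h6 h5 hψn hεn
  refine ⟨by linarith, fun hex1 hex => ?_⟩
  · have a3 := pn5 hn hβ0 a2 hv2 hex1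
    have h12 : n * ex ≤ 18 * (n * ψ) + 208914 * n + 1232 * ε + 4 * e ^ 2 + n * e := by
      rw [← he] at hex
      have := mul_le_mul_of_nonneg_left hex hn.le
      linarith
    exact pn6 hn he0 hZ0 hψ hn' heps hen hen1 h12

private theorem sq_le_two_pow' (L : ℕ) : (1 + L) ^ 2 ≤ 4 * 2 ^ L := by
  induction L with
  | zero => norm_num
  | succ L ih =>
    rw [pow_succ 2 L]
    rcases Nat.lt_or_ge L 3 with h | h
    · interval_cases L <;> norm_num
    · nlinarith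

private theorem log_small' (C : ℕ) : ∃ n0 : ℕ, ∀ n, n0 ≤ n → C * (1 + Nat.log 2 n) ≤ n := by
  refine ⟨4 * C ^ 2 + 1, fun n hn => ?_⟩
  have h1 := sq_le_two_pow' (Nat.log 2 n)
  have h2 : 2 ^ Nat.log 2 n ≤ n := Nat.pow_log_le_self 2 (by omega)
  have h3 : (C * (1 + Nat.log 2 n)) ^ 2 ≤ n ^ 2 := by
    calc (C * (1 + Nat.log 2 n)) ^ 2 = C ^ 2 * (1 + Nat.log 2 n) ^ 2 := by ring
      _ ≤ C ^ 2 * (4 * n) := Nat.mul_le_mul_left _ (by omega)
      _ = (4 * C ^ 2) * n := by ring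
      _ ≤ n * n := Nat.mul_le_mul_right _ (by omega)
      _ = n ^ 2 := by ring
  exact (Nat.pow_le_pow_iff_left (by norm_num)).1 h3

private theorem pair_three {V : Type} [Fintype V] [DecidableEq V] (f : Equiv.Perm V) :
    (univ.filter fun x => 3 ≤ (cls (Subgroup.closure ({f} : Set (Equiv.Perm V))) x).card).card ≤
      (univ.filter fun x => f (f x) ≠ x).card := by
  refine card_le_card fun x hx => ?_
  rw [mem_filter] at hx ⊢
  refine ⟨mem_univ _, fun h => ?_⟩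
  have h1 : cls (Subgroup.closure ({f} : Set (Equiv.Perm V))) x ⊆ {x, f x} := by
    refine cls_sub (fun g hg y hy => ?_) (by simp)
    rw [Set.mem_singleton_iff] at hg
    subst hg
    simp only [mem_insert, mem_singleton] at hy ⊢
    rcases hy with rfl | rfl
    · right; rfl
    · left; exact h
  have h2 := card_le_card h1
  have h3 := card_le_two (a := x) (b := f x)
  omega

private theorem pair_j {n k j L : ℕ} (hk2 : n ≤ 24576 * k) (hk3 : 0 < k)
    (hj : k * j ≤ k + 2 * (n * L)) : j ≤ 1 + 49152 * L := by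
  have h0 : n * L ≤ 24576 * k * L := Nat.mul_le_mul_right _ hk2
  have h1 : k * j ≤ k * (1 + 49152 * L) := by
    calc k * j ≤ k + 2 * (n * L) := hj
      _ ≤ k + 2 * (24576 * k * L) := by omega
      _ = k * (1 + 49152 * L) := by ring
  exact Nat.le_of_mul_le_mul_left h1 hk3

private theorem pair_eps {n j d L Z : ℕ} (hlog : 200000000 * Z * 60000 * (1 + L) ≤ n)
    (hj2 : j ≤ 1 + 49152 * L) (hd : 1200000000 * Z * d ≤ n ^ 2) :
    100000000 * Z * ((6148 + j) * n + 6 * d) ≤ n ^ 2 := by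
  have h1 : 6148 + j ≤ 60000 * (1 + L) := by omega
  have h2 : 200000000 * Z * ((6148 + j) * n) ≤ n * n := by
    calc 200000000 * Z * ((6148 + j) * n) ≤ 200000000 * Z * ((60000 * (1 + L)) * n) := by
          gcongr
      _ = (200000000 * Z * 60000 * (1 + L)) * n := by ring
      _ ≤ n * n := Nat.mul_le_mul_right _ hlog
  have h3 : 2 * (100000000 * Z * ((6148 + j) * n + 6 * d)) =
      200000000 * Z * ((6148 + j) * n) + 1200000000 * Z * d := by ring
  have h4 : n ^ 2 = n * n := pow_two n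
  omega

private theorem pair_ex {V : Type} [Fintype V] [DecidableEq V] {f g : Equiv.Perm V}
    {Γ : Subgroup (Equiv.Perm V)} (hf : f ∈ Γ) :
    (univ.filter fun x =>
      ¬ (f x ≠ x ∧ g x ≠ x ∧ f x ≠ g x ∧ f (f x) = x ∧ g (g x) = x)).card + (Dst Γ g).card ≤
      (univ.filter fun x => f x = x ∨ f (f x) ≠ x).card +
      (univ.filter fun x => g (g x) ≠ x).card + Fintype.card V := by
  classical
  have h1 : (univ \ Dst Γ g).card + (Dst Γ g).card = Fintype.card V := by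
    rw [card_sdiff_add_card_eq_card (subset_univ _), card_univ]
  have h2 : (univ.filter fun x =>
      ¬ (f x ≠ x ∧ g x ≠ x ∧ f x ≠ g x ∧ f (f x) = x ∧ g (g x) = x)) ⊆
      (univ.filter fun x => f x = x ∨ f (f x) ≠ x) ∪ (univ.filter fun x => g (g x) ≠ x) ∪
        (univ \ Dst Γ g) := by
    intro x hx
    have hx' := (mem_filter.1 hx).2
    by_contra hcon
    simp only [mem_union, mem_filter, mem_univ, true_and, mem_sdiff, not_or, not_not, ne_eq]
      at hcon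
    obtain ⟨⟨⟨a1, a2⟩, a3⟩, a4⟩ := hcon
    have a5 : cls Γ (g x) ≠ cls Γ x := by
      simpa [Dst] using a4
    apply hx'
    refine ⟨a1, ?_, ?_, a2, a3⟩
    · intro h
      exact a5 (by rw [h])
    · intro h
      apply a5
      rw [← h]
      exact cls_apply hf x
  have h3 := (card_le_card h2).trans ((card_union_le _ _).trans
    (Nat.add_le_add_right (card_union_le _ _) _))
  omega

theorem pair (Z : ℕ) (hZ : 1 ≤ Z) : ∃ G K' n0 : ℕ, ∀ (V : Type) [Fintype V] [DecidableEq V]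
    (S : Sys V), (∀ h ∈ S.P, G * (univ.filter fun x => h (h x) ≠ x).card ≤ Fintype.card V) →
    n0 ≤ Fintype.card V → K' * S.d ≤ Fintype.card V ^ 2 →
    ∃ f ∈ S.P, ∃ g ∈ S.P, Z * (univ.filter fun x =>
      ¬ (f x ≠ x ∧ g x ≠ x ∧ f x ≠ g x ∧ f (f x) = x ∧ g (g x) = x)).card ≤ Fintype.card V := by
  obtain ⟨n0, hn0⟩ := log_small' (200000000 * Z * 60000)
  refine ⟨1000 * Z, 1200000000 * Z, max n0 (100000000 * Z), ?_⟩
  intro V _ _ S hinv hn hd
  obtain ⟨n, hnV⟩ : ∃ n, n = Fintype.card V := ⟨_, rfl⟩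
  rw [← hnV] at hn hd
  have hn1 : n0 ≤ n := le_trans (le_max_left _ _) hn
  have hn2 : 100000000 * Z ≤ n := le_trans (le_max_right _ _) hn
  have hlog := hn0 n hn1
  have hn3 : 100000000 ≤ n := by omega
  obtain ⟨k, hk⟩ : ∃ k, k = n / 12288 := ⟨_, rfl⟩
  have hk1 : 12288 * k ≤ n := by rw [hk]; exact Nat.mul_div_le _ _
  have hk2 : n ≤ 24576 * k := by omega
  have hk3 : 0 < k := by omega
  have hd3 : 3072 * S.d < n ^ 2 := by
    have h1 : 1200000000 * S.d ≤ 1200000000 * Z * S.d := by nlinarith [Nat.zero_le S.d]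
    have h2 : 0 < n ^ 2 := by positivity
    omega
  have hmany : ∀ P1 : Finset (Equiv.Perm V), (P1 : Set (Equiv.Perm V)) ⊆ S.P →
      6144 ≤ (comps (Subgroup.closure (P1 : Set (Equiv.Perm V)))).card →
      ∃ g ∈ S.P, k < (Dst (Subgroup.closure (P1 : Set (Equiv.Perm V))) g).card := by
    intro P1 h1 h2
    by_contra hc
    push Not at hc
    have h3 := many S h1 hc (by rw [← hnV]; exact hk1) (by rw [← hnV]; omega)
      (by rw [← hnV]; exact hd3)
    omega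
  -- a letter
  obtain ⟨f1, hf1⟩ : ∃ f1, f1 ∈ S.P := by
    by_contra hcon
    push Not at hcon
    have h1 : S.P = ∅ := Set.eq_empty_iff_forall_notMem.2 hcon
    obtain ⟨x, y, hxy⟩ := Fintype.exists_pair_of_one_lt_card (α := V) (by rw [← hnV]; omega)
    obtain ⟨γ, hγ, hγx⟩ := S.trans x y
    rw [h1, Subgroup.closure_empty, Subgroup.mem_bot] at hγ
    rw [hγ] at hγx
    exact hxy hγx
  have hψ : ∀ h ∈ S.P, 1000 * Z * (univ.filter fun x => h (h x) ≠ x).card ≤ n := by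
    intro h hh; rw [hnV]; exact hinv h hh
  have hψ' : ∀ h ∈ S.P, 1000 * (univ.filter fun x => h (h x) ≠ x).card ≤ n := by
    intro h hh
    refine le_trans (Nat.mul_le_mul_right _ ?_) (hψ h hh)
    omega
  have hr1 : 6144 ≤ (comps (Subgroup.closure ({f1} : Set (Equiv.Perm V)))).card := by
    have h1 := non_two (Subgroup.closure ({f1} : Set (Equiv.Perm V)))
    have h2 := pair_three f1
    have h3 := hψ' f1 hf1
    rw [← hnV] at h1
    omega
  obtain ⟨P1, hP1, -, hr, hj, g, hg, hkm, hr'⟩ := crossing S hf1 hmany hr1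
  rw [← hnV] at hj
  obtain ⟨m, hm⟩ : ∃ m, m = (Dst (Subgroup.closure (P1 : Set (Equiv.Perm V))) g).card := ⟨_, rfl⟩
  obtain ⟨r, hrr⟩ : ∃ r, r = (comps (Subgroup.closure (P1 : Set (Equiv.Perm V)))).card := ⟨_, rfl⟩
  obtain ⟨r', hrr'⟩ : ∃ r, r = (comps (Subgroup.closure (insert g (P1 : Set (Equiv.Perm V))))).card :=
    ⟨_, rfl⟩
  obtain ⟨r1, hr1'⟩ : ∃ r1, r1 =
    (meetc g (Dst (Subgroup.closure (P1 : Set (Equiv.Perm V))) g)).card := ⟨_, rfl⟩
  obtain ⟨n1, hn1'⟩ : ∃ n1, n1 =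
    ∑ A ∈ meetc g (Dst (Subgroup.closure (P1 : Set (Equiv.Perm V))) g), A.card := ⟨_, rfl⟩
  obtain ⟨z, hz⟩ : ∃ z, z = (univ.filter fun x =>
    (cls (Subgroup.closure (P1 : Set (Equiv.Perm V))) x).card ≠ 2).card := ⟨_, rfl⟩
  obtain ⟨v2, hv2⟩ : ∃ z, z = (univ.filter fun x =>
    (cls (Subgroup.closure (P1 : Set (Equiv.Perm V))) x).card = 2).card := ⟨_, rfl⟩
  obtain ⟨m3, hm3⟩ : ∃ z, z = (univ.filter fun x =>
    3 ≤ (cls (Subgroup.closure (P1 : Set (Equiv.Perm V))) x).card).card := ⟨_, rfl⟩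
  obtain ⟨ψ, hψd⟩ : ∃ z, z = (univ.filter fun x => g (g x) ≠ x).card := ⟨_, rfl⟩
  obtain ⟨j, hjj⟩ : ∃ j, j = P1.card := ⟨_, rfl⟩
  obtain ⟨d, hdd⟩ : ∃ d, d = S.d := ⟨_, rfl⟩
  obtain ⟨L, hL⟩ : ∃ L, L = Nat.log 2 n := ⟨_, rfl⟩
  obtain ⟨sd', hsd⟩ : ∃ s, s = sd (Subgroup.closure (P1 : Set (Equiv.Perm V))) := ⟨_, rfl⟩
  obtain ⟨nd, hnd⟩ : ∃ s, s = (S.ND (P1 : Set (Equiv.Perm V))).card := ⟨_, rfl⟩
  obtain ⟨β, hβ⟩ : ∃ s, s = (badP S (P1 : Set (Equiv.Perm V))).card := ⟨_, rfl⟩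
  have c1 := two_le_meet (Subgroup.closure (P1 : Set (Equiv.Perm V))) g
  have c2 := meet_mass (Subgroup.closure (P1 : Set (Equiv.Perm V))) g
  have c3 := join_count (P1 : Set (Equiv.Perm V)) g
  have c4 := cross_nd S hP1 hg hnV hm hr1' hn1'
  have c5 := meet_lower (Subgroup.closure (P1 : Set (Equiv.Perm V))) g
  have c6 := nd_total S hP1
  have c7 := mass_three (Subgroup.closure (P1 : Set (Equiv.Perm V)))
  have c8 := non_two (Subgroup.closure (P1 : Set (Equiv.Perm V)))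
  have c9 := nd_two S hP1
  have c10 : (Dst (Subgroup.closure (P1 : Set (Equiv.Perm V))) g).card ≤ n := by
    rw [hnV]; exact card_le_univ _
  have c11 := hψ g hg
  have hzv : v2 + z = n := by
    rw [hnV, ← card_univ, hv2, hz]
    exact card_filter_add_card_filter_not _
  rw [← hr1', ← hm] at c1
  rw [← hm, ← hn1'] at c2
  rw [← hrr, ← hr1', ← hm, ← hrr'] at c3
  rw [← hnd, ← hjj, ← hdd] at c4
  rw [← hm, ← hr1', ← hψd] at c5
  rw [← hnd, ← hsd, ← hrr, ← hnV] at c6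
  rw [← hrr, ← hm3, ← hsd, ← hnV] at c7
  rw [← hz, ← hrr, ← hm3, ← hnV] at c8
  rw [← hnd, ← hβ, ← hz, ← hnV] at c9
  rw [← hm] at c10 hkm
  rw [← hψd] at c11
  rw [← hrr'] at hr'
  rw [← hjj] at hj
  rw [← hL] at hj hlog
  rw [← hdd] at hd
  have hj2 : j ≤ 1 + 49152 * L := pair_j hk2 hk3 hj
  have heps : 100000000 * Z * ((6148 + j) * n + 6 * d) ≤ n ^ 2 := pair_eps hlog hj2 hd
  have hmain := fun (ex1 ex : ℝ) => pair_num (n := n) (m := m) (r := r) (r' := r') (r1 := r1)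
    (n1 := n1) (j := j) (d := d) (sd := sd') (k := k) (m3 := m3) (z := z) (nd := nd) (β := β)
    (v2 := v2) (ψ := ψ) (ex1 := ex1) (ex := ex) (Z := Z) (by exact_mod_cast (by omega : 0 < n))
    (by positivity) (by positivity) (by positivity) (by positivity) (by positivity)
    (by positivity) (by positivity) (by positivity) (by exact_mod_cast hZ)
    (by exact_mod_cast hk2) (by exact_mod_cast hkm.le) (by exact_mod_cast c1)
    (by exact_mod_cast c5) (by exact_mod_cast c2) (by exact_mod_cast c10)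
    (by exact_mod_cast c3) (by exact_mod_cast hr'.le) (by exact_mod_cast c4)
    (by exact_mod_cast c6) (by exact_mod_cast c7) (by exact_mod_cast c8)
    (by exact_mod_cast c9) (by exact_mod_cast hzv) (by exact_mod_cast c11)
    (by exact_mod_cast hn2) (by exact_mod_cast heps)
  have hv2pos : 0 < v2 := by exact_mod_cast (hmain 0 0).1
  obtain ⟨f, hf, hfex⟩ := exists_f S hP1 hv2 hz hv2pos
  refine ⟨f, hP1 (mem_coe.2 hf), g, hg, ?_⟩
  rw [← hβ] at hfex
  obtain ⟨ex, hexd⟩ : ∃ e, e = (univ.filter fun x =>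
      ¬ (f x ≠ x ∧ g x ≠ x ∧ f x ≠ g x ∧ f (f x) = x ∧ g (g x) = x)).card := ⟨_, rfl⟩
  obtain ⟨ex1, hex1d⟩ : ∃ e, e = (univ.filter fun x => f x = x ∨ f (f x) ≠ x).card := ⟨_, rfl⟩
  have hex : ex + m ≤ ex1 + ψ + n := by
    have h1 := pair_ex (f := f) (g := g) (Γ := Subgroup.closure (P1 : Set (Equiv.Perm V)))
      (Subgroup.subset_closure (mem_coe.2 hf))
    rw [← hexd, ← hex1d, ← hψd, ← hm, ← hnV] at h1
    exact h1
  rw [← hex1d] at hfex
  rw [← hexd, ← hnV]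
  have hfin := (hmain ex1 ex).2 (by exact_mod_cast hfex) (by
    have : (ex : ℝ) + m ≤ ex1 + ψ + n := by exact_mod_cast hex
    linarith)
  exact_mod_cast hfin

end Pool.Agent.SYT
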