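import Pool.Agent.SYT.Basic

/-!
# SYU-ProfA: the profile at a single level along a strip

Project SYU (MP_a3a126_co), paper proof in /team-store/a3a126b_87.md, section D1 (first half).

A level with at most two elements occurs at most once along the strip, so that the profile changes at
most once, by at most one; and the pairs along the strip are distinct.
-/

set_option autoImplicit false

open Finset

namespace Pool.Agent.SYT

variable {V : Type} [Fintype V] [DecidableEq V] (S : Sys V)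

private theorem pa_uniq {N : ℕ} {c : ℕ → V} {Q : ℕ → Finset V}
    (hc : ∀ i ≤ N, ∀ j ≤ N, c i = c j → i = j) (hcQ : ∀ i ≤ N, ∀ j ≤ N, c j ∉ Q i) {t : ℕ}
    (ht : (S.lvl t).card ≤ 2) {i j : ℕ} (hi : i ≤ N) (hj : j ≤ N) {x y : V} (hx : x ∈ Q i)
    (hy : y ∈ Q j) (h1 : S.w x (c i) = t) (h2 : S.w y (c j) = t) : i = j ∧ x = y := by
  have hxc : x ≠ c i := fun h => hcQ i hi i hi (h ▸ hx)
  have hyc : y ≠ c j := fun h => hcQ j hj j hj (h ▸ hy)
  have m1 : (x, c i) ∈ S.lvl t := (mem_lvl S).2 ⟨hxc, h1⟩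
  have m2 : (c i, x) ∈ S.lvl t := (mem_lvl S).2 ⟨hxc.symm, (S.symm _ _).trans h1⟩
  have m3 : (y, c j) ∈ S.lvl t := (mem_lvl S).2 ⟨hyc, h2⟩
  by_contra hne
  have n1 : (y, c j) ≠ (x, c i) := by
    intro h
    rw [Prod.mk.injEq] at h
    exact hne ⟨hc i hi j hj h.2.symm, h.1.symm⟩
  have n2 : (y, c j) ≠ (c i, x) := by
    intro h
    rw [Prod.mk.injEq] at h
    exact hcQ j hj i hi (h.1 ▸ hy)
  have n3 : (x, c i) ≠ (c i, x) := by
    intro h
    rw [Prod.mk.injEq] at h
    exact hxc h.1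
  have hsub : ({(y, c j), (x, c i), (c i, x)} : Finset (V × V)) ⊆ S.lvl t := by
    intro p hp
    rw [mem_insert, mem_insert, mem_singleton] at hp
    rcases hp with rfl | rfl | rfl
    · exact m3
    · exact m1
    · exact m2
  have h3 := card_le_card hsub
  rw [card_insert_of_notMem (by simp only [mem_insert, mem_singleton, not_or]; exact ⟨n1, n2⟩),
    card_pair n3] at h3
  omega

omit [Fintype V] [DecidableEq V] in
private theorem pa_inj {A B : Finset V} (g : Equiv.Perm V) (h : ∀ x ∈ A, g x ∈ B) :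
    A.card ≤ B.card :=
  card_le_card_of_injOn g h g.injective.injOn

/-- the number of states of level `t` -/
private def pa_a (c : ℕ → V) (Q : ℕ → Finset V) (i t : ℕ) : ℕ :=
  ((Q i).filter fun x => S.w x (c i) = t).card

private theorem pa_split (c : ℕ → V) (Q : ℕ → Finset V) (i t : ℕ) :
    ((Q i).filter fun x => t ≤ S.w x (c i)).card =
      ((Q i).filter fun x => t + 1 ≤ S.w x (c i)).card + pa_a S c Q i t := by
  unfold pa_a
  rw [← card_union_of_disjoint]
  · congr 1
    ext x
    simp only [mem_filter, mem_union]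
    constructor
    · rintro ⟨h1, h2⟩
      by_cases h3 : S.w x (c i) = t
      · exact Or.inr ⟨h1, h3⟩
      · exact Or.inl ⟨h1, by omega⟩
    · rintro (⟨h1, h2⟩ | ⟨h1, h2⟩)
      · exact ⟨h1, by omega⟩
      · exact ⟨h1, by omega⟩
  · rw [disjoint_left]
    intro x h1 h2
    rw [mem_filter] at h1 h2
    omega

private theorem pa_const {P : ℕ → ℕ} {u v : ℕ} (huv : u ≤ v)
    (h : ∀ i, u ≤ i → i < v → P (i + 1) = P i) : P v = P u := by
  induction v, huv using Nat.le_induction with
  | base => rfl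
  | succ v hv ih =>
    rw [h v hv (Nat.lt_succ_self v)]
    exact ih fun i h1 h2 => h i h1 (by omega)

theorem prof_step {N : ℕ} (c : ℕ → V) (h : ℕ → Equiv.Perm V) (Q : ℕ → Finset V)
    (hc : ∀ i ≤ N, ∀ j ≤ N, c i = c j → i = j) (hP : ∀ i < N, h i ∈ S.P)
    (hc1 : ∀ i < N, h i (c i) = c (i + 1)) (hc2 : ∀ i < N, h i (c (i + 1)) = c i)
    (hQ1 : ∀ i < N, ∀ x ∈ Q i, h i x ∈ Q (i + 1)) (hQ2 : ∀ i < N, ∀ x ∈ Q (i + 1), h i x ∈ Q i)
    (hcQ : ∀ i ≤ N, ∀ j ≤ N, c j ∉ Q i) {s : ℕ}
    (hs : s = 0 ∨ ((S.lvl s).card ≤ 2 ∧ (S.lvl (s - 1)).card ≤ 2)) {b : ℕ} (hb : b ≤ N) {P : ℕ → ℕ}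
    (hPd : ∀ i, P i = ((Q i).filter fun x => s ≤ S.w x (c i)).card) :
    (∀ i ≤ N, P i ≤ P b + 1 ∧ P b ≤ P i + 1) ∧
      ((∀ i ≤ b, P i = P b) ∨ (∀ i, b ≤ i → i ≤ N → P i = P b)) := by
  -- one step of the strip
  have st1 : ∀ t, ∀ i < N, ((Q i).filter fun x => t + 1 ≤ S.w x (c i)).card ≤
      ((Q (i + 1)).filter fun x => t ≤ S.w x (c (i + 1))).card := by
    intro t i hi
    refine pa_inj (h i) fun x hx => ?_
    rw [mem_filter] at hx ⊢
    refine ⟨hQ1 i hi x hx.1, ?_⟩
    have h1 := S.step (h i) (hP i hi) x (c i)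
    rw [hc1 i hi] at h1
    omega
  have st2 : ∀ t, ∀ i < N, ((Q (i + 1)).filter fun x => t + 1 ≤ S.w x (c (i + 1))).card ≤
      ((Q i).filter fun x => t ≤ S.w x (c i)).card := by
    intro t i hi
    refine pa_inj (h i) fun x hx => ?_
    rw [mem_filter] at hx ⊢
    refine ⟨hQ2 i hi x hx.1, ?_⟩
    have h1 := S.step (h i) (hP i hi) x (c (i + 1))
    rw [hc2 i hi] at h1
    omega
  -- at most one change
  have main : (∀ i < N, P (i + 1) ≤ P i + 1 ∧ P i ≤ P (i + 1) + 1) ∧
      ∀ i < N, ∀ j < N, P (i + 1) ≠ P i → P (j + 1) ≠ P j → i = j := by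
    by_cases h0 : s = 0
    · have h1 : ∀ i < N, P (i + 1) = P i := by
        intro i hi
        have e1 : ∀ j, P j = (Q j).card := by
          intro j
          rw [hPd, h0]
          congr 1
          exact filter_true_of_mem fun x _ => Nat.zero_le _
        rw [e1, e1]
        exact le_antisymm (pa_inj (h i) (hQ2 i hi)) (pa_inj (h i) (hQ1 i hi))
      refine ⟨fun i hi => ?_, fun i hi j _ h2 _ => absurd (h1 i hi) h2⟩
      have := h1 i hi
      omega
    · obtain ⟨hA, hB⟩ := hs.resolve_left h0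
      obtain ⟨s', rfl⟩ : ∃ s', s = s' + 1 := ⟨s - 1, by omega⟩
      rw [Nat.add_sub_cancel] at hB
      have le1 : ∀ t, (S.lvl t).card ≤ 2 → ∀ i ≤ N, pa_a S c Q i t ≤ 1 := by
        intro t ht i hi
        refine card_le_one.2 fun x hx y hy => ?_
        rw [mem_filter] at hx hy
        exact (pa_uniq S hc hcQ ht hi hi hx.1 hy.1 hx.2 hy.2).2
      have un : ∀ t, (S.lvl t).card ≤ 2 → ∀ i ≤ N, ∀ j ≤ N, 1 ≤ pa_a S c Q i t →
          1 ≤ pa_a S c Q j t → i = j := by
        intro t ht i hi j hj h1 h2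
        obtain ⟨x, hx⟩ := card_pos.1 h1
        obtain ⟨y, hy⟩ := card_pos.1 h2
        rw [mem_filter] at hx hy
        exact (pa_uniq S hc hcQ ht hi hj hx.1 hy.1 hx.2 hy.2).1
      have d1 : ∀ i < N, P i ≤ P (i + 1) + pa_a S c Q i (s' + 1) := by
        intro i hi
        have h1 := pa_split S c Q i (s' + 1)
        have h2 := st1 (s' + 1) i hi
        rw [hPd, hPd]
        omega
      have d2 : ∀ i < N, P (i + 1) ≤ P i + pa_a S c Q (i + 1) (s' + 1) := by
        intro i hi
        have h1 := pa_split S c Q (i + 1) (s' + 1)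
        have h2 := st2 (s' + 1) i hi
        rw [hPd, hPd]
        omega
      have d3 : ∀ i < N, P i ≤ P (i + 1) + pa_a S c Q (i + 1) s' := by
        intro i hi
        have h1 := pa_split S c Q (i + 1) s'
        have h2 := st1 s' i hi
        rw [hPd, hPd]
        omega
      have d4 : ∀ i < N, P (i + 1) ≤ P i + pa_a S c Q i s' := by
        intro i hi
        have h1 := pa_split S c Q i s'
        have h2 := st2 s' i hi
        rw [hPd, hPd]
        omega
      refine ⟨fun i hi => ?_, ?_⟩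
      · have h1 := d1 i hi
        have h2 := d2 i hi
        have h3 := le1 (s' + 1) hA i (by omega)
        have h4 := le1 (s' + 1) hA (i + 1) (by omega)
        omega
      · have key : ∀ i < N, ∀ j < N, P (i + 1) ≠ P i → P (j + 1) ≠ P j → ¬ i < j := by
          intro i hi j hj h1 h2 hij
          have a1 := d1 i hi
          have a2 := d2 i hi
          have a3 := d3 i hi
          have a4 := d4 i hi
          have b1 := d1 j hj
          have b2 := d2 j hj
          have b3 := d3 j hj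
          have b4 := d4 j hj
          rcases Nat.lt_or_gt_of_ne h1 with h3 | h3
          · -- down at `i`
            rcases Nat.lt_or_gt_of_ne h2 with h4 | h4
            · have := un (s' + 1) hA i (by omega) j (by omega) (by omega) (by omega)
              omega
            · have := un (s' + 1) hA i (by omega) (j + 1) (by omega) (by omega) (by omega)
              omega
          · rcases Nat.lt_or_gt_of_ne h2 with h4 | h4
            · have := un s' hB i (by omega) (j + 1) (by omega) (by omega) (by omega)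
              omega
            · have := un (s' + 1) hA (i + 1) (by omega) (j + 1) (by omega) (by omega) (by omega)
              omega
        intro i hi j hj h1 h2
        have k1 := key i hi j hj h1 h2
        have k2 := key j hj i hi h2 h1
        omega
  by_cases hch : ∃ i0 < N, P (i0 + 1) ≠ P i0
  · obtain ⟨i0, hi0, hne⟩ := hch
    have e0 : ∀ i < N, i ≠ i0 → P (i + 1) = P i := by
      intro i hi hii
      by_contra h1
      exact hii (main.2 i hi i0 hi0 h1 hne)
    have e1 : ∀ i ≤ i0, P i = P i0 := fun i hi =>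
      (pa_const hi fun j _ h2 => e0 j (by omega) (by omega)).symm
    have e2 : ∀ i, i0 + 1 ≤ i → i ≤ N → P i = P (i0 + 1) := fun i hi hN =>
      pa_const hi fun j h1 h2 => e0 j (by omega) (by omega)
    have e3 := main.1 i0 hi0
    have e4 : ∀ i ≤ N, P i = P i0 ∨ P i = P (i0 + 1) := by
      intro i hi
      by_cases h1 : i ≤ i0
      · exact Or.inl (e1 i h1)
      · exact Or.inr (e2 i (by omega) hi)
    refine ⟨fun i hi => ?_, ?_⟩
    · rcases e4 i hi with h1 | h1 <;> rcases e4 b hb with h2 | h2 <;> rw [h1, h2] <;> omega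
    · by_cases h1 : b ≤ i0
      · left
        intro i hi
        rw [e1 i (by omega), e1 b h1]
      · right
        intro i hi hN
        rw [e2 i (by omega) hN, e2 b (by omega) hb]
  · push Not at hch
    have e1 : ∀ i ≤ N, P i = P 0 := fun i hi => pa_const (Nat.zero_le i) fun j _ h2 =>
      hch j (by omega)
    refine ⟨fun i hi => ?_, Or.inl fun i hi => ?_⟩
    · rw [e1 i hi, e1 b hb]
      omega
    · rw [e1 i (by omega), e1 b hb]

theorem prof_sum {N : ℕ} (c : ℕ → V) (Q : ℕ → Finset V)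
    (hc : ∀ i ≤ N, ∀ j ≤ N, c i = c j → i = j) (hcQ : ∀ i ≤ N, ∀ j ≤ N, c j ∉ Q i) (s s' : ℕ) :
    2 * ∑ i ∈ range (N + 1), ((Q i).filter fun x => s ≤ S.w x (c i) ∧ S.w x (c i) < s').card ≤
      ∑ t ∈ Ico s s', (S.lvl t).card := by
  obtain ⟨F, hF⟩ : ∃ F : ℕ → Finset V, F = fun i =>
    (Q i).filter fun x => s ≤ S.w x (c i) ∧ S.w x (c i) < s' := ⟨_, rfl⟩
  obtain ⟨R, hR⟩ : ∃ R : Finset (V × V), R = (off V).filter fun p => s ≤ S.wt p ∧ S.wt p < s' :=
    ⟨_, rfl⟩
  have hRc : R.card = ∑ t ∈ Ico s s', (S.lvl t).card := by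
    have h1 : R.card = ∑ t ∈ Ico s s', (R.filter fun p => S.wt p = t).card := by
      apply card_eq_sum_card_fiberwise
      intro p hp
      rw [mem_coe, hR, mem_filter] at hp
      simp only [coe_Ico, Set.mem_Ico]
      exact hp.2
    rw [h1]
    refine sum_congr rfl fun t ht => ?_
    congr 1
    ext p
    rw [hR, mem_filter, mem_filter, mem_lvl, mem_off]
    rw [mem_Ico] at ht
    constructor
    · rintro ⟨⟨h2, h3⟩, h4⟩
      exact ⟨h2, h4⟩
    · rintro ⟨h2, h4⟩
      exact ⟨⟨h2, by omega⟩, h4⟩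
  have hU : ∑ i ∈ range (N + 1), (F i).card = ((range (N + 1)).sigma F).card := by
    rw [card_sigma]
  have e0 : ∑ i ∈ range (N + 1), ((Q i).filter fun x => s ≤ S.w x (c i) ∧ S.w x (c i) < s').card
      = ((range (N + 1)).sigma F).card := by
    rw [← hU, hF]
  rw [e0, ← hRc]
  obtain ⟨U, hUd⟩ : ∃ U, U = (range (N + 1)).sigma F := ⟨_, rfl⟩
  rw [← hUd]
  have memU : ∀ u ∈ U, u.1 ≤ N ∧ u.2 ∈ Q u.1 ∧ s ≤ S.w u.2 (c u.1) ∧ S.w u.2 (c u.1) < s' := by
    intro u hu
    rw [hUd, mem_sigma, mem_range, hF, mem_filter] at hu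
    exact ⟨by omega, hu.2.1, hu.2.2⟩
  have i1 : (U.image fun u => (u.2, c u.1)).card = U.card := by
    refine card_image_of_injOn ?_
    intro u hu v hv huv
    have m1 := memU u hu
    have m2 := memU v hv
    simp only [Prod.mk.injEq] at huv
    have h1 := hc _ m1.1 _ m2.1 huv.2
    obtain ⟨i, x⟩ := u
    obtain ⟨j, y⟩ := v
    simp only at h1 huv
    rw [h1, huv.1]
  have i2 : (U.image fun u => (c u.1, u.2)).card = U.card := by
    refine card_image_of_injOn ?_
    intro u hu v hv huv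
    have m1 := memU u hu
    have m2 := memU v hv
    simp only [Prod.mk.injEq] at huv
    have h1 := hc _ m1.1 _ m2.1 huv.1
    obtain ⟨i, x⟩ := u
    obtain ⟨j, y⟩ := v
    simp only at h1 huv
    rw [h1, huv.2]
  have hd : Disjoint (U.image fun u => (u.2, c u.1)) (U.image fun u => (c u.1, u.2)) := by
    rw [disjoint_left]
    intro p h1 h2
    rw [mem_image] at h1 h2
    obtain ⟨u, hu, rfl⟩ := h1
    obtain ⟨v, hv, h3⟩ := h2
    rw [Prod.mk.injEq] at h3
    have m1 := memU u hu
    have m2 := memU v hv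
    exact hcQ _ m1.1 _ m2.1 (h3.1 ▸ m1.2.1)
  have hsub : (U.image fun u => (u.2, c u.1)) ∪ (U.image fun u => (c u.1, u.2)) ⊆ R := by
    intro p hp
    rw [mem_union, mem_image, mem_image] at hp
    rw [hR, mem_filter, mem_off]
    rcases hp with ⟨u, hu, rfl⟩ | ⟨u, hu, rfl⟩
    · have m1 := memU u hu
      refine ⟨fun h1 => ?_, m1.2.2⟩
      have h2 : u.2 = c u.1 := h1
      exact hcQ _ m1.1 _ m1.1 (h2 ▸ m1.2.1)
    · have m1 := memU u hu
      refine ⟨fun h1 => ?_, ?_⟩
      · have h2 : c u.1 = u.2 := h1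
        exact hcQ _ m1.1 _ m1.1 (h2.symm ▸ m1.2.1)
      show s ≤ S.w (c u.1) u.2 ∧ S.w (c u.1) u.2 < s'
      rw [S.symm]
      exact m1.2.2
  have h1 := card_le_card hsub
  rw [card_union_of_disjoint hd, i1, i2] at h1
  omega

end Pool.Agent.SYT
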