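import Pool.Agent.SYU.ProfA

/-!
# SYU-ProfB: the profile lemma

Project SYU (MP_a3a126_co), paper proof in /team-store/a3a126b_87.md, section D1.
-/

set_option autoImplicit false

open Finset

namespace Pool.Agent.SYT

variable {V : Type} [Fintype V] [DecidableEq V] (S : Sys V)

private def pbGood (t : ℕ) : Prop := t = 0 ∨ ((S.lvl t).card ≤ 2 ∧ (S.lvl (t - 1)).card ≤ 2)

/-- no good level in a long interval -/
private theorem pb_bad {b u : ℕ} {I : Finset ℕ}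
    (hbad : ∀ s ∈ Icc u (u + b / 2), ¬ pbGood S s) (hI1 : ∀ s ∈ Icc u (u + b / 2), s ∈ I)
    (hI2 : ∀ s ∈ Icc u (u + b / 2), s - 1 ∈ I) :
    b ≤ 8 * ∑ t ∈ I, ((S.lvl t).card - 2) := by
  have h0 : ∀ s ∈ Icc u (u + b / 2), s ≠ 0 ∧
      1 ≤ ((S.lvl s).card - 2) + ((S.lvl (s - 1)).card - 2) := by
    intro s hs
    have h := hbad s hs
    unfold pbGood at h
    push Not at h
    refine ⟨h.1, ?_⟩
    by_contra hc
    have h2 := h.2 (by omega)
    omega
  have h1 : ∑ s ∈ Icc u (u + b / 2), 1 ≤ ∑ s ∈ Icc u (u + b / 2),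
      (((S.lvl s).card - 2) + ((S.lvl (s - 1)).card - 2)) := sum_le_sum fun s hs => (h0 s hs).2
  rw [sum_const, Nat.card_Icc, smul_eq_mul, mul_one, sum_add_distrib] at h1
  have h2 : ∑ s ∈ Icc u (u + b / 2), ((S.lvl s).card - 2) ≤ ∑ t ∈ I, ((S.lvl t).card - 2) :=
    sum_le_sum_of_subset hI1
  have h3 : ∑ s ∈ Icc u (u + b / 2), ((S.lvl (s - 1)).card - 2) ≤
      ∑ t ∈ I, ((S.lvl t).card - 2) := by
    have h4 : ∑ s ∈ Icc u (u + b / 2), ((S.lvl (s - 1)).card - 2) =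
        ∑ t ∈ (Icc u (u + b / 2)).image (fun s => s - 1), ((S.lvl t).card - 2) := by
      rw [sum_image]
      intro x hx y hy hxy
      have hx0 := (h0 x (mem_coe.1 hx)).1
      have hy0 := (h0 y (mem_coe.1 hy)).1
      simp only at hxy
      omega
    rw [h4]
    refine sum_le_sum_of_subset fun t ht => ?_
    obtain ⟨s, hs, rfl⟩ := mem_image.1 ht
    exact hI2 s hs
  omega

theorem profile {b : ℕ} (hb64 : 64 ≤ b) (c : ℕ → V) (h : ℕ → Equiv.Perm V) (Q : ℕ → Finset V)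
    (hc : ∀ i ≤ 2 * b, ∀ j ≤ 2 * b, c i = c j → i = j) (hP : ∀ i < 2 * b, h i ∈ S.P)
    (hc1 : ∀ i < 2 * b, h i (c i) = c (i + 1)) (hc2 : ∀ i < 2 * b, h i (c (i + 1)) = c i)
    (hQ1 : ∀ i < 2 * b, ∀ x ∈ Q i, h i x ∈ Q (i + 1))
    (hQ2 : ∀ i < 2 * b, ∀ x ∈ Q (i + 1), h i x ∈ Q i)
    (hcQ : ∀ i ≤ 2 * b, ∀ j ≤ 2 * b, c j ∉ Q i) {y y' : V} (hy : y ∈ Q b) (hy' : y' ∈ Q b)
    (hne : y ≠ y') (h1 : S.w y' (c b) ≤ S.w y (c b))
    (h2 : 16 * S.w y (c b) ≤ 16 * S.w y' (c b) + b) :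
    b ≤ 8 * ∑ t ∈ Icc (S.w y' (c b) - b) (S.w y (c b) + b), ((S.lvl t).card - 2) := by
  classical
  obtain ⟨t1, ht1⟩ : ∃ t1, t1 = S.w y (c b) := ⟨_, rfl⟩
  obtain ⟨t2, ht2⟩ : ∃ t2, t2 = S.w y' (c b) := ⟨_, rfl⟩
  rw [← ht1, ← ht2] at h1 h2 ⊢
  by_cases hA : ∀ s ∈ Icc (t1 + 1) (t1 + 1 + b / 2), ¬ pbGood S s
  · refine pb_bad S hA ?_ ?_
    · intro s hs
      rw [mem_Icc] at hs ⊢
      omega
    · intro s hs
      rw [mem_Icc] at hs ⊢
      omega
  by_cases hB : ∀ s ∈ Icc (t2 - b / 2) (t2 - b / 2 + b / 2), ¬ pbGood S s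
  · have h3 : b / 2 < t2 := by
      by_contra hc
      refine hB 0 ?_ (Or.inl rfl)
      rw [mem_Icc]
      omega
    refine pb_bad S hB ?_ ?_
    · intro s hs
      rw [mem_Icc] at hs ⊢
      omega
    · intro s hs
      rw [mem_Icc] at hs ⊢
      omega
  push Not at hA hB
  obtain ⟨sp, hsp, gp⟩ := hA
  obtain ⟨sm0, hsm0, gm0⟩ := hB
  rw [mem_Icc] at hsp hsm0
  obtain ⟨sm, hsm1, hsm2, gm⟩ : ∃ sm, t2 - b / 2 ≤ sm ∧ sm ≤ t2 ∧ pbGood S sm := by
    rcases Nat.lt_or_ge t2 (b / 2) with h | h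
    · exact ⟨0, by omega, by omega, Or.inl rfl⟩
    · exact ⟨sm0, hsm0.1, by omega, gm0⟩
  obtain ⟨Pm, hPm⟩ : ∃ Pm : ℕ → ℕ, ∀ i, Pm i = ((Q i).filter fun x => sm ≤ S.w x (c i)).card :=
    ⟨_, fun i => rfl⟩
  obtain ⟨Pp, hPp⟩ : ∃ Pp : ℕ → ℕ, ∀ i, Pp i = ((Q i).filter fun x => sp ≤ S.w x (c i)).card :=
    ⟨_, fun i => rfl⟩
  obtain ⟨D, hD⟩ : ∃ D : ℕ → ℕ, ∀ i, D i =
      ((Q i).filter fun x => sm ≤ S.w x (c i) ∧ S.w x (c i) < sp).card := ⟨_, fun i => rfl⟩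
  obtain ⟨m1, m2⟩ := prof_step S c h Q hc hP hc1 hc2 hQ1 hQ2 hcQ gm (by omega : b ≤ 2 * b) hPm
  obtain ⟨p1, p2⟩ := prof_step S c h Q hc hP hc1 hc2 hQ1 hQ2 hcQ gp (by omega : b ≤ 2 * b) hPp
  have hrel : ∀ i, Pm i = D i + Pp i := by
    intro i
    rw [hPm, hPp, hD, ← card_union_of_disjoint]
    · congr 1
      ext x
      simp only [mem_filter, mem_union]
      constructor
      · rintro ⟨hx, hx2⟩
        rcases Nat.lt_or_ge (S.w x (c i)) sp with h5 | h5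
        · exact Or.inl ⟨hx, hx2, h5⟩
        · exact Or.inr ⟨hx, h5⟩
      · rintro (⟨hx, hx2, -⟩ | ⟨hx, hx2⟩)
        · exact ⟨hx, hx2⟩
        · exact ⟨hx, by omega⟩
    · rw [disjoint_left]
      intro x hx hx2
      rw [mem_filter] at hx hx2
      omega
  have hDb : 2 ≤ D b := by
    rw [hD, ← card_pair hne]
    refine card_le_card fun x hx => ?_
    rw [mem_insert, mem_singleton] at hx
    rw [mem_filter]
    rcases hx with rfl | rfl
    · exact ⟨hy, by omega, by omega⟩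
    · exact ⟨hy', by omega, by omega⟩
  have hsum : 2 * b + 1 ≤ ∑ i ∈ range (2 * b + 1), D i := by
    have hsame : ∀ (u : ℕ), u + b ≤ 2 * b → (∀ i, u ≤ i → i ≤ u + b → 2 ≤ D i) →
        2 * b + 1 ≤ ∑ i ∈ range (2 * b + 1), D i := by
      intro u hu h6
      have h7 : ∑ i ∈ Icc u (u + b), 2 ≤ ∑ i ∈ Icc u (u + b), D i :=
        sum_le_sum fun i hi => h6 i (mem_Icc.1 hi).1 (mem_Icc.1 hi).2
      have h8 : ∑ i ∈ Icc u (u + b), D i ≤ ∑ i ∈ range (2 * b + 1), D i := by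
        refine sum_le_sum_of_subset fun i hi => ?_
        rw [mem_Icc] at hi
        rw [mem_range]
        omega
      rw [sum_const, Nat.card_Icc, smul_eq_mul] at h7
      omega
    have hdiff : (∀ i ≤ 2 * b, 1 ≤ D i) → 2 * b + 1 ≤ ∑ i ∈ range (2 * b + 1), D i := by
      intro h6
      have h7 : ∑ i ∈ range (2 * b + 1), 1 ≤ ∑ i ∈ range (2 * b + 1), D i :=
        sum_le_sum fun i hi => h6 i (by
          rw [mem_range] at hi
          omega)
      rw [sum_const, card_range, smul_eq_mul] at h7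
      omega
    have rb := hrel b
    rcases m2 with m3 | m3 <;> rcases p2 with p3 | p3
    · refine hsame 0 (by omega) fun i _ hi => ?_
      have r1 := hrel i
      have r2 := m3 i (by omega)
      have r3 := p3 i (by omega)
      omega
    · refine hdiff fun i hi => ?_
      have r1 := hrel i
      have r4 := m1 i hi
      have r5 := p1 i hi
      rcases Nat.le_total i b with h9 | h9
      · have r2 := m3 i h9
        omega
      · have r2 := p3 i h9 hi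
        omega
    · refine hdiff fun i hi => ?_
      have r1 := hrel i
      have r4 := m1 i hi
      have r5 := p1 i hi
      rcases Nat.le_total i b with h9 | h9
      · have r2 := p3 i h9
        omega
      · have r2 := m3 i h9 hi
        omega
    · refine hsame b (by omega) fun i hi1 hi2 => ?_
      have r1 := hrel i
      have r2 := m3 i hi1 (by omega)
      have r3 := p3 i hi1 (by omega)
      omega
  have hps : 2 * ∑ i ∈ range (2 * b + 1), D i ≤ ∑ t ∈ Ico sm sp, (S.lvl t).card := by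
    rw [sum_congr rfl fun i _ => hD i]
    exact prof_sum S c Q hc hcQ sm sp
  have hlv : ∑ t ∈ Ico sm sp, (S.lvl t).card ≤
      2 * (sp - sm) + ∑ t ∈ Ico sm sp, ((S.lvl t).card - 2) := by
    have h6 : ∑ t ∈ Ico sm sp, (S.lvl t).card ≤ ∑ t ∈ Ico sm sp, (2 + ((S.lvl t).card - 2)) :=
      sum_le_sum fun t _ => by omega
    rw [sum_add_distrib, sum_const, Nat.card_Ico, smul_eq_mul] at h6
    omega
  have hsub : ∑ t ∈ Ico sm sp, ((S.lvl t).card - 2) ≤
      ∑ t ∈ Icc (t2 - b) (t1 + b), ((S.lvl t).card - 2) := by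
    refine sum_le_sum_of_subset fun t ht => ?_
    rw [mem_Ico] at ht
    rw [mem_Icc]
    omega
  omega

end Pool.Agent.SYT
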