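import Pool.Agent.SYU.ProfB
import Pool.Agent.SYU.FreeD

/-!
# SYU-Slab: two states of `E` at nearly the same level from a free state

Project SYU (MP_a3a126_co), paper proof in /team-store/a3a126b_87.md, section D3.

`v` is `Free (4b)`: chain `C 0, …, C (8b)`, `C (4b) = v`, letters `alt (ε + i)`. Apply `profile` with `c i = C (3b + i)`,
`h i = alt (ε + 3b + i)`, `i ≤ 2b` (resp. `<`), and `Q i` = complement of `{C k : k ∈ K (3b+i)}`, where for `a ∈ [3b, 5b]`
`K a = {k ≤ 8b : (k ≡ a mod 2 and |k - a| ≤ 2b) or (k ≢ a mod 2 and |k + a - 8b| ≤ 2b)}` (all such `k` lie in `[b, 7b]`).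
The letter `alt (ε + a)` maps `C k` to `C (k+1)` if `k ≡ a mod 2` and to `C (k-1)` otherwise, so it maps `C(K a)` into
`C(K (a+1))` and `C(K (a+1))` into `C(K a)` for `3b ≤ a < 5b`: `k ≡ a`, `|k-a| ≤ 2b` gives `k+1 ≡ a+1`, same difference;
`k ≢ a` gives `k-1 ≢ a+1`, same sum `(k-1)+(a+1)`; conversely `k ≡ a+1` (so `k ≢ a`) goes to `k-1 ≡ a`, and `k ≢ a+1` (so
`k ≡ a`) goes to `k+1 ≢ a`, sum `(k+1)+a`. As the `C k` are distinct and the letter is a bijection, both sets have
the same cardinality and the letter maps one ONTO the other, hence complement into complement, in both directions.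
`c j ∉ Q i`: for `a, a' ∈ [3b, 5b]`: `a' ∈ K a` (same parity: `|a'-a| ≤ 2b`; different: `6b ≤ a+a' ≤ 10b`).
`E ⊆ Q i` because the chain avoids `E`. `c b = C (4b) = v`.
-/

set_option autoImplicit false

open Finset

namespace Pool.Agent.SYT

variable {V : Type} [Fintype V] [DecidableEq V] (S : Sys V)

/-- the indices of the strip at time `a` -/
private def slK (b a k : ℕ) : Prop :=
  k ≤ 8 * b ∧ ((k % 2 = a % 2 ∧ k ≤ a + 2 * b ∧ a ≤ k + 2 * b) ∨
    (k % 2 ≠ a % 2 ∧ k + a ≤ 10 * b ∧ 6 * b ≤ k + a))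

omit [Fintype V] [DecidableEq V] in
private theorem sl_alt {f g : Equiv.Perm V} {m n : ℕ} (h : m % 2 = n % 2) :
    alt f g m = alt f g n := by
  unfold alt
  rw [h]

theorem slab {f g : Equiv.Perm V} (hf : f ∈ S.P) (hg : g ∈ S.P) {E : Finset V} {b : ℕ}
    (hb64 : 64 ≤ b) {v : V} (hv : Free f g E (4 * b) v) {y y' : V} (hy : y ∈ E) (hy' : y' ∈ E)
    (hne : y ≠ y') (h1 : S.w y' v ≤ S.w y v) (h2 : 16 * S.w y v ≤ 16 * S.w y' v + b) :
    b ≤ 8 * ∑ t ∈ Icc (S.w y' v - b) (S.w y v + b), ((S.lvl t).card - 2) := by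
  classical
  obtain ⟨ε, C, hCv, hCE, hCd, hCs⟩ := hv
  have hbb : 2 * (4 * b) = 8 * b := by ring
  rw [hbb] at hCE hCd hCs
  obtain ⟨Q, hQ⟩ : ∃ Q : ℕ → Finset V, ∀ i x, x ∈ Q i ↔ ∀ k, slK b (3 * b + i) k → C k ≠ x :=
    ⟨fun i => univ.filter fun x => ∀ k, slK b (3 * b + i) k → C k ≠ x, fun i x => by simp⟩
  have hup : ∀ k a, k % 2 = a % 2 → k < 8 * b → alt f g (ε + a) (C k) = C (k + 1) := by
    intro k a hka hk
    rw [← (hCs k hk).1, sl_alt (m := ε + a) (n := ε + k) (by omega)]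
  have hdn : ∀ k a, k % 2 = a % 2 → k < 8 * b → alt f g (ε + a) (C (k + 1)) = C k := by
    intro k a hka hk
    rw [← (hCs k hk).2, sl_alt (m := ε + a) (n := ε + k) (by omega)]
  have hcb : C (3 * b + b) = v := by
    rw [← hCv]
    congr 1
    ring
  have hyQ : ∀ z ∈ E, ∀ i, z ∈ Q i := by
    intro z hz i
    rw [hQ]
    rintro k ⟨hk, -⟩ rfl
    exact hCE k hk hz
  have key := profile S hb64 (fun i => C (3 * b + i)) (fun i => alt f g (ε + (3 * b + i))) Q
    (fun i hi j hj h => by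
      have := hCd (3 * b + i) (by omega) (3 * b + j) (by omega) h
      omega)
    (fun i _ => by
      simp only [alt]
      split_ifs
      · exact hf
      · exact hg)
    (fun i hi => (hCs (3 * b + i) (by omega)).1)
    (fun i hi => (hCs (3 * b + i) (by omega)).2)
    (fun i hi x hx => by
      rw [hQ] at hx ⊢
      rintro k ⟨hk8, hk⟩ he
      rcases hk with ⟨k1, k2, k3⟩ | ⟨k1, k2, k3⟩
      · obtain ⟨k', rfl⟩ : ∃ k', k = k' + 1 := ⟨k - 1, by omega⟩
        have h3 := hup k' (3 * b + i) (by omega) (by omega)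
        rw [he] at h3
        refine hx k' ⟨by omega, Or.inl ⟨by omega, by omega, by omega⟩⟩ ?_
        exact (alt f g (ε + (3 * b + i))).injective h3
      · have h3 := hdn k (3 * b + i) (by omega) (by omega)
        rw [he] at h3
        refine hx (k + 1) ⟨by omega, Or.inr ⟨by omega, by omega, by omega⟩⟩ ?_
        exact (alt f g (ε + (3 * b + i))).injective h3)
    (fun i hi x hx => by
      rw [hQ] at hx ⊢
      rintro k ⟨hk8, hk⟩ he
      rcases hk with ⟨k1, k2, k3⟩ | ⟨k1, k2, k3⟩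
      · have h3 := hdn k (3 * b + i) (by omega) (by omega)
        rw [he] at h3
        refine hx (k + 1) ⟨by omega, Or.inl ⟨by omega, by omega, by omega⟩⟩ ?_
        exact (alt f g (ε + (3 * b + i))).injective h3
      · obtain ⟨k', rfl⟩ : ∃ k', k = k' + 1 := ⟨k - 1, by omega⟩
        have h3 := hup k' (3 * b + i) (by omega) (by omega)
        rw [he] at h3
        refine hx k' ⟨by omega, Or.inr ⟨by omega, by omega, by omega⟩⟩ ?_
        exact (alt f g (ε + (3 * b + i))).injective h3)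
    (fun i hi j hj => by
      rw [hQ]
      intro h
      refine h (3 * b + j) ⟨by omega, ?_⟩ rfl
      by_cases hp : (3 * b + j) % 2 = (3 * b + i) % 2
      · exact Or.inl ⟨hp, by omega, by omega⟩
      · exact Or.inr ⟨hp, by omega, by omega⟩)
    (hyQ y hy b) (hyQ y' hy' b) hne
  simp only [hcb] at key
  exact key h1 h2

end Pool.Agent.SYT
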